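import Pool.Agent.LibDm83.FoB

/-! Task Enl: adding coordinates. -/

namespace Pool.Agent.LibDm83

open Cardinal Set Pool.Agent.LibTk83

variable {W K : Type} [LinearOrder K]

theorem enl_le {H : K} {u X : Set W} {p : Raw W K} (hp : WF p) (hH : p.h < H) :
    enl H u X p ≤ p := by
  refine Raw.le_def.2 ⟨hH.le, subset_union_left, fun _ _ => Iff.rfl, ?_, ?_⟩
  · intro i _ x hx
    constructor
    · rintro (h | ⟨h, -⟩)
      · exact h
      · exact absurd h hx.ne
    · exact Or.inl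
  · intro i _ x hx
    constructor
    · rintro (h | ⟨h, -⟩)
      · exact h
      · exact absurd h (hx.trans_lt hH).ne
    · exact Or.inl

theorem card_union_lt (hK : Inac K) {T : Type} {x y : Set T} (hx : #x < #K) (hy : #y < #K) :
    #(x ∪ y : Set T) < #K :=
  (mk_union_le x y).trans_lt (add_lt_of_lt hK.unc.le hx hy)

theorem WF_enl (hK : Inac K) {H : K} {u X : Set W} {p : Raw W K} (hp : WF p) (hH : p.h < H)
    (hu : #u < #K) (hX : X ⊆ p.dom ∪ u) : WF (enl H u X p) where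
  small := card_union_lt hK hp.small hu
  s_lt := fun x hx => (hp.s_lt x hx).trans hH
  s_cof := hp.s_cof
  a_lt := by
    rintro i x (h | ⟨h, -⟩)
    · exact (hp.a_lt i x h).trans hH
    · exact h.trans_lt hH
  c_le := by
    rintro i x (h | ⟨h, -⟩)
    · exact ((hp.c_le i x h).trans_lt hH).le
    · exact h.le
  a_dom := by
    rintro i x (h | ⟨-, h⟩)
    · exact Or.inl (hp.a_dom i x h)
    · exact hX h
  c_dom := by
    rintro i x (h | ⟨-, h⟩)
    · exact Or.inl (hp.c_dom i x h)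
    · exact h
  top_c := fun i hi => Or.inr ⟨rfl, hi⟩
  clo := by
    intro i hi g hg hb hl
    rcases eq_or_lt_of_le (show g ≤ H from hg) with h | h
    · exact Or.inr ⟨h, hi⟩
    · left
      have hl' : ∀ b < g, ∃ a ∈ p.c i, b < a ∧ a < g := by
        intro b hbg
        obtain ⟨a, ha, hba, hag⟩ := hl b hbg
        rcases ha with ha | ⟨ha, -⟩
        · exact ⟨a, ha, hba, hag⟩
        · exact absurd ha (hag.trans h).ne
      rcases le_or_gt g p.h with hgp | hgp
      · obtain ⟨b, hbg⟩ := hb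
        obtain ⟨a, ha, -, -⟩ := hl' b hbg
        exact hp.clo i (hp.c_dom i a ha) g hgp ⟨b, hbg⟩ hl'
      · obtain ⟨a, ha, hpa, -⟩ := hl' p.h hgp
        exact absurd (hp.c_le i a ha) (not_le.2 hpa)

theorem res_enl (Y : Set W) (H : K) (u X : Set W) (p : Raw W K) :
    res Y (enl H u X p) = enl H (u ∩ Y) (X ∩ Y) (res Y p) := by
  refine Raw.ext' rfl rfl ?_ ?_ ?_
  · exact union_inter_distrib_right _ _ _
  · intro i
    ext x
    show (x ∈ p.a i ∨ (x = p.h ∧ i ∈ X)) ∧ i ∈ Y ↔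
      (x ∈ p.a i ∧ i ∈ Y) ∨ (x = p.h ∧ i ∈ X ∩ Y)
    rw [mem_inter_iff]
    tauto
  · intro i
    ext x
    show (x ∈ p.c i ∨ (x = H ∧ i ∈ p.dom ∪ u)) ∧ i ∈ Y ↔
      (x ∈ p.c i ∧ i ∈ Y) ∨ (x = H ∧ i ∈ (p.dom ∩ Y) ∪ (u ∩ Y))
    rw [← union_inter_distrib_right, mem_inter_iff]
    tauto

variable [LinearOrder W] [WellFoundedLT W] {dat : W → K → K → Bool → Set (Raw W K)}

/- `OkAt_mono`: for `j ∈ p.dom`, a point `α` of `c j` in `s` is in `p.c j`, as `H` is not in `s`;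
for `j ∉ p.dom` there is no such point. -/
theorem Val_enl (hK : Inac K) {H : K} {u X : Set W} {p : Raw W K} (hp : Val dat p) (hH : p.h < H)
    (hu : #u < #K) (hX : X ⊆ p.dom ∪ u) : Val dat (enl H u X p) := by
  refine ⟨WF_enl hK hp.1 hH hu hX, fun j _ => ?_⟩
  have key : ∀ α ∈ (enl H u X p).c j, α ∈ p.s → α ∈ p.c j := by
    rintro α (h | ⟨h, -⟩) hs
    · exact h
    · exact absurd h ((hp.1.s_lt α hs).trans hH).ne
  by_cases hj : j ∈ p.dom
  · refine OkAt_mono (hp.2 j hj) (res_mono _ (enl_le hp.1 hH)) ?_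
    intro α hc hs
    refine ⟨key α hc hs, hs, fun δ hδ => ⟨?_, Or.inl⟩⟩
    rintro (h | ⟨h, -⟩)
    · exact h
    · exact absurd h (hδ.trans (hp.1.s_lt α hs)).ne
  · intro α hc hs
    exact absurd (hp.1.c_dom j α (key α hc hs)) hj

end Pool.Agent.LibDm83
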