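import Pool.Agent.LibDm83.Part
import Pool.Agent.LibDm83.Enl

/-! Task AddC: adding one coordinate after all others. -/

namespace Pool.Agent.LibDm83

open Cardinal Set Pool.Agent.LibTk83

variable {W K : Type} [LinearOrder K] [LinearOrder W] [WellFoundedLT W]
  {dat : W → K → K → Bool → Set (Raw W K)}

theorem addc_le {i : W} (A C : Set K) {r : Raw W K} (h : ∀ j ∈ r.dom, j < i) :
    addc i A C r ≤ r := by
  refine Raw.le_def.2 ⟨le_rfl, subset_insert _ _, fun _ _ => Iff.rfl, ?_, ?_⟩
  · intro j hj x _
    constructor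
    · rintro (h' | ⟨h', -⟩)
      · exact h'
      · exact absurd h' (h j hj).ne
    · exact Or.inl
  · intro j hj x _
    constructor
    · rintro (h' | ⟨h', -⟩)
      · exact h'
      · exact absurd h' (h j hj).ne
    · exact Or.inl

theorem res_addc {i : W} (A C : Set K) {r : Raw W K} (hr : WF r) (h : ∀ j ∈ r.dom, j < i) :
    res (Iio i) (addc i A C r) = r := by
  refine Raw.ext' rfl rfl ?_ ?_ ?_
  · ext j
    constructor
    · rintro ⟨h1 | h1, h2⟩
      · exact absurd h1 (ne_of_lt h2)
      · exact h1
    · intro h1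
      exact ⟨Or.inr h1, h j h1⟩
  · intro j
    ext x
    constructor
    · rintro ⟨h1 | ⟨h1, -⟩, h2⟩
      · exact h1
      · exact absurd h1 (ne_of_lt h2)
    · intro h1
      exact ⟨Or.inl h1, h j (hr.a_dom j x h1)⟩
  · intro j
    ext x
    constructor
    · rintro ⟨h1 | ⟨h1, -⟩, h2⟩
      · exact h1
      · exact absurd h1 (ne_of_lt h2)
    · intro h1
      exact ⟨Or.inl h1, h j (hr.c_dom j x h1)⟩

/- For `j ∈ r.dom` the conditions `addc i A C r` and `r` agree on `Iic j`. For `j = i`: `res_addc`,
`hok`; note `r.h ∉ r.s`. -/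
theorem Val_addc (hK : Inac K) {i : W} {A C : Set K} {r : Raw W K} (hr : ValB dat i r)
    (hA : ∀ x ∈ A, x < r.h) (hC : ∀ x ∈ C, x < r.h)
    (hclo : ∀ g < r.h, (∃ b, b < g) → (∀ b < g, ∃ a ∈ C, b < a ∧ a < g) → g ∈ C)
    (hok : ∀ α ∈ C, α ∈ r.s → ∃ δ < α, ∃ b : Bool, (b = true ↔ δ ∉ A) ∧ Fo dat i α δ b r) :
    Val dat (addc i A C r) := by
  have hw : WF r := hr.1.1
  have hi : i ∉ r.dom := fun h => lt_irrefl i (hr.2 i h)
  refine ⟨?_, ?_⟩
  · exact
    { small := by
        refine lt_of_le_of_lt (mk_insert_le (α := W)) ?_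
        exact add_lt_of_lt hK.unc.le hw.small (one_lt_aleph0.trans hK.unc)
      s_lt := hw.s_lt
      s_cof := hw.s_cof
      a_lt := by
        rintro j x (h | ⟨-, h⟩)
        · exact hw.a_lt j x h
        · exact hA x h
      c_le := by
        rintro j x (h | ⟨-, h | h⟩)
        · exact hw.c_le j x h
        · exact (hC x h).le
        · exact h.le
      a_dom := by
        rintro j x (h | ⟨h, -⟩)
        · exact Or.inr (hw.a_dom j x h)
        · exact Or.inl h
      c_dom := by
        rintro j x (h | ⟨h, -⟩)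
        · exact Or.inr (hw.c_dom j x h)
        · exact Or.inl h
      top_c := by
        rintro j (h | h)
        · exact Or.inr ⟨h, Or.inr rfl⟩
        · exact Or.inl (hw.top_c j h)
      clo := by
        rintro j (h | h)
        · intro g hg hb hl
          rcases eq_or_lt_of_le (show g ≤ r.h from hg) with hgr | hgr
          · exact Or.inr ⟨h, Or.inr hgr⟩
          · refine Or.inr ⟨h, Or.inl (hclo g hgr hb ?_)⟩
            intro b hbg
            obtain ⟨a, ha, hba, hag⟩ := hl b hbg
            rcases ha with ha | ⟨-, ha | ha⟩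
            · exact absurd (h ▸ hw.c_dom j a ha) hi
            · exact ⟨a, ha, hba, hag⟩
            · exact absurd ha (hag.trans hgr).ne
        · intro g hg hb hl
          refine Or.inl (hw.clo j h g hg hb ?_)
          intro b hbg
          obtain ⟨a, ha, hba, hag⟩ := hl b hbg
          rcases ha with ha | ⟨ha, -⟩
          · exact ⟨a, ha, hba, hag⟩
          · exact absurd (ha ▸ h) hi }
  · rintro j (h | h)
    · subst h
      rintro α (hc | ⟨-, hc | hc⟩) hs
      · exact absurd (hw.c_dom j α hc) hi
      · obtain ⟨δ, hδ, b, hb, hF⟩ := hok α hc hs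
        refine ⟨δ, hδ, b, hb.trans (not_congr ?_), ?_⟩
        · constructor
          · exact fun hd => Or.inr ⟨rfl, hd⟩
          · rintro (hd | ⟨-, hd⟩)
            · exact absurd (hw.a_dom j δ hd) hi
            · exact hd
        · rw [res_addc A C hw hr.2]
          exact hF
      · exact absurd hc (hw.s_lt α hs).ne
    · have hji : j ≠ i := (hr.2 j h).ne
      refine OkAt_mono (hr.1.2 j h) (res_mono _ (addc_le A C hr.2)) ?_
      intro α hc hs
      refine ⟨?_, hs, fun δ _ => ⟨?_, Or.inl⟩⟩
      · rcases hc with hc | ⟨hc, -⟩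
        · exact hc
        · exact absurd hc hji
      · rintro (hd | ⟨hd, -⟩)
        · exact hd
        · exact absurd hd hji

end Pool.Agent.LibDm83
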