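import Pool.Agent.LibDm83.RawCard

/-! Task Book: the bookkeeping. -/

namespace Pool.Agent.LibDm83

open Cardinal Set

variable {W K : Type} [LinearOrder K] [LinearOrder W]

/- Take a surjection `e` of `W` onto the product of the set of the names and `W` (`card_names_le`;
the empty name shows that the set of names is not empty). Let `dat j = (e j).1`. Each name `ν` is
`dat j` for `#W` many `j`, and `#(Iio (succ w0))`... the set of the `j ≤ w0` has fewer than `#W`
elements (`Len.iio`, `Len.bdd`). -/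
theorem exists_dat (hK : Inac K) (hW : Len W K) : ∃ dat : W → K → K → Bool → Set (Raw W K),
    ∀ ν : K → K → Bool → Set (Raw W K), (∀ α δ b, #(ν α δ b) ≤ #K) →
      (∀ α δ b, ∀ g ∈ ν α δ b, WF g) → ∀ w, ∃ j, w < j ∧ dat j = ν := by
  classical
  have hinf : ℵ₀ ≤ #W := hK.unc.le.trans hW.le
  obtain ⟨N, hN⟩ : ∃ N : Type, N = {ν : K → K → Bool → Set (Raw W K) //
      ∀ α δ b, #(ν α δ b) ≤ #K ∧ ∀ g ∈ ν α δ b, WF g} := ⟨_, rfl⟩
  obtain ⟨val, hval⟩ : ∃ val : N → K → K → Bool → Set (Raw W K),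
      ∀ ν : K → K → Bool → Set (Raw W K), (∀ α δ b, #(ν α δ b) ≤ #K) →
      (∀ α δ b, ∀ g ∈ ν α δ b, WF g) → ∃ n, val n = ν := by
    subst hN
    exact ⟨Subtype.val, fun ν h1 h2 => ⟨⟨ν, fun α δ b => ⟨h1 α δ b, h2 α δ b⟩⟩, rfl⟩⟩
  have hcard : #N ≤ #W := by
    rw [hN]; exact card_names_le hK hW
  have hne : Nonempty N := by
    obtain ⟨n, -⟩ := hval (fun _ _ _ => ∅) (fun _ _ _ => by simp) (fun _ _ _ g hg => absurd hg (by simp))
    exact ⟨n⟩
  have hWne : Nonempty W := by
    rw [← mk_ne_zero_iff]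
    exact (aleph0_pos.trans_le hinf).ne'
  have h1 : #(N × W) ≤ #W := by
    rw [mk_prod, lift_id, lift_id]
    exact (mul_le_mul' hcard le_rfl).trans_eq (mul_eq_self hinf)
  obtain ⟨i⟩ := h1
  have hsurj : Function.Surjective (Function.invFun i) := Function.invFun_surjective i.injective
  refine ⟨fun j => val (Function.invFun i j).1, fun ν h1 h2 w => ?_⟩
  obtain ⟨n, hn⟩ := hval ν h1 h2
  by_contra hcon
  push Not at hcon
  have h3 : #W ≤ #(Iic w) := by
    refine mk_le_of_surjective (f := fun j : Iic w => (Function.invFun i j.1).2) ?_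
    intro v
    obtain ⟨j, hj⟩ := hsurj (n, v)
    have hjw : j ≤ w := by
      by_contra h
      exact hcon j (not_le.mp h) (by rw [hj]; exact hn)
    exact ⟨⟨j, hjw⟩, by simp only [hj]⟩
  have h4 : #(Iic w) < #W := by
    have h5 : Iic w = insert w (Iio w) := by
      ext x
      simp [le_iff_lt_or_eq, or_comm]
    rw [h5]
    exact (mk_insert_le).trans_lt (add_lt_of_lt hinf (hW.iio w) (one_lt_aleph0.trans_le hinf))
  exact absurd h3 (not_le.mpr h4)

end Pool.Agent.LibDm83
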