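import Pool.Agent.LibDm83.FoB
import Pool.Agent.LibDm83.Enl

/-! Task Compat: compatibility of two conditions which agree on the common coordinates. -/

namespace Pool.Agent.LibDm83

open Cardinal Set Pool.Agent.LibTk83

variable {W K : Type} [LinearOrder K] [LinearOrder W] [WellFoundedLT W]
  {dat : W → K → K → Bool → Set (Raw W K)}

/- Let `X` contain the common coordinates of `p` and `q`, and let the restrictions of `p` and `q` to
`X` be equal (so the heights and the parts `s` are equal). Take the union `r`: height `p.h`,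
`s = p.s`, `dom = p.dom ∪ q.dom`, `r.a i = p.a i ∪ q.a i`, `r.c i = p.c i ∪ q.c i`. For
`i ∈ p.dom` one has `r.c i = p.c i` (if `i` is also in `q.dom` then `i ∈ X`), etc. Validity: `OkAt`
at `j ∈ p.dom` from that of `p` and `Fo_mono`. -/
theorem compat (hK : Inac K) {X : Set W} {p q : Raw W K} (hp : Val dat p) (hq : Val dat q)
    (hX : p.dom ∩ q.dom ⊆ X) (h : res X p = res X q) : ∃ r, Val dat r ∧ r ≤ p ∧ r ≤ q := by
  have hh : p.h = q.h := by
    have h1 : (res X p).h = (res X q).h := by rw [h]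
    exact h1
  have hs : p.s = q.s := by
    have h1 : (res X p).s = (res X q).s := by rw [h]
    exact h1
  have ha : ∀ i ∈ X, ∀ x, x ∈ p.a i ↔ x ∈ q.a i := by
    intro i hi x
    have h1 : x ∈ (res X p).a i ↔ x ∈ (res X q).a i := by rw [h]
    have h2 : x ∈ (res X p).a i ↔ x ∈ p.a i ∧ i ∈ X := Iff.rfl
    have h3 : x ∈ (res X q).a i ↔ x ∈ q.a i ∧ i ∈ X := Iff.rfl
    rw [h2, h3] at h1
    simpa [hi] using h1
  have hc : ∀ i ∈ X, ∀ x, x ∈ p.c i ↔ x ∈ q.c i := by
    intro i hi x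
    have h1 : x ∈ (res X p).c i ↔ x ∈ (res X q).c i := by rw [h]
    have h2 : x ∈ (res X p).c i ↔ x ∈ p.c i ∧ i ∈ X := Iff.rfl
    have h3 : x ∈ (res X q).c i ↔ x ∈ q.c i ∧ i ∈ X := Iff.rfl
    rw [h2, h3] at h1
    simpa [hi] using h1
  let r : Raw W K := ⟨p.h, p.s, p.dom ∪ q.dom, fun i => p.a i ∪ q.a i, fun i => p.c i ∪ q.c i⟩
  have hap : ∀ i ∈ p.dom, ∀ x, x ∈ r.a i ↔ x ∈ p.a i := by
    intro i hi x
    refine ⟨?_, Or.inl⟩
    rintro (hx | hx)
    · exact hx
    · exact (ha i (hX ⟨hi, hq.1.a_dom i x hx⟩) x).2 hx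
  have haq : ∀ i ∈ q.dom, ∀ x, x ∈ r.a i ↔ x ∈ q.a i := by
    intro i hi x
    refine ⟨?_, Or.inr⟩
    rintro (hx | hx)
    · exact (ha i (hX ⟨hp.1.a_dom i x hx, hi⟩) x).1 hx
    · exact hx
  have hcp : ∀ i ∈ p.dom, ∀ x, x ∈ r.c i ↔ x ∈ p.c i := by
    intro i hi x
    refine ⟨?_, Or.inl⟩
    rintro (hx | hx)
    · exact hx
    · exact (hc i (hX ⟨hi, hq.1.c_dom i x hx⟩) x).2 hx
  have hcq : ∀ i ∈ q.dom, ∀ x, x ∈ r.c i ↔ x ∈ q.c i := by
    intro i hi x
    refine ⟨?_, Or.inr⟩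
    rintro (hx | hx)
    · exact (hc i (hX ⟨hp.1.c_dom i x hx, hi⟩) x).1 hx
    · exact hx
  have hrp : r ≤ p := by
    refine Raw.le_def.2 ⟨le_refl _, Set.subset_union_left, fun _ _ => Iff.rfl, ?_, ?_⟩
    · intro i hi x _
      exact hap i hi x
    · intro i hi x _
      exact hcp i hi x
  have hrq : r ≤ q := by
    refine Raw.le_def.2 ⟨hh.ge, Set.subset_union_right, ?_, ?_, ?_⟩
    · intro x _
      change x ∈ p.s ↔ x ∈ q.s
      rw [hs]
    · intro i hi x _
      exact haq i hi x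
    · intro i hi x _
      exact hcq i hi x
  refine ⟨r, ⟨?_, ?_⟩, hrp, hrq⟩
  · refine ⟨card_union_lt hK hp.1.small hq.1.small, hp.1.s_lt, hp.1.s_cof, ?_, ?_, ?_, ?_, ?_, ?_⟩
    · rintro i x (hx | hx)
      · exact hp.1.a_lt i x hx
      · exact (hq.1.a_lt i x hx).trans_eq hh.symm
    · rintro i x (hx | hx)
      · exact hp.1.c_le i x hx
      · exact (hq.1.c_le i x hx).trans_eq hh.symm
    · rintro i x (hx | hx)
      · exact Or.inl (hp.1.a_dom i x hx)
      · exact Or.inr (hq.1.a_dom i x hx)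
    · rintro i x (hx | hx)
      · exact Or.inl (hp.1.c_dom i x hx)
      · exact Or.inr (hq.1.c_dom i x hx)
    · rintro i (hi | hi)
      · exact Or.inl (hp.1.top_c i hi)
      · exact Or.inr (by
          have := hq.1.top_c i hi
          rwa [← hh] at this)
    · rintro i (hi | hi)
      · have h1 : r.c i = p.c i := Set.ext fun x => hcp i hi x
        rw [h1]
        exact hp.1.clo i hi
      · have h1 : r.c i = q.c i := Set.ext fun x => hcq i hi x
        rw [h1]
        have := hq.1.clo i hi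
        rwa [← hh] at this
  · rintro j (hj | hj)
    · intro α hα hαs
      obtain ⟨δ, hδ, b, hb, hF⟩ := hp.2 j hj α ((hcp j hj α).1 hα) hαs
      exact ⟨δ, hδ, b, hb.trans (not_congr (hap j hj δ)).symm, Fo_mono (res_mono _ hrp) hF⟩
    · intro α hα hαs
      have hαs' : α ∈ q.s := by rw [← hs]; exact hαs
      obtain ⟨δ, hδ, b, hb, hF⟩ := hq.2 j hj α ((hcq j hj α).1 hα) hαs'
      exact ⟨δ, hδ, b, hb.trans (not_congr (haq j hj δ)).symm, Fo_mono (res_mono _ hrq) hF⟩

end Pool.Agent.LibDm83
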