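import Pool.Agent.LibTk83.Sent
import Pool.Agent.LibTk83.RO

/-!
The truth values, in the Boolean-valued universe `V^B`, of the sentences on ineffable cardinals and
on the principle diamond.

All quantifiers range over the whole universe `V^B`; the only primitive predicates are membership
and equality.
-/

namespace Pool.Agent.LibDm83

open Cardinal Pool.Agent.LibPlas90 Pool.Agent.LibPlas90.BSet Pool.Agent.LibTk83

section Sentences

variable {B : Type} [CompleteBooleanAlgebra B]

/-- `x` is a transitive set. -/
noncomputable def isTrans (x : BSet B) : B := all x fun y => sub y x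

/-- `x` is an ordinal: a transitive set of transitive sets. -/
noncomputable def isOrd (x : BSet B) : B := isTrans x ⊓ all x isTrans

/-- `k` is a regular uncountable cardinal: an ordinal with `ω ∈ k` such that each function from an
element of `k` to `k` is bounded by an element of `k`. -/
noncomputable def isReg (k : BSet B) : B :=
  isOrd k ⊓ (ex k isOmega) ⊓
  (all k fun a => ⨅ f : BSet B, isMap f a k ⇨
    ex k fun b => all a fun x => all k fun y => rel f x y ⇨ mem y b)

/-- `C` is a closed unbounded subset of `k`. -/
noncomputable def isClub (k C : BSet B) : B :=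
  sub C k ⊓ (all k fun a => ex C fun b => mem a b) ⊓
  (all k fun g => (ex g fun _ => ⊤) ⊓ (all g fun a => ex g fun b => mem a b ⊓ mem b C) ⇨ mem g C)

/-- The set of the `x ∈ k` with the property `φ` is stationary in `k`. -/
noncomputable def stat (k : BSet B) (φ : BSet B → B) : B :=
  ⨅ C : BSet B, isClub k C ⇨ ex k fun x => mem x C ⊓ φ x

/-- `F` is a sequence `(F_a : a ∈ D)` with `F_a ⊆ a`: for each `a ∈ D` there is exactly one `A` such
that the pair of `a` and `A` is in `F`, and `A ⊆ a`. -/
noncomputable def isFam (F D : BSet B) : B :=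
  all D fun a => ⨆ A : BSet B, rel F a A ⊓ sub A a ⊓ ⨅ A' : BSet B, rel F a A' ⇨ eq A' A

/-- `F_a = X ∩ a`. -/
noncomputable def guess (F X a : BSet B) : B :=
  ⨆ A : BSet B, rel F a A ⊓ ⨅ t : BSet B, equiv (mem t A) (mem t X ⊓ mem t a)

/-- `k` is ineffable: `k` is regular uncountable and for each sequence `(F_a : a ∈ k)` with
`F_a ⊆ a` there is `X ⊆ k` such that the set of the `a ∈ k` with `F_a = X ∩ a` is stationary. -/
noncomputable def isIneffable (k : BSet B) : B :=
  isReg k ⊓ ⨅ F : BSet B, isFam F k ⇨ ⨆ X : BSet B, sub X k ⊓ stat k (guess F X)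

/-- Diamond on `S`: there is a sequence `(F_a : a ∈ S)` with `F_a ⊆ a` such that for each `X ⊆ k`
the set of the `a ∈ S` with `F_a = X ∩ a` is stationary in `k`. -/
noncomputable def diamond (k S : BSet B) : B :=
  ⨆ F : BSet B, isFam F S ⊓
    ⨅ X : BSet B, sub X k ⇨ stat k fun a => mem a S ⊓ guess F X a

/-- `a` has cofinality `ω`: there is a function `f` from `ω` to `a` such that for each `b ∈ a` there
is `n ∈ ω` with `b ∈ f(n)`. -/
noncomputable def isCofOmega (a : BSet B) : B :=
  ⨆ w : BSet B, isOmega w ⊓ ⨆ f : BSet B, isMap f w a ⊓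
    all a fun b => ex w fun n => ex a fun c => rel f n c ⊓ mem b c

/-- There is a stationary set `S` of elements of `k` of cofinality `ω` such that diamond on `S`
fails. -/
noncomputable def diamondFails (k : BSet B) : B :=
  ⨆ S : BSet B, sub S k ⊓ (all S isCofOmega) ⊓ stat k (fun a => mem a S) ⊓ (diamond k S)ᶜ

variable (B) in
/-- The truth value in `V^B` of the sentence: there are an ineffable cardinal `k` and a stationary
set `S` of points of cofinality `ω` of `k` such that diamond on `S` fails. -/
noncomputable def ineffableSentence : B := ⨆ k : BSet B, isIneffable k ⊓ diamondFails k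

end Sentences

/-- `P` is `<κ`-directed closed: each directed set of fewer than `κ` conditions has a lower
bound. -/
def DirClosed (κ : Cardinal.{0}) (P : Type) [Preorder P] : Prop :=
  ∀ D : Set P, #D < κ → DirectedOn (· ≥ ·) D → ∃ q, ∀ p ∈ D, q ≤ p

/-- `P` satisfies the `κ⁺`-chain condition: each set of pairwise incompatible conditions has at most
`κ` elements. -/
def ChainCond (κ : Cardinal.{0}) (P : Type) [Preorder P] : Prop :=
  ∀ A : Set P, (∀ p ∈ A, ∀ q ∈ A, p ≠ q → ¬ ∃ r, r ≤ p ∧ r ≤ q) → #A ≤ κ

end Pool.Agent.LibDm83
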