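import Pool.Agent.LibDm83.Codes
import Pool.Agent.LibDm83.Compat
import Pool.Agent.LibDm83.Sent

/-! Task CC: the chain condition. -/

namespace Pool.Agent.LibDm83

open Cardinal Set Pool.Agent.LibTk83

variable {W K : Type} [LinearOrder K] [LinearOrder W] [WellFoundedLT W] [WellFoundedLT K]
  {dat : W → K → K → Bool → Set (Raw W K)}

/-- The union of the domains of the members of `Y`. -/
private def CC_D (Y : Set (Qf dat)) : Set W := ⋃ z : Y, z.1.1.dom

private theorem CC_D_small (hK : Inac K) (Y : Set (Qf dat)) (hY : #Y < #K) :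
    #(CC_D Y) < #K :=
  small_iUnion hK hY fun z => z.1.2.1.small

/-- The indices: a set of coordinates and a raw condition. -/
private abbrev CC_I (Y : Set (Qf dat)) : Type :=
  {X : Set W // X ⊆ CC_D Y} × {t : Raw W K // WF t ∧ t.dom ⊆ CC_D Y}

private theorem CC_card_I (hK : Inac K) (Y : Set (Qf dat)) (hY : #Y < #K) :
    #(CC_I Y) ≤ #K := by
  have hD := CC_D_small hK Y hY
  have h1 : #{X : Set W // X ⊆ CC_D Y} ≤ #K := by
    have e : #{X : Set W // X ⊆ CC_D Y} = #(Set (CC_D Y)) :=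
      Cardinal.mk_congr (Equiv.Set.powerset (CC_D Y))
    rw [e]
    exact (hK.pow _ hD).le
  have h2 : #{t : Raw W K // WF t ∧ t.dom ⊆ CC_D Y} ≤ #K := card_raw_le hK hD
  rw [Cardinal.mk_prod, Cardinal.lift_id, Cardinal.lift_id]
  exact (mul_le_mul' h1 h2).trans (Cardinal.mul_eq_self hK.unc.le).le

/-- The chosen members of `A`. -/
private noncomputable def CC_g (A : Set (Qf dat)) (Y : Set (Qf dat)) : Set (Qf dat) :=
  Set.range fun i : {i : CC_I Y // ∃ q ∈ A, res i.1.1 q.1 = i.2.1} => Classical.choose i.2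

private theorem CC_card_g (hK : Inac K) (A Y : Set (Qf dat)) (hY : #Y < #K) :
    #(CC_g A Y) ≤ #K :=
  (Cardinal.mk_range_le.trans (Cardinal.mk_subtype_le _)).trans (CC_card_I hK Y hY)

/- Let `A` be a set of pairwise incompatible conditions with more than `#K` elements. For a small
subset `Y` of `A` let `D Y` be the union of the domains of the members of `Y` (a small set), and let
`g Y` contain, for each raw condition `t` with `t.dom ⊆ D Y`, one `p ∈ A` with `res (D Y) p = t` (if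
there is one); so `#(g Y) ≤ #K` by `card_raw_le`... more precisely for each subset `X` of `D Y` and
each `t` with coordinates in `X` one `p ∈ A` with `res X p = t`: there are fewer than `#K` subsets
`X` of `D Y`. Take `Z` from `closing_off` (for subsets of `A`). As `#Z ≤ #K` there is `p ∈ A`,
`p ∉ Z`. Let `E` be the union of the domains of the members of `Z` and `X = p.dom ∩ E`, a small
set. There is a small `Y ⊆ Z` such that `X ⊆ D Y`. So there is `q ∈ Z` with `res X q = res X p`,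
and the common coordinates of `p`, `q` are in `X`. So `p ≠ q` are compatible by `compat`. -/
theorem chainCond (hK : Inac K) : ChainCond #K (Qf dat) := by
  intro A hA
  by_contra hcard
  rw [not_le] at hcard
  obtain ⟨Z, hZ, hcl⟩ := closing_off hK (CC_g A) fun Y hY => CC_card_g hK A Y hY
  obtain ⟨p, hpA, hpZ⟩ : ∃ p ∈ A, p ∉ Z := by
    by_contra hcon
    push Not at hcon
    exact absurd (hcard.trans_le (Cardinal.mk_le_mk_of_subset hcon)) (not_lt.mpr hZ)
  let X : Set W := {x | x ∈ p.1.dom ∧ ∃ z ∈ Z, x ∈ z.1.dom}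
  have hXp : X ⊆ p.1.dom := fun x hx => hx.1
  have hXs : #X < #K := (Cardinal.mk_le_mk_of_subset hXp).trans_lt p.2.1.small
  let zz : X → Qf dat := fun x => Classical.choose x.2.2
  have hzz : ∀ x : X, zz x ∈ Z ∧ x.1 ∈ (zz x).1.dom := fun x => Classical.choose_spec x.2.2
  let Y : Set (Qf dat) := Set.range zz
  have hYZ : Y ⊆ Z := by
    rintro _ ⟨x, rfl⟩
    exact (hzz x).1
  have hYs : #Y < #K := Cardinal.mk_range_le.trans_lt hXs
  have hXD : X ⊆ CC_D Y := fun x hx =>
    Set.mem_iUnion.mpr ⟨⟨zz ⟨x, hx⟩, ⟨⟨x, hx⟩, rfl⟩⟩, (hzz ⟨x, hx⟩).2⟩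
  have ht : WF (res X p.1) ∧ (res X p.1).dom ⊆ CC_D Y :=
    ⟨WF_res X p.2.1, fun x hx => hXD hx.2⟩
  let i : {i : CC_I Y // ∃ q ∈ A, res i.1.1 q.1 = i.2.1} :=
    ⟨(⟨X, hXD⟩, ⟨res X p.1, ht⟩), p, hpA, rfl⟩
  obtain ⟨hqA, hq⟩ := Classical.choose_spec i.2
  set q : Qf dat := Classical.choose i.2 with hqdef
  have hqZ : q ∈ Z := hcl Y hYZ hYs ⟨i, rfl⟩
  have hne : p ≠ q := fun h => hpZ (h ▸ hqZ)
  obtain ⟨r, hr, hrp, hrq⟩ := compat hK (X := X) p.2 q.2
    (fun x hx => ⟨hx.1, q, hqZ, hx.2⟩) hq.symm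
  exact hA p hpA q hqA hne ⟨⟨r, hr⟩, hrp, hrq⟩

end Pool.Agent.LibDm83
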