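import Pool.Agent.LibDm83.Lim
import Pool.Agent.LibDm83.Sent

/-! Task Closed: the forcing notion is directed closed. -/

namespace Pool.Agent.LibDm83

open Cardinal Set Pool.Agent.LibTk83

variable {W K : Type} [LinearOrder K] [LinearOrder W] [WellFoundedLT W]
  {dat : W → K → K → Bool → Set (Raw W K)}

/-- The condition without coordinates and with the height `H`, `s = ∅`. -/
theorem exists_val (hK : Inac K) (H : K) : ∃ p : Raw W K, Val dat p ∧ p.h = H ∧ p.dom = ∅ := by
  refine ⟨⟨H, ∅, ∅, fun _ => ∅, fun _ => ∅⟩, ⟨?_, fun j hj => absurd hj (notMem_empty _)⟩, rfl,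
    rfl⟩
  refine ⟨?_, fun x hx => absurd hx (notMem_empty _), fun x hx => absurd hx (notMem_empty _),
    fun _ x hx => absurd hx (notMem_empty _), fun _ x hx => absurd hx (notMem_empty _),
    fun _ x hx => absurd hx (notMem_empty _), fun _ x hx => absurd hx (notMem_empty _),
    fun i hi => absurd hi (notMem_empty _), fun i hi => absurd hi (notMem_empty _)⟩
  rw [mk_emptyCollection]
  exact aleph0_pos.trans hK.unc

/- `exists_lub`, `lim_le`, `Val_lim`; if the directed set is empty use `exists_val` (`K` is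
nonempty, as it is uncountable). -/
theorem dirClosed [WellFoundedLT K] (hK : Inac K) : DirClosed #K (Qf dat) := by
  intro D hD hdir
  rcases D.eq_empty_or_nonempty with hE | hne
  · have hKn : Nonempty K := by
      rw [← mk_ne_zero_iff]
      exact (aleph0_pos.trans hK.unc).ne'
    obtain ⟨H⟩ := hKn
    obtain ⟨p, hp, _, _⟩ := exists_val (W := W) (dat := dat) hK H
    exact ⟨⟨p, hp⟩, fun x hx => by rw [hE] at hx; exact absurd hx (notMem_empty _)⟩
  · have : Nonempty D := hne.to_subtype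
    obtain ⟨p, hp⟩ : ∃ p : D → Raw W K, ∀ x, p x = x.1.1 := ⟨_, fun _ => rfl⟩
    have hv : ∀ k, Val dat (p k) := fun k => by rw [hp]; exact k.1.2
    have hd : Dir p := by
      intro k l
      obtain ⟨j, hj, h1, h2⟩ := hdir k.1 k.2 l.1 l.2
      exact ⟨⟨j, hj⟩, by rw [hp, hp]; exact h1, by rw [hp, hp]; exact h2⟩
    obtain ⟨H, hH⟩ := exists_lub hK hD (fun k => (p k).h)
    refine ⟨⟨lim H p, Val_lim hK hD hv hd hH⟩, fun x hx => ?_⟩
    have h1 := lim_le (fun k => (hv k).1) hd hH ⟨x, hx⟩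
    rw [hp] at h1
    exact h1

theorem chain_closed [WellFoundedLT K] (hK : Inac K) (C : Set (Qf dat))
    (hC : IsChain (· ≤ ·) C) (h : #C < #K) : ∃ y, ∀ x ∈ C, y ≤ x := by
  refine dirClosed hK C h fun x hx y hy => ?_
  by_cases hxy : x = y
  · subst hxy
    exact ⟨x, hx, le_rfl, le_rfl⟩
  · rcases hC hx hy hxy with h1 | h1
    · exact ⟨x, hx, le_rfl, h1⟩
    · exact ⟨y, hy, h1, le_rfl⟩

end Pool.Agent.LibDm83
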