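import Pool.Agent.LibDm83.Names

/-! Task Club: the generic sets `C i` are closed unbounded. -/

namespace Pool.Agent.LibDm83

open Cardinal Set Pool.Agent.LibTk83

variable {W K : Type} [LinearOrder K] [LinearOrder W] [WellFoundedLT W]
  {dat : W → K → K → Bool → Set (Raw W K)}

theorem sN_cof (hK : Inac K) {α : K} (h : sN hK dat α ≠ ⊥) : CofW α := by
  obtain ⟨p, hp⟩ := RO.ne_bot_iff.1 h
  exact p.2.1.s_cof α (mem_sN.1 hp)

/- `RO.mem_iInf`, `RO.mem_iSup`: each condition has an extension with `i` among the coordinates and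
of height larger than `β` (`exists_ext`), and the height is in `c i`. -/
theorem unb_cN (hK : Inac K) (i : W) : unbB (cN hK dat i) = ⊤ := by
  unfold unbB
  rw [iInf_eq_top]
  intro β
  rw [RO.eq_top_iff']
  intro p
  obtain ⟨q, hq, hv, hβ, hi, -⟩ := exists_ext hK i β p.2
  refine ⟨⟨q, hv⟩, hq, ?_⟩
  have h1 : (⟨q, hv⟩ : Qf dat) ∈ cN hK dat i q.h := mem_cN.2 (hv.1.top_c i hi)
  exact (le_iSup₂ (f := fun (α : K) (_ : β < α) => cN hK dat i α) q.h hβ) h1

/- Let `p` be in the value of the hypothesis on `γ`; extend `q ≤ p` to `q'` with `i` in the domain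
and `γ < q'.h`; then `γ` is a limit of elements of `q'.c i`, so `γ ∈ q'.c i` by `WF.clo`. -/
theorem clo_cN (hK : Inac K) (i : W) : cloB (cN hK dat i) = ⊤ := by
  unfold cloB
  rw [iInf_eq_top]
  intro γ
  rw [iInf_eq_top]
  intro hγ
  rw [himp_eq_top_iff]
  intro p hp
  refine RO.mem_of_dense fun q hq => ?_
  obtain ⟨q', hq', hv, hlt, hi, -⟩ := exists_ext hK i γ q.2
  refine ⟨⟨q', hv⟩, hq', mem_cN.2 ?_⟩
  refine hv.1.clo i hi γ hlt.le hγ fun β hβ => ?_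
  have h1 := RO.mem_iInf.1 (RO.mem_iInf.1 hp β) hβ
  have hle : (⟨q', hv⟩ : Qf dat) ≤ p := le_trans (show (⟨q', hv⟩ : Qf dat) ≤ q from hq') hq
  obtain ⟨r, hr, α, hrα⟩ := RO.mem_iSup.1 h1 _ hle
  obtain ⟨r', hr', hα, hrα'⟩ := RO.mem_iSup.1 hrα r le_rfl
  have h2 : α ∈ r'.1.c i := mem_cN.1 hrα'
  have h3 : r'.1 ≤ q' := Qf.le_iff.1 (hr'.trans hr)
  exact ⟨α, (h3.c i hi α (hα.2.le.trans hlt.le)).1 h2, hα.1, hα.2⟩

end Pool.Agent.LibDm83
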