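import Pool.Agent.LibDm83.Defs

/-! Task Res: restriction. -/

namespace Pool.Agent.LibDm83

open Cardinal Set Pool.Agent.LibTk83

variable {W K : Type} [LinearOrder K]

theorem Raw.ext' {p q : Raw W K} (h1 : p.h = q.h) (h2 : p.s = q.s) (h3 : p.dom = q.dom)
    (h4 : ∀ i, p.a i = q.a i) (h5 : ∀ i, p.c i = q.c i) : p = q := by
  obtain ⟨h, s, dom, a, c⟩ := p
  obtain ⟨h', s', dom', a', c'⟩ := q
  have h6 : a = a' := funext h4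
  have h7 : c = c' := funext h5
  simp only at h1 h2 h3
  subst h1 h2 h3 h6 h7
  rfl

theorem le_res (X : Set W) (p : Raw W K) : p ≤ res X p :=
  ⟨le_rfl, inter_subset_left, fun _ _ => Iff.rfl,
    fun _ hi _ _ => ⟨fun hx => ⟨hx, hi.2⟩, fun hx => hx.1⟩,
    fun _ hi _ _ => ⟨fun hx => ⟨hx, hi.2⟩, fun hx => hx.1⟩⟩

theorem res_mono (X : Set W) {p q : Raw W K} (h : p ≤ q) : res X p ≤ res X q :=
  ⟨h.h, inter_subset_inter_left X h.dom, h.s,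
    fun i hi x hx => ⟨fun hx' => ⟨(h.a i hi.1 x hx).1 hx'.1, hi.2⟩,
      fun hx' => ⟨(h.a i hi.1 x hx).2 hx'.1, hi.2⟩⟩,
    fun i hi x hx => ⟨fun hx' => ⟨(h.c i hi.1 x hx).1 hx'.1, hi.2⟩,
      fun hx' => ⟨(h.c i hi.1 x hx).2 hx'.1, hi.2⟩⟩⟩

theorem res_anti {X Y : Set W} (h : X ⊆ Y) (p : Raw W K) : res Y p ≤ res X p :=
  ⟨le_rfl, inter_subset_inter_right _ h, fun _ _ => Iff.rfl,
    fun _ hi _ _ => ⟨fun hx => ⟨hx.1, hi.2⟩, fun hx => ⟨hx.1, h hx.2⟩⟩,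
    fun _ hi _ _ => ⟨fun hx => ⟨hx.1, hi.2⟩, fun hx => ⟨hx.1, h hx.2⟩⟩⟩

theorem res_res (X Y : Set W) (p : Raw W K) : res X (res Y p) = res (X ∩ Y) p := by
  refine Raw.ext' rfl rfl ?_ ?_ ?_
  · ext i
    exact ⟨fun h => ⟨h.1.1, h.2, h.1.2⟩, fun h => ⟨⟨h.1, h.2.2⟩, h.2.1⟩⟩
  · intro i
    ext x
    exact ⟨fun h => ⟨h.1.1, h.2, h.1.2⟩, fun h => ⟨⟨h.1, h.2.2⟩, h.2.1⟩⟩
  · intro i
    ext x
    exact ⟨fun h => ⟨h.1.1, h.2, h.1.2⟩, fun h => ⟨⟨h.1, h.2.2⟩, h.2.1⟩⟩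

theorem res_res_of_subset {X Y : Set W} (h : X ⊆ Y) (p : Raw W K) : res X (res Y p) = res X p := by
  rw [res_res, inter_eq_left.2 h]

theorem WF_res (X : Set W) {p : Raw W K} (h : WF p) : WF (res X p) where
  small := lt_of_le_of_lt (Cardinal.mk_le_mk_of_subset inter_subset_left) h.small
  s_lt := h.s_lt
  s_cof := h.s_cof
  a_lt := fun i x hx => h.a_lt i x hx.1
  c_le := fun i x hx => h.c_le i x hx.1
  a_dom := fun i x hx => ⟨h.a_dom i x hx.1, hx.2⟩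
  c_dom := fun i x hx => ⟨h.c_dom i x hx.1, hx.2⟩
  top_c := fun i hi => ⟨h.top_c i hi.1, hi.2⟩
  clo := fun i hi g hg h0 h1 => ⟨h.clo i hi.1 g hg h0 (fun b hb => by
    obtain ⟨a, ha, h2⟩ := h1 b hb
    exact ⟨a, ha.1, h2⟩), hi.2⟩

theorem res_eq_self {X : Set W} {p : Raw W K} (h : WF p) (hX : p.dom ⊆ X) : res X p = p := by
  refine Raw.ext' rfl rfl (inter_eq_left.2 hX) ?_ ?_
  · intro i
    ext x
    exact ⟨fun hx => hx.1, fun hx => ⟨hx, hX (h.a_dom i x hx)⟩⟩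
  · intro i
    ext x
    exact ⟨fun hx => hx.1, fun hx => ⟨hx, hX (h.c_dom i x hx)⟩⟩

/-- Order between restrictions, from the order between more restrictions. -/
theorem le_res_of_forall {ι : Type} {X : Set W} {Y : ι → Set W} {p q : Raw W K} [Nonempty ι]
    (h : q.dom ∩ X ⊆ ⋃ k, Y k) (hp : ∀ k, p ≤ res (Y k) q) : p ≤ res X q := by
  obtain ⟨k₀⟩ := ‹Nonempty ι›
  refine ⟨(hp k₀).h, ?_, (hp k₀).s, ?_, ?_⟩
  · intro i hi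
    obtain ⟨k, hk⟩ := mem_iUnion.1 (h hi)
    exact (hp k).dom ⟨hi.1, hk⟩
  · intro i hi x hx
    obtain ⟨k, hk⟩ := mem_iUnion.1 (h hi)
    have h1 := (hp k).a i ⟨hi.1, hk⟩ x hx
    exact ⟨fun hx' => ⟨(h1.1 hx').1, hi.2⟩, fun hx' => h1.2 ⟨hx'.1, hk⟩⟩
  · intro i hi x hx
    obtain ⟨k, hk⟩ := mem_iUnion.1 (h hi)
    have h1 := (hp k).c i ⟨hi.1, hk⟩ x hx
    exact ⟨fun hx' => ⟨(h1.1 hx').1, hi.2⟩, fun hx' => h1.2 ⟨hx'.1, hk⟩⟩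

end Pool.Agent.LibDm83
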