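import Pool.Agent.LibDm83.Small
import Pool.Agent.LibDm83.Res

/-! Task Codes: few well-formed conditions with coordinates in a small set. -/

namespace Pool.Agent.LibDm83

open Cardinal Set

variable {W K : Type} [LinearOrder K]

/-- the code of a condition with height `y` -/
private def Codes_code (D : Set W) (y : K) (p : Raw W K) :
    Set (Iic y ⊕ (D ⊕ ((D × Iic y) ⊕ (D × Iic y)))) :=
  fun t => Sum.elim (fun a : Iic y => a.1 ∈ p.s) (Sum.elim (fun d : D => d.1 ∈ p.dom)
    (Sum.elim (fun e : D × Iic y => e.2.1 ∈ p.a e.1.1)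
      (fun e : D × Iic y => e.2.1 ∈ p.c e.1.1))) t

private theorem Codes_le {D : Set W} {y : K} {p q : Raw W K} (hp : WF p) (hpD : p.dom ⊆ D)
    (hpy : p.h = y) (h : Codes_code D y p = Codes_code D y q) :
    p.s ⊆ q.s ∧ p.dom ⊆ q.dom ∧ (∀ i, p.a i ⊆ q.a i) ∧ ∀ i, p.c i ⊆ q.c i := by
  have hs : ∀ t, Codes_code D y p t → Codes_code D y q t := fun t ht => h ▸ ht
  refine ⟨fun a ha => ?_, fun a ha => ?_, fun i a ha => ?_, fun i a ha => ?_⟩
  · exact hs (Sum.inl ⟨a, (hp.s_lt a ha).le.trans_eq hpy⟩) ha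
  · exact hs (Sum.inr (Sum.inl ⟨a, hpD ha⟩)) ha
  · exact hs (Sum.inr (Sum.inr (Sum.inl (⟨i, hpD (hp.a_dom i a ha)⟩,
      ⟨a, (hp.a_lt i a ha).le.trans_eq hpy⟩)))) ha
  · exact hs (Sum.inr (Sum.inr (Sum.inr (⟨i, hpD (hp.c_dom i a ha)⟩,
      ⟨a, (hp.c_le i a ha).trans_eq hpy⟩)))) ha

/-- There are at most `#K` well-formed raw conditions whose coordinates are in a small set `D`.

A well-formed raw condition `p` with `p.dom ⊆ D` is determined by its height and by subsets of
`Iic p.h`, `D`, `D × Iic p.h`; each of these small sets has fewer than `#K` subsets (`Inac.pow`);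
there are `#K` heights. -/
theorem card_raw_le (hK : Inac K) {D : Set W} (hD : #D < #K) :
    #{p : Raw W K // WF p ∧ p.dom ⊆ D} ≤ #K := by
  have hinf : ℵ₀ ≤ #K := hK.unc.le
  let f : {p : Raw W K // WF p ∧ p.dom ⊆ D} → K := fun p => p.1.h
  rw [← Cardinal.mk_congr (Equiv.sigmaFiberEquiv f), Cardinal.mk_sigma]
  refine (Cardinal.sum_le_sum _ (fun _ => #K) fun y => ?_).trans ?_
  · have hy : #(Iic y) < #K := by
      have h1 : (Iic y : Set K) = insert y (Iio y) := by
        ext x; simp [le_iff_eq_or_lt]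
      rw [h1]
      exact (Cardinal.mk_insert_le).trans_lt
        (Cardinal.add_lt_of_lt hinf (hK.iio y) (Cardinal.one_lt_aleph0.trans hK.unc))
    have hT : #(Iic y ⊕ (D ⊕ ((D × Iic y) ⊕ (D × Iic y)))) < #K := by
      have h2 : #(D × Iic y) < #K := by
        rw [Cardinal.mk_prod, Cardinal.lift_id, Cardinal.lift_id]
        exact Cardinal.mul_lt_of_lt hinf hD hy
      simp only [Cardinal.mk_sum, Cardinal.lift_id]
      exact Cardinal.add_lt_of_lt hinf hy (Cardinal.add_lt_of_lt hinf hD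
        (Cardinal.add_lt_of_lt hinf h2 h2))
    refine le_trans ?_ (hK.pow _ hT).le
    refine Cardinal.mk_le_of_injective (f := fun x => Codes_code D y x.1.1) ?_
    intro x x' h
    have h' : Codes_code D y x.1.1 = Codes_code D y x'.1.1 := h
    obtain ⟨a1, a2, a3, a4⟩ := Codes_le x.1.2.1 x.1.2.2 x.2 h'
    obtain ⟨b1, b2, b3, b4⟩ := Codes_le x'.1.2.1 x'.1.2.2 x'.2 h'.symm
    apply Subtype.ext
    apply Subtype.ext
    refine Raw.ext' (Eq.trans x.2 (Eq.symm x'.2)) (a1.antisymm b1) (a2.antisymm b2)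
      (fun i => (a3 i).antisymm (b3 i)) (fun i => (a4 i).antisymm (b4 i))
  · rw [Cardinal.sum_const', Cardinal.mul_eq_self hinf]

end Pool.Agent.LibDm83
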