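import Mathlib
import Pool.Agent.LibTk83.RO

/-!
The iteration which adds a set `S` of points of cofinality `ω` of an inaccessible cardinal and
makes diamond fail on `S`.

`K` is a well-ordered type (the inaccessible cardinal), `W` is a well-ordered type (the length of
the iteration). A raw condition has a height `h`, the part `s` of `S` below `h`, the set `dom` of
the coordinates which are active, and for each active coordinate `i` the part `a i` below `h` of a
set `A i`, and the part `c i` of a club `C i` up to `h`. Conditions: smaller is stronger.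
-/

namespace Pool.Agent.LibDm83

open Cardinal Set Pool.Agent.LibTk83

/-- The properties of the order type of an inaccessible cardinal which are used. -/
structure Inac (K : Type) [LinearOrder K] : Prop where
  unc : ℵ₀ < #K
  iio : ∀ a : K, #(Iio a) < #K
  bdd : ∀ x : Set K, #x < #K → ∃ b, ∀ a ∈ x, a < b
  pow : ∀ X : Type, #X < #K → #(Set X) < #K
  sum : ∀ (ι : Type) (f : ι → Type), #ι < #K → (∀ i, #(f i) < #K) → #(Σ i, f i) < #K

/-- `a` has cofinality `ω`. -/
def CofW {K : Type} [LinearOrder K] (a : K) : Prop :=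
  ∃ f : ℕ → K, (∀ n, f n < a) ∧ ∀ b < a, ∃ n, b < f n

/-- `c` contains its limit points up to `h`. -/
def Clo {K : Type} [LinearOrder K] (c : Set K) (h : K) : Prop :=
  ∀ g ≤ h, (∃ b, b < g) → (∀ b < g, ∃ a ∈ c, b < a ∧ a < g) → g ∈ c

/-- Raw conditions. -/
structure Raw (W K : Type) where
  h : K
  s : Set K
  dom : Set W
  a : W → Set K
  c : W → Set K

section Defs

variable {W K : Type} [LinearOrder K]

/-- `p` is stronger than `q`. -/
structure RLe (p q : Raw W K) : Prop where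
  h : q.h ≤ p.h
  dom : q.dom ⊆ p.dom
  s : ∀ x ≤ q.h, x ∈ p.s ↔ x ∈ q.s
  a : ∀ i ∈ q.dom, ∀ x < q.h, x ∈ p.a i ↔ x ∈ q.a i
  c : ∀ i ∈ q.dom, ∀ x ≤ q.h, x ∈ p.c i ↔ x ∈ q.c i

instance : Preorder (Raw W K) where
  le p q := RLe p q
  le_refl p := ⟨le_rfl, subset_rfl, fun _ _ => Iff.rfl, fun _ _ _ _ => Iff.rfl,
    fun _ _ _ _ => Iff.rfl⟩
  le_trans p q r h1 h2 := ⟨h2.h.trans h1.h, h2.dom.trans h1.dom,
    fun x hx => (h1.s x (hx.trans h2.h)).trans (h2.s x hx),
    fun i hi x hx => (h1.a i (h2.dom hi) x (hx.trans_le h2.h)).trans (h2.a i hi x hx),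
    fun i hi x hx => (h1.c i (h2.dom hi) x (hx.trans h2.h)).trans (h2.c i hi x hx)⟩

theorem Raw.le_def {p q : Raw W K} : p ≤ q ↔ RLe p q := Iff.rfl

/-- The raw conditions which are well-formed. -/
structure WF (p : Raw W K) : Prop where
  small : #p.dom < #K
  s_lt : ∀ x ∈ p.s, x < p.h
  s_cof : ∀ x ∈ p.s, CofW x
  a_lt : ∀ i, ∀ x ∈ p.a i, x < p.h
  c_le : ∀ i, ∀ x ∈ p.c i, x ≤ p.h
  a_dom : ∀ i, ∀ x ∈ p.a i, i ∈ p.dom
  c_dom : ∀ i, ∀ x ∈ p.c i, i ∈ p.dom
  top_c : ∀ i ∈ p.dom, p.h ∈ p.c i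
  clo : ∀ i ∈ p.dom, Clo (p.c i) p.h

/-- Restriction of a condition to the coordinates in `X`. -/
def res {W K : Type} (X : Set W) (p : Raw W K) : Raw W K where
  h := p.h
  s := p.s
  dom := p.dom ∩ X
  a := fun i => {x | x ∈ p.a i ∧ i ∈ X}
  c := fun i => {x | x ∈ p.c i ∧ i ∈ X}

/-- The condition `t` on `X`, the condition `q` (with the height of `t`) outside of `X`. -/
def mix {W K : Type} (X : Set W) (t q : Raw W K) : Raw W K where
  h := t.h
  s := t.s
  dom := t.dom ∪ (q.dom \ X)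
  a := fun i => {x | (i ∈ X ∧ x ∈ t.a i) ∨ (i ∉ X ∧ x ∈ q.a i)}
  c := fun i => {x | (i ∈ X ∧ x ∈ t.c i) ∨ (i ∉ X ∧ (x ∈ q.c i ∨ (x = t.h ∧ i ∈ q.dom)))}

/-- Raise the height to `H`, add the coordinates in `u`; put the old height in `A i` for `i` in
`X`. -/
def enl {W K : Type} (H : K) (u X : Set W) (p : Raw W K) : Raw W K where
  h := H
  s := p.s
  dom := p.dom ∪ u
  a := fun i => {x | x ∈ p.a i ∨ (x = p.h ∧ i ∈ X)}
  c := fun i => {x | x ∈ p.c i ∨ (x = H ∧ i ∈ p.dom ∪ u)}

/-- The limit of a directed family; `H` is the least upper bound of the heights. -/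
def lim {W K ι : Type} (H : K) (p : ι → Raw W K) : Raw W K where
  h := H
  s := {x | ∃ k, x ∈ (p k).s}
  dom := {i | ∃ k, i ∈ (p k).dom}
  a := fun i => {x | ∃ k, x ∈ (p k).a i}
  c := fun i => {x | (∃ k, x ∈ (p k).c i) ∨ (x = H ∧ ∃ k, i ∈ (p k).dom)}

variable [LinearOrder W]

/-- The requirement at the coordinate `j` of `r`, if `F` is the forcing relation for the names
attached to `j`: at each point `α` of `C j` in `S` the guess is wrong at some `δ < α`. -/
def OkAt (F : K → K → Bool → Raw W K → Prop) (j : W) (r : Raw W K) : Prop :=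
  ∀ α ∈ r.c j, α ∈ r.s → ∃ δ < α, ∃ b : Bool, (b = true ↔ δ ∉ r.a j) ∧ F α δ b (res (Iio j) r)

/-- Validity below the coordinate `i`, by recursion. -/
def VB (i : W) (ih : ∀ j, j < i → K → K → Bool → Raw W K → Prop) (r : Raw W K) : Prop :=
  WF r ∧ (∀ j ∈ r.dom, j < i) ∧ ∀ j (hj : j < i), j ∈ r.dom → OkAt (ih j hj) j r

/-- The step of the recursion: `q` forces that the bit `δ` of the guess at `α` of the sequence
attached to `i` is `b`. If the data `dat i α δ` do not decide the bit then nothing is required. -/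
def stepF (dat : W → K → K → Bool → Set (Raw W K)) (i : W)
    (ih : ∀ j, j < i → K → K → Bool → Raw W K → Prop) (α δ : K) (b : Bool) (q : Raw W K) : Prop :=
  (∀ r, VB i ih r → ∃ t ≤ r, VB i ih t ∧ ∃ b', ∃ g ∈ dat i α δ b', t ≤ g) →
    ∀ r ≤ q, VB i ih r → ∃ t ≤ r, VB i ih t ∧ ∃ g ∈ dat i α δ b, t ≤ g

variable [WellFoundedLT W]

/-- The forcing relation for the names attached to the coordinates. -/
noncomputable def Fo (dat : W → K → K → Bool → Set (Raw W K)) :
    W → K → K → Bool → Raw W K → Prop :=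
  (wellFounded_lt (α := W)).fix fun i ih => stepF dat i ih

/-- The valid conditions. -/
def Val (dat : W → K → K → Bool → Set (Raw W K)) (p : Raw W K) : Prop :=
  WF p ∧ ∀ j ∈ p.dom, OkAt (Fo dat j) j p

/-- The valid conditions with coordinates below `i`. -/
def ValB (dat : W → K → K → Bool → Set (Raw W K)) (i : W) (p : Raw W K) : Prop :=
  Val dat p ∧ ∀ j ∈ p.dom, j < i

/-- The forcing notion. -/
def Qf (dat : W → K → K → Bool → Set (Raw W K)) : Type := {p : Raw W K // Val dat p}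

instance (dat : W → K → K → Bool → Set (Raw W K)) : Preorder (Qf dat) :=
  Preorder.lift Subtype.val

theorem Qf.le_iff {dat : W → K → K → Bool → Set (Raw W K)} {p q : Qf dat} :
    p ≤ q ↔ p.1 ≤ q.1 := Iff.rfl

/-- A system of conditions of height `H`, indexed by the functions on `u`: the members `P σ`,
`P τ` agree on each initial segment on which `σ`, `τ` agree; the bit `m i` of `A i` is `σ i`. -/
structure IsSys (dat : W → K → K → Bool → Set (Raw W K)) (u : Set W) (m : W → K) (H : K)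
    (P : (W → Bool) → Raw W K) : Prop where
  val : ∀ σ, Val dat (P σ)
  h_eq : ∀ σ, (P σ).h = H
  sub : ∀ σ, u ⊆ (P σ).dom
  coh : ∀ X : Set W, IsLowerSet X → ∀ σ τ, (∀ i ∈ u, i ∈ X → σ i = τ i) →
    res X (P σ) = res X (P τ)
  lt : ∀ i ∈ u, m i < H
  mark : ∀ σ, ∀ i ∈ u, m i ∈ (P σ).a i ↔ σ i = true

/-- The result of the `ω` rounds of the proof that `S` is stationary. -/
structure Tower (dat : W → K → K → Bool → Set (Raw W K)) (D : K → Set (Raw W K)) (p : Raw W K)
    where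
  u : ℕ → Set W
  m : W → K
  H : ℕ → K
  P : ℕ → (W → Bool) → Raw W K
  sys : ∀ n, IsSys dat (u n) m (H n) (P n)
  mono : ∀ n, u n ⊆ u (n + 1)
  dom : ∀ n σ, (P n σ).dom ⊆ u (n + 1)
  dec : ∀ n σ, P (n + 1) σ ≤ P n σ
  lt : ∀ n, H n < H (n + 1)
  meet : ∀ n σ, ∃ α, H n < α ∧ α < H (n + 1) ∧ P (n + 1) σ ∈ D α
  start : ∀ σ, P 0 σ ≤ p
  small : ∀ n, #(u n) < #K

end Defs

end Pool.Agent.LibDm83
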