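import Pool.Agent.LibDm83.Small
import Pool.Agent.LibDm83.Enl

/-! Task Enlarge: adding coordinates with marks to a system. -/

namespace Pool.Agent.LibDm83

open Cardinal Set Pool.Agent.LibTk83

variable {W K : Type} [LinearOrder K] [LinearOrder W] [WellFoundedLT W]
  {dat : W → K → K → Bool → Set (Raw W K)}

/- `P σ` only depends on the values of `σ` on `u` (`coh` for `X = univ`, `res_eq_self`); there are
fewer than `#K` functions on `u` (`Inac.pow`). -/
theorem small_doms (hK : Inac K) {u : Set W} {m : W → K} {H : K} {P : (W → Bool) → Raw W K}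
    (h : IsSys dat u m H P) (hu : #u < #K) : #(⋃ σ, (P σ).dom : Set W) < #K := by
  classical
  have h1 : (⋃ σ, (P σ).dom : Set W) =
      ⋃ Y : Set u, (P (fun i => decide (∃ hi : i ∈ u, (⟨i, hi⟩ : u) ∈ Y))).dom := by
    ext j
    simp only [Set.mem_iUnion]
    constructor
    · rintro ⟨σ, hσ⟩
      obtain ⟨Y, hY⟩ : ∃ Y : Set u, ∀ i : u, i ∈ Y ↔ σ i = true :=
        ⟨{i : u | σ i = true}, fun i => Iff.rfl⟩
      refine ⟨Y, ?_⟩
      have h2 : res Set.univ (P σ) = res Set.univ
          (P (fun i => decide (∃ hi : i ∈ u, (⟨i, hi⟩ : u) ∈ Y))) := by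
        refine h.coh Set.univ isLowerSet_univ _ _ fun i hi _ => ?_
        by_cases hb : σ i = true
        · rw [hb]
          symm
          rw [decide_eq_true_iff]
          exact ⟨hi, (hY _).2 hb⟩
        · have hb' : σ i = false := by simpa using hb
          rw [hb']
          symm
          rw [decide_eq_false_iff_not]
          rintro ⟨_, h3⟩
          exact hb ((hY _).1 h3)
      rw [res_eq_self (h.val _).1 (Set.subset_univ _),
        res_eq_self (h.val _).1 (Set.subset_univ _)] at h2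
      rw [← h2]
      exact hσ
    · rintro ⟨Y, hY⟩
      exact ⟨_, hY⟩
  rw [h1]
  exact small_iUnion hK (hK.pow _ hu) fun Y => (h.val _).1.small

/- `P' σ = enl H' u' {i ∈ u' | i ∉ u ∧ σ i = true} (P σ)`, `m' i = H` for `i ∈ u' \ u`; the other
`m' i` are `m i`. `coh`: `res_enl`. -/
theorem enlarge (hK : Inac K) {u : Set W} {m : W → K} {H : K} {P : (W → Bool) → Raw W K}
    (h : IsSys dat u m H P) {u' : Set W} (hu : u ⊆ u') (hu' : #u' < #K) {H' : K} (hH : H < H') :
    ∃ m' P', IsSys dat u' m' H' P' ∧ (∀ i, i ∉ u' \ u → m' i = m i) ∧ ∀ σ, P' σ ≤ P σ := by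
  classical
  have hlt : ∀ σ, (P σ).h < H' := fun σ => by rw [h.h_eq]; exact hH
  have hX : ∀ σ, {i | i ∈ u' ∧ i ∉ u ∧ σ i = true} ⊆ (P σ).dom ∪ u' :=
    fun σ i hi => Or.inr hi.1
  have hmem : ∀ (σ : W → Bool) (i : W) (x : K),
      x ∈ (enl H' u' {i | i ∈ u' ∧ i ∉ u ∧ σ i = true} (P σ)).a i ↔
        x ∈ (P σ).a i ∨ (x = (P σ).h ∧ i ∈ {i | i ∈ u' ∧ i ∉ u ∧ σ i = true}) :=
    fun _ _ _ => Iff.rfl
  refine ⟨fun i => if i ∈ u' \ u then H else m i,
    fun σ => enl H' u' {i | i ∈ u' ∧ i ∉ u ∧ σ i = true} (P σ), ?_, ?_, ?_⟩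
  · refine ⟨?_, fun _ => rfl, ?_, ?_, ?_, ?_⟩
    · intro σ
      exact Val_enl hK (h.val σ) (hlt σ) hu' (hX σ)
    · intro σ i hi
      exact Or.inr hi
    · intro X hX' σ τ hστ
      rw [res_enl, res_enl]
      have h1 : res X (P σ) = res X (P τ) := h.coh X hX' σ τ fun i hi => hστ i (hu hi)
      have h2 : ({i | i ∈ u' ∧ i ∉ u ∧ σ i = true} ∩ X : Set W) =
          {i | i ∈ u' ∧ i ∉ u ∧ τ i = true} ∩ X := by
        ext i
        simp only [Set.mem_inter_iff, Set.mem_ofPred_eq]
        constructor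
        · rintro ⟨⟨h3, h4, h5⟩, h6⟩
          exact ⟨⟨h3, h4, by rw [← hστ i h3 h6]; exact h5⟩, h6⟩
        · rintro ⟨⟨h3, h4, h5⟩, h6⟩
          exact ⟨⟨h3, h4, by rw [hστ i h3 h6]; exact h5⟩, h6⟩
      rw [h1, h2]
    · intro i hi
      by_cases hiu : i ∈ u' \ u
      · simp only [if_pos hiu]
        exact hH
      · simp only [if_neg hiu]
        have hiu' : i ∈ u := by
          by_contra hcon
          exact hiu ⟨hi, hcon⟩
        exact (h.lt i hiu').trans hH
    · intro σ i hi
      rw [hmem]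
      by_cases hiu : i ∈ u' \ u
      · rw [if_pos hiu, h.h_eq]
        constructor
        · rintro (h1 | h1)
          · exact absurd ((h.val σ).1.a_lt i H h1) (by rw [h.h_eq]; exact lt_irrefl _)
          · exact h1.2.2.2
        · intro h1
          exact Or.inr ⟨rfl, hi, hiu.2, h1⟩
      · rw [if_neg hiu]
        have hiu' : i ∈ u := by
          by_contra hcon
          exact hiu ⟨hi, hcon⟩
        rw [← h.mark σ i hiu']
        constructor
        · rintro (h1 | h1)
          · exact h1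
          · exact absurd hiu' h1.2.2.1
        · exact Or.inl
  · intro i hi
    exact if_neg hi
  · intro σ
    exact enl_le (h.val σ).1 (hlt σ)

end Pool.Agent.LibDm83
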