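import Pool.Agent.LibDm83.Res

/-! Task FoB: the forcing relation. -/

namespace Pool.Agent.LibDm83

open Cardinal Set Pool.Agent.LibTk83

variable {W K : Type} [LinearOrder K] [LinearOrder W] [WellFoundedLT W]
  {dat : W → K → K → Bool → Set (Raw W K)}

/- The recursion only looks at coordinates below `i`: `VB i (fun j _ => Fo dat j) r ↔ ValB dat i r`.
-/
theorem VB_iff {i : W} {r : Raw W K} : VB i (fun j _ => Fo dat j) r ↔ ValB dat i r := by
  constructor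
  · rintro ⟨h1, h2, h3⟩
    exact ⟨⟨h1, fun j hj => h3 j (h2 j hj) hj⟩, h2⟩
  · rintro ⟨⟨h1, h3⟩, h2⟩
    exact ⟨h1, h2, fun j _ hj => h3 j hj⟩

/- `WellFounded.fix_eq` and `VB_iff`. -/
theorem Fo_iff {i : W} {α δ : K} {b : Bool} {q : Raw W K} : Fo dat i α δ b q ↔
    ((∀ r, ValB dat i r → ∃ t ≤ r, ValB dat i t ∧ ∃ b', ∃ g ∈ dat i α δ b', t ≤ g) →
      ∀ r ≤ q, ValB dat i r → ∃ t ≤ r, ValB dat i t ∧ ∃ g ∈ dat i α δ b, t ≤ g) := by
  have h : Fo dat i = stepF dat i (fun j _ => Fo dat j) := by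
    unfold Fo
    exact WellFounded.fix_eq _ _ _
  rw [h]
  unfold stepF
  simp only [VB_iff]

theorem Fo_mono {i : W} {α δ : K} {b : Bool} {q q' : Raw W K} (h : q' ≤ q)
    (hq : Fo dat i α δ b q) : Fo dat i α δ b q' := by
  rw [Fo_iff] at hq ⊢
  exact fun hd r hr => hq hd r (hr.trans h)

/- If the data are total then extend `r` below a member of `dat i α δ b`; otherwise `Fo` is always
true. -/
theorem Fo_total {i : W} (α δ : K) {r : Raw W K} (h : ValB dat i r) :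
    ∃ t ≤ r, ValB dat i t ∧ ∃ b, Fo dat i α δ b t := by
  by_cases hd : ∀ r, ValB dat i r → ∃ t ≤ r, ValB dat i t ∧ ∃ b', ∃ g ∈ dat i α δ b', t ≤ g
  · obtain ⟨t, htr, hvt, b, g, hg, htg⟩ := hd r h
    refine ⟨t, htr, hvt, b, ?_⟩
    rw [Fo_iff]
    exact fun _ r' hr' hv => ⟨r', le_rfl, hv, g, hg, hr'.trans htg⟩
  · refine ⟨r, le_rfl, h, true, ?_⟩
    rw [Fo_iff]
    exact fun hd' => absurd hd' hd

/-- Validity at a coordinate is inherited by a stronger condition with the same `C j` below the old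
height and nothing new in `S ∩ C j` up to the new height. -/
theorem OkAt_mono {j : W} {p q : Raw W K} (h : OkAt (Fo dat j) j q)
    (h1 : res (Iio j) p ≤ res (Iio j) q)
    (h2 : ∀ α ∈ p.c j, α ∈ p.s → α ∈ q.c j ∧ α ∈ q.s ∧ ∀ δ < α, δ ∈ p.a j ↔ δ ∈ q.a j) :
    OkAt (Fo dat j) j p := by
  intro α hc hs
  obtain ⟨h3, h4, h5⟩ := h2 α hc hs
  obtain ⟨δ, hδ, b, hb, hF⟩ := h α h3 h4
  exact ⟨δ, hδ, b, hb.trans (not_congr (h5 δ hδ).symm), Fo_mono h1 hF⟩

theorem Val_res {X : Set W} (hX : IsLowerSet X) {p : Raw W K} (h : Val dat p) :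
    Val dat (res X p) := by
  refine ⟨WF_res X h.1, fun j hj => ?_⟩
  have hjp : j ∈ p.dom := hj.1
  have hjX : j ∈ X := hj.2
  refine OkAt_mono (h.2 j hjp) ?_ ?_
  · have hsub : Iio j ⊆ X := fun x hx => hX (le_of_lt hx) hjX
    rw [res_res_of_subset hsub]
  · intro α hc hs
    exact ⟨hc.1, hs, fun δ _ => ⟨fun hd => hd.1, fun hd => ⟨hd, hjX⟩⟩⟩

theorem ValB_res {i : W} {p : Raw W K} (h : Val dat p) : ValB dat i (res (Iio i) p) :=
  ⟨Val_res (isLowerSet_Iio i) h, fun _ hj => hj.2⟩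

end Pool.Agent.LibDm83
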