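import Pool.Agent.LibDm83.Sent

/-! Task GenB: under the chain condition each regular open set has few generators. -/

namespace Pool.Agent.LibDm83

open Cardinal Set Pool.Agent.LibTk83

/- Take a maximal subset `G` of `b` consisting of pairwise incompatible conditions (Zorn's lemma);
it has at most `κ` elements. If `p ∈ b` and `q ≤ p` then `q ∈ b`, so `q` is compatible with a member
of `G` by maximality. -/
theorem exists_gen {P : Type} [Preorder P] {κ : Cardinal.{0}} (h : ChainCond κ P) (b : RO P) :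
    ∃ G : Set P, #G ≤ κ ∧ (∀ g ∈ G, g ∈ b) ∧ RO.gen G = b := by
  obtain ⟨G, hG⟩ := zorn_subset {G : Set P | (∀ g ∈ G, g ∈ b) ∧
      ∀ p ∈ G, ∀ q ∈ G, p ≠ q → ¬ ∃ r, r ≤ p ∧ r ≤ q} (by
    intro c hc hchain
    refine ⟨⋃₀ c, ⟨?_, ?_⟩, fun s hs => subset_sUnion_of_mem hs⟩
    · rintro g ⟨s, hs, hg⟩
      exact (hc hs).1 g hg
    · rintro p ⟨s, hs, hp⟩ q ⟨t, ht, hq⟩ hpq
      rcases hchain.total hs ht with h1 | h1
      · exact (hc ht).2 p (h1 hp) q hq hpq
      · exact (hc hs).2 p hp q (h1 hq) hpq)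
  refine ⟨G, h G hG.prop.2, hG.prop.1, ?_⟩
  apply RO.ext
  intro p
  rw [RO.mem_gen]
  constructor
  · intro hp
    refine RO.mem_of_dense fun q hq => ?_
    obtain ⟨r, hr, s, hs, hrs⟩ := hp q hq
    exact ⟨r, hr, RO.mem_of_le hrs (hG.prop.1 s hs)⟩
  · intro hp q hq
    by_contra hcon
    push Not at hcon
    have hqb : q ∈ b := RO.mem_of_le hq hp
    have h1 : insert q G ∈ {G : Set P | (∀ g ∈ G, g ∈ b) ∧
        ∀ p ∈ G, ∀ q ∈ G, p ≠ q → ¬ ∃ r, r ≤ p ∧ r ≤ q} := by
      refine ⟨?_, ?_⟩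
      · rintro g (rfl | hg)
        · exact hqb
        · exact hG.prop.1 g hg
      · rintro x (rfl | hx) y (rfl | hy) hxy
        · exact absurd rfl hxy
        · rintro ⟨r, hr1, hr2⟩
          exact hcon r hr1 y hy hr2
        · rintro ⟨r, hr1, hr2⟩
          exact hcon r hr2 x hx hr1
        · exact hG.prop.2 x hx y hy hxy
    have h2 : q ∈ G := hG.le_of_ge h1 (subset_insert q G) (mem_insert q G)
    exact hcon q le_rfl q h2 le_rfl

end Pool.Agent.LibDm83
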