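import Pool.Agent.LibDm83.MixVal

/-! Task Insert: strengthening one member of a system. -/

namespace Pool.Agent.LibDm83

open Cardinal Set Pool.Agent.LibTk83

variable {W K : Type} [LinearOrder K] [LinearOrder W] [WellFoundedLT W]
  {dat : W → K → K → Bool → Set (Raw W K)}

omit [LinearOrder K] [LinearOrder W] [WellFoundedLT W] in
private theorem Insert_res_mix_congr {X Z : Set W} {t q q' : Raw W K} (h : res X q = res X q') :
    res X (mix Z t q) = res X (mix Z t q') := by
  have hd : q.dom ∩ X = q'.dom ∩ X := congrArg Raw.dom h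
  have ha : ∀ i x, (x ∈ q.a i ∧ i ∈ X) ↔ (x ∈ q'.a i ∧ i ∈ X) := fun i x => by
    have h1 : (res X q).a i = (res X q').a i := congrArg (fun r => Raw.a r i) h
    exact Set.ext_iff.1 h1 x
  have hc : ∀ i x, (x ∈ q.c i ∧ i ∈ X) ↔ (x ∈ q'.c i ∧ i ∈ X) := fun i x => by
    have h1 : (res X q).c i = (res X q').c i := congrArg (fun r => Raw.c r i) h
    exact Set.ext_iff.1 h1 x
  have hd' : ∀ i, (i ∈ q.dom ∧ i ∈ X) ↔ (i ∈ q'.dom ∧ i ∈ X) := fun i => Set.ext_iff.1 hd i
  have e1 : (res X (mix Z t q)).dom = (res X (mix Z t q')).dom := by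
    ext i
    have := hd' i
    simp only [res, mix, mem_inter_iff, mem_union, mem_sdiff]
    tauto
  have e2 : (res X (mix Z t q)).a = (res X (mix Z t q')).a := by
    funext i
    ext x
    have := ha i x
    simp only [res, mix, mem_ofPred_eq]
    tauto
  have e3 : (res X (mix Z t q)).c = (res X (mix Z t q')).c := by
    funext i
    ext x
    have := hc i x
    have := hd' i
    simp only [res, mix, mem_ofPred_eq]
    tauto
  have e4 : ∀ r r' : Raw W K, r.h = r'.h → r.s = r'.s → r.dom = r'.dom → r.a = r'.a →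
      r.c = r'.c → r = r' := by
    rintro ⟨_, _, _, _, _⟩ ⟨_, _, _, _, _⟩ h1 h2 h3 h4 h5
    simp only at h1 h2 h3 h4 h5
    subst h1 h2 h3 h4 h5
    rfl
  exact e4 _ _ rfl rfl e1 e2 e3

/- For `τ : W → Bool` let `Z τ = {j | ∀ i ∈ u, σ₀ i ≠ τ i → j < i}`, the lower set of the coordinates
before the first difference, and `P' τ = mix (Z τ) (res (Z τ) q) (P τ)`.

`res (Z τ) q ≤ res (Z τ) (P σ₀) = res (Z τ) (P τ)` by `coh`. So `P' τ` is valid (`Val_mix`) and
`P' τ ≤ P τ` (`mix_le_right`); its height is `q.h`. If `τ = σ₀` then `Z τ = univ` and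
`P' τ ≤ res univ q = q` (`mix_le_left`, `res_eq_self`).

`sub`: `u ⊆ (P τ).dom ∩ q.dom`. `mark`: if `i ∈ u ∩ Z τ` then `σ₀ i = τ i`, and `m i < (P σ₀).h`,
so `m i ∈ q.a i ↔ m i ∈ (P σ₀).a i`.

`coh`: let `X` be a lower set and let `τ`, `τ'` agree on `u ∩ X`. If there is `i ∈ u ∩ X` with
`σ₀ i ≠ τ i` then `Z τ = Z τ' ⊆ X` (the elements of `u` outside of `X` are larger than `i`). If
there is no such `i` then `X ⊆ Z τ` and `X ⊆ Z τ'`, and both restrictions are `res X q`
(`res_mix_of_subset`). -/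
theorem insert_sys (hK : Inac K) {u : Set W} {m : W → K} {H : K} {P : (W → Bool) → Raw W K}
    (h : IsSys dat u m H P) (σ₀ : W → Bool) {q : Raw W K} (hq : Val dat q) (hle : q ≤ P σ₀) :
    ∃ P', IsSys dat u m q.h P' ∧ (∀ σ, P' σ ≤ P σ) ∧ P' σ₀ ≤ q := by
  classical
  set Z : (W → Bool) → Set W := fun τ => {j | ∀ i ∈ u, σ₀ i ≠ τ i → j < i} with hZdef
  have hZ : ∀ τ, IsLowerSet (Z τ) := fun τ a b hba ha i hi hne => lt_of_le_of_lt hba (ha i hi hne)
  have hZeq : ∀ τ i, i ∈ u → i ∈ Z τ → σ₀ i = τ i := by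
    intro τ i hi hiZ
    by_contra hne
    exact lt_irrefl i (hiZ i hi hne)
  have hd : ∀ τ, (res (Z τ) q).dom ⊆ Z τ := fun τ => inter_subset_right
  have hle' : ∀ τ, res (Z τ) q ≤ res (Z τ) (P τ) := by
    intro τ
    have h1 : res (Z τ) q ≤ res (Z τ) (P σ₀) := res_mono _ hle
    rwa [h.coh (Z τ) (hZ τ) σ₀ τ (hZeq τ)] at h1
  have hheq : H = (P σ₀).h := (h.h_eq σ₀).symm
  refine ⟨fun τ => mix (Z τ) (res (Z τ) q) (P τ), ?_, fun τ => mix_le_right (h.val τ).1 (hle' τ),
    ?_⟩
  · refine ⟨?_, fun σ => rfl, ?_, ?_, ?_, ?_⟩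
    · intro τ
      exact Val_mix (hZ τ) hK (Val_res (hZ τ) hq) (h.val τ) (hle' τ) (hd τ)
    · intro τ i hi
      by_cases hiZ : i ∈ Z τ
      · exact Or.inl ⟨hle.dom (h.sub σ₀ hi), hiZ⟩
      · exact Or.inr ⟨h.sub τ hi, hiZ⟩
    · intro X hX τ τ' hag
      by_cases hex : ∃ i ∈ u, i ∈ X ∧ σ₀ i ≠ τ i
      · obtain ⟨i, hiu, hiX, hne⟩ := hex
        have hne' : σ₀ i ≠ τ' i := by rwa [← hag i hiu hiX]
        have key : ∀ ρ ρ' : W → Bool, (∀ i ∈ u, i ∈ X → ρ i = ρ' i) → σ₀ i ≠ ρ i → Z ρ ⊆ Z ρ' := by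
          intro ρ ρ' hr hn j hj i' hi' hne2
          by_cases hX' : i' ∈ X
          · exact hj i' hi' (by rwa [hr i' hi' hX'])
          · have h1 : i < i' := by
              by_contra hcon
              exact hX' (hX (not_lt.1 hcon) hiX)
            exact (hj i hiu hn).trans h1
        have hZZ : Z τ = Z τ' := Set.Subset.antisymm (key τ τ' hag hne)
          (key τ' τ (fun i hi hiX => (hag i hi hiX).symm) hne')
        change res X (mix (Z τ) (res (Z τ) q) (P τ)) = res X (mix (Z τ') (res (Z τ') q) (P τ'))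
        rw [← hZZ]
        exact Insert_res_mix_congr (h.coh X hX τ τ' hag)
      · push Not at hex
        have key : ∀ ρ : W → Bool, (∀ i ∈ u, i ∈ X → σ₀ i = ρ i) → X ⊆ Z ρ := by
          intro ρ hr j hj i hi hne
          by_contra hcon
          exact hne (hr i hi (hX (not_lt.1 hcon) hj))
        have h1 := key τ (fun i hi hiX => hex i hi hiX)
        have h2 := key τ' (fun i hi hiX => (hex i hi hiX).trans (hag i hi hiX))
        change res X (mix (Z τ) (res (Z τ) q) (P τ)) = res X (mix (Z τ') (res (Z τ') q) (P τ'))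
        rw [res_mix_of_subset _ h1, res_mix_of_subset _ h2, res_res_of_subset h1,
          res_res_of_subset h2]
    · intro i hi
      have h1 := h.lt i hi
      rw [hheq] at h1
      exact h1.trans_le hle.h
    · intro τ i hi
      by_cases hiZ : i ∈ Z τ
      · have h1 : m i ∈ q.a i ↔ m i ∈ (P σ₀).a i :=
          hle.a i (h.sub σ₀ hi) (m i) (by rw [← hheq]; exact h.lt i hi)
        have h2 : (m i ∈ (mix (Z τ) (res (Z τ) q) (P τ)).a i) ↔ m i ∈ q.a i := by
          simp only [mix, res, mem_ofPred_eq]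
          constructor
          · rintro (⟨_, h3, _⟩ | ⟨h3, _⟩)
            · exact h3
            · exact absurd hiZ h3
          · exact fun h3 => Or.inl ⟨hiZ, h3, hiZ⟩
        rw [h2, h1, h.mark σ₀ i hi, hZeq τ i hi hiZ]
      · have h2 : (m i ∈ (mix (Z τ) (res (Z τ) q) (P τ)).a i) ↔ m i ∈ (P τ).a i := by
          simp only [mix, res, mem_ofPred_eq]
          constructor
          · rintro (⟨h3, _⟩ | ⟨_, h3⟩)
            · exact absurd h3 hiZ
            · exact h3
          · exact fun h3 => Or.inr ⟨hiZ, h3⟩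
        rw [h2, h.mark τ i hi]
  · have hZu : Z σ₀ = Set.univ := by
      ext j
      simp only [hZdef, mem_ofPred_eq, mem_univ, iff_true]
      intro i _ hne
      exact absurd rfl hne
    have h1 := mix_le_left (P σ₀) (hd σ₀)
    refine h1.trans ?_
    rw [hZu, res_eq_self hq.1 (subset_univ _)]

end Pool.Agent.LibDm83
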