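import Pool.Agent.LibDm83.Defs

/-! Task KInac: the order type of an inaccessible cardinal (only Mathlib). -/

namespace Pool.Agent.LibDm83

open Cardinal Set

/- `Cardinal.mk_Iio_ord_toType`, `Ordinal.lt_cof_type`/`unbounded`, `IsStrongLimit`,
`Cardinal.sum_lt_of_isRegular`... -/
theorem inac_of {κ : Cardinal.{0}} (h : κ.IsInaccessible) : Inac κ.ord.ToType := by
  have hK : #κ.ord.ToType = κ := mk_ord_toType κ
  refine ⟨?_, ?_, ?_, ?_, ?_⟩
  · rw [hK]; exact h.aleph0_lt
  · intro a
    rw [hK]
    exact mk_Iio_toType_ord_lt a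
  · intro x hx
    rw [hK] at hx
    have h1 : ¬ IsCofinal x := by
      intro hc
      have h2 : Order.cof κ.ord.ToType ≤ #x := Order.cof_le hc
      rw [Ordinal.cof_toType] at h2
      exact absurd (h.le_cof_ord.trans h2) (not_le.mpr hx)
    unfold IsCofinal at h1
    push Not at h1
    exact h1
  · intro X hX
    rw [hK] at hX ⊢
    rw [mk_set]
    exact h.isStrongPrelimit hX
  · intro ι f hι hf
    rw [hK] at hι ⊢
    simp only [hK] at hf
    rw [mk_sigma]
    exact sum_lt_of_isRegular h.isRegular hι hf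

end Pool.Agent.LibDm83
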