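import Pool.Agent.LibDm83.Names
import Pool.Agent.LibDm83.GenB
import Pool.Agent.LibDm83.CC
import Pool.Agent.LibDm83.Book

/-! Task Kill: all sequences are considered. -/

namespace Pool.Agent.LibDm83

open Cardinal Set Pool.Agent.LibTk83

variable {W K : Type} [LinearOrder K] [LinearOrder W] [WellFoundedLT W] [WellFoundedLT K]
  {dat : W → K → K → Bool → Set (Raw W K)}

omit [WellFoundedLT K] in
/-- The general form of `Fo_true` and `Fo_false`. -/
theorem Kill_Fo (hK : Inac K) {i : W} {α δ : K} {Gf : Bool → Set (Qf dat)}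
    (h1 : ∀ b, ∀ g ∈ Gf b, ∀ j ∈ g.1.dom, j < i)
    (h3 : ∀ b, dat i α δ b = Subtype.val '' (Gf b))
    (hd : ∀ q : Qf dat, ∃ r, r ≤ q ∧ ∃ b, r ∈ RO.gen (Gf b))
    {b : Bool} {q : Qf dat} (h : Fo dat i α δ b (res (Iio i) q.1)) : q ∈ RO.gen (Gf b) := by
  rw [Fo_iff] at h
  have htot : ∀ r, ValB dat i r → ∃ t ≤ r, ValB dat i t ∧ ∃ b', ∃ g ∈ dat i α δ b', t ≤ g := by
    intro r hr
    obtain ⟨r1, hr1, b', hb'⟩ := hd ⟨r, hr.1⟩
    obtain ⟨r2, hr2, s, hs, hr2s⟩ := RO.mem_gen.1 hb' r1 le_rfl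
    have e1 : res (Iio i) r = r := res_eq_self hr.1.1 fun j hj => hr.2 j hj
    have e2 : res (Iio i) s.1 = s.1 := res_eq_self s.2.1 fun j hj => h1 b' s hs j hj
    refine ⟨res (Iio i) r2.1, ?_, ValB_res r2.2, b', s.1, ?_, ?_⟩
    · have h4 : r2.1 ≤ r := (Qf.le_iff.1 hr2).trans (Qf.le_iff.1 hr1)
      have h5 := res_mono (Iio i) h4
      rwa [e1] at h5
    · rw [h3]
      exact ⟨s, hs, rfl⟩
    · have h5 := res_mono (Iio i) (Qf.le_iff.1 hr2s)
      rwa [e2] at h5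
  have h' := h htot
  rw [RO.mem_gen]
  intro q' hq'
  obtain ⟨t, ht, htv, g, hg, htg⟩ := h' (res (Iio i) q'.1) (res_mono (Iio i) (Qf.le_iff.1 hq'))
    (ValB_res q'.2)
  rw [h3] at hg
  obtain ⟨s, hs, rfl⟩ := hg
  have htd : t.dom ⊆ Iio i := fun j hj => htv.2 j hj
  refine ⟨⟨mix (Iio i) t q'.1, Val_mix (isLowerSet_Iio i) hK htv.1 q'.2 ht htd⟩, ?_, s, hs, ?_⟩
  · exact mix_le_right q'.2.1 ht
  · exact (mix_le_left q'.1 htd).trans htg

omit [WellFoundedLT K] in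
theorem Kill_dense (b : RO (Qf dat)) (q : Qf dat) : ∃ r, r ≤ q ∧ (r ∈ b ∨ r ∈ bᶜ) := by
  by_cases h : ∃ r, r ≤ q ∧ r ∈ b
  · obtain ⟨r, hr, hrb⟩ := h
    exact ⟨r, hr, Or.inl hrb⟩
  · push Not at h
    exact ⟨q, le_rfl, Or.inr h⟩

omit [WellFoundedLT K] in
theorem Kill_Fo' (hK : Inac K) {i : W} {α δ : K} {b : RO (Qf dat)} {G G' : Set (Qf dat)}
    (h1 : ∀ g ∈ G, ∀ j ∈ g.1.dom, j < i) (h1' : ∀ g ∈ G', ∀ j ∈ g.1.dom, j < i)
    (h2 : RO.gen G = b) (h2' : RO.gen G' = bᶜ)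
    (h3 : dat i α δ true = Subtype.val '' G) (h3' : dat i α δ false = Subtype.val '' G')
    {q : Qf dat} {β : Bool} (h : Fo dat i α δ β (res (Iio i) q.1)) :
    q ∈ RO.gen (if β = true then G else G') := by
  refine Kill_Fo (Gf := fun β => if β = true then G else G') hK ?_ ?_ ?_ h
  · intro b g hg
    cases b
    · exact h1' g (by simpa using hg)
    · exact h1 g (by simpa using hg)
  · intro b
    cases b
    · simpa using h3'
    · simpa using h3
  · intro q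
    obtain ⟨r, hr, hrb⟩ := Kill_dense b q
    rcases hrb with hrb | hrb
    · refine ⟨r, hr, true, ?_⟩
      have : RO.gen (if (true : Bool) = true then G else G') = b := by simpa using h2
      rw [this]
      exact hrb
    · refine ⟨r, hr, false, ?_⟩
      have : RO.gen (if (false : Bool) = true then G else G') = bᶜ := by simpa using h2'
      rw [this]
      exact hrb

/-- Suppose that `dat i α δ true` and `dat i α δ false` are sets of valid conditions with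
coordinates below `i` which generate `b` and its complement. Then `Fo dat i α δ` has the right
meaning. -/
theorem Fo_true (hK : Inac K) {i : W} {α δ : K} {b : RO (Qf dat)} {G G' : Set (Qf dat)}
    (h1 : ∀ g ∈ G, ∀ j ∈ g.1.dom, j < i) (h1' : ∀ g ∈ G', ∀ j ∈ g.1.dom, j < i)
    (h2 : RO.gen G = b) (h2' : RO.gen G' = bᶜ)
    (h3 : dat i α δ true = Subtype.val '' G) (h3' : dat i α δ false = Subtype.val '' G')
    {q : Qf dat} (h : Fo dat i α δ true (res (Iio i) q.1)) : q ∈ b := by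
  have h4 := Kill_Fo' hK h1 h1' h2 h2' h3 h3' h
  rw [if_pos rfl, h2] at h4
  exact h4

/- Use `Fo_iff`. Total: for `r` with `ValB dat i r` there is `t ≤ r` in `b` or in `bᶜ`, so below an
element of `G` or `G'`; restrict it to `Iio i` (`res_mono`, `res_eq_self`). So below `res (Iio i) q'`,
for `q' ≤ q`, there is a `t` with `ValB dat i t` below an element `g` of `G`; `mix (Iio i) t q'` is an
extension of `q'` below `g` (`Val_mix`, `mix_le_left`, `mix_le_right`). -/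
theorem Fo_false (hK : Inac K) {i : W} {α δ : K} {b : RO (Qf dat)} {G G' : Set (Qf dat)}
    (h1 : ∀ g ∈ G, ∀ j ∈ g.1.dom, j < i) (h1' : ∀ g ∈ G', ∀ j ∈ g.1.dom, j < i)
    (h2 : RO.gen G = b) (h2' : RO.gen G' = bᶜ)
    (h3 : dat i α δ true = Subtype.val '' G) (h3' : dat i α δ false = Subtype.val '' G')
    {q : Qf dat} (h : Fo dat i α δ false (res (Iio i) q.1)) : q ∈ bᶜ := by
  have h4 := Kill_Fo' hK h1 h1' h2 h2' h3 h3' h
  rw [if_neg Bool.false_ne_true, h2'] at h4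
  exact h4

omit [LinearOrder W] [WellFoundedLT W] [WellFoundedLT K] in
theorem Kill_card (hK : Inac K) {T : Type} (F : T → Set W) (Gf : K × K × Bool → Set T)
    (hG : ∀ p, #(Gf p) ≤ #K) (hF : ∀ g, #(F g) ≤ #K) :
    #(⋃ g : (⋃ p, Gf p : Set T), F g.1 : Set W) ≤ #K := by
  have hinf : ℵ₀ ≤ #K := hK.unc.le
  have hU : #(⋃ p, Gf p : Set T) ≤ #K := by
    refine (mk_iUnion_le Gf).trans ?_
    have h1 : #(K × K × Bool) ≤ #K := by
      have h2 : #(K × K × Bool) = #K * (#K * #Bool) := by simp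
      rw [h2]
      have h3 : #Bool ≤ #K := (lt_aleph0_of_finite Bool).le.trans hinf
      calc #K * (#K * #Bool) ≤ #K * (#K * #K) := by gcongr
        _ = #K := by rw [mul_eq_self hinf, mul_eq_self hinf]
    calc #(K × K × Bool) * ⨆ p, #(Gf p) ≤ #K * #K := by
          gcongr
          exact ciSup_le' hG
      _ = #K := mul_eq_self hinf
  refine (mk_iUnion_le _).trans ?_
  calc #(⋃ p, Gf p : Set T) * ⨆ g : (⋃ p, Gf p : Set T), #(F g.1) ≤ #K * #K := by
        gcongr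
        exact ciSup_le' fun g => hF g.1
    _ = #K := mul_eq_self hinf

/- `exists_gen` and `chainCond` give generators of `x α δ` and of its complement; the domains of all
of these are bounded in `W` (`Len.bdd`, there are at most `#K` coordinates altogether), so there is
`i` above all of them with `dat i = ν` (`hdat`). Let `q ∈ cN i α ⊓ sN α`: validity of `q` at `i`
gives `δ < α` and `b`, with `Fo_true` or `Fo_false`. -/
theorem kill_aux (hK : Inac K) (hW : Len W K)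
    (hdat : ∀ ν : K → K → Bool → Set (Raw W K), (∀ α δ b, #(ν α δ b) ≤ #K) →
      (∀ α δ b, ∀ g ∈ ν α δ b, WF g) → ∀ w, ∃ j, w < j ∧ dat j = ν)
    (x : K → K → RO (Qf dat)) : ∃ i, ∀ α, cN hK dat i α ⊓ sN hK dat α ≤
      ⨆ δ, ⨆ (_ : δ < α), (aN hK dat i δ ⊓ (x α δ)ᶜ) ⊔ ((aN hK dat i δ)ᶜ ⊓ x α δ) := by
  have hcc : ChainCond #K (Qf dat) := chainCond hK
  choose G hGc _ hGg using fun α δ => exists_gen hcc (x α δ)
  choose G' hGc' _ hGg' using fun α δ => exists_gen hcc (x α δ)ᶜ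
  let Gf : K × K × Bool → Set (Qf dat) := fun p => if p.2.2 = true then G p.1 p.2.1 else G' p.1 p.2.1
  have hGf : ∀ p, #(Gf p) ≤ #K := by
    rintro ⟨α, δ, b⟩
    cases b
    · exact hGc' α δ
    · exact hGc α δ
  obtain ⟨w, hw⟩ := hW.bdd _ (Kill_card hK (fun g : Qf dat => g.1.dom) Gf hGf
    fun g => g.2.1.small.le)
  let ν : K → K → Bool → Set (Raw W K) := fun α δ b => Subtype.val '' (Gf (α, δ, b))
  obtain ⟨i, hwi, hi⟩ := hdat ν (fun α δ b => mk_image_le.trans (hGf (α, δ, b))) (by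
    rintro α δ b _ ⟨g, _, rfl⟩
    exact g.2.1) w
  have hdom : ∀ p, ∀ g ∈ Gf p, ∀ j ∈ g.1.dom, j < i := by
    intro p g hg j hj
    refine (hw j ?_).trans hwi
    exact mem_iUnion.2 ⟨⟨g, mem_iUnion.2 ⟨p, hg⟩⟩, hj⟩
  refine ⟨i, fun α => ?_⟩
  intro q hq
  rw [RO.mem_inf, mem_cN, mem_sN] at hq
  obtain ⟨hqc, hqs⟩ := hq
  obtain ⟨δ, hδ, b, hb, hF⟩ := q.2.2 i (q.2.1.c_dom i α hqc) α hqc hqs
  have e1 : ∀ g ∈ G α δ, ∀ j ∈ g.1.dom, j < i := fun g hg => hdom (α, δ, true) g hg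
  have e2 : ∀ g ∈ G' α δ, ∀ j ∈ g.1.dom, j < i := fun g hg => hdom (α, δ, false) g hg
  have e3 : dat i α δ true = Subtype.val '' (G α δ) := by rw [hi]; rfl
  have e4 : dat i α δ false = Subtype.val '' (G' α δ) := by rw [hi]; rfl
  have key : q ∈ (aN hK dat i δ ⊓ (x α δ)ᶜ) ⊔ ((aN hK dat i δ)ᶜ ⊓ x α δ) := by
    cases b
    · have hm : δ ∈ q.1.a i := by
        by_contra hc
        exact Bool.false_ne_true (hb.2 hc)
      have h5 := Fo_false hK e1 e2 (hGg α δ) (hGg' α δ) e3 e4 hF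
      have h6 : q ∈ aN hK dat i δ ⊓ (x α δ)ᶜ := RO.mem_inf.2 ⟨mem_aN.2 hm, h5⟩
      exact (le_sup_left (a := aN hK dat i δ ⊓ (x α δ)ᶜ)) h6
    · have hm : δ ∉ q.1.a i := hb.1 rfl
      have h5 := Fo_true hK e1 e2 (hGg α δ) (hGg' α δ) e3 e4 hF
      have h7 : q ∈ (aN hK dat i δ)ᶜ := by
        rw [RO.mem_compl]
        intro q' hq' hq'a
        rw [mem_aN] at hq'a
        have h8 : RLe q'.1 q.1 := Qf.le_iff.1 hq'
        exact hm ((h8.a i (q.2.1.c_dom i α hqc) δ (hδ.trans (q.2.1.s_lt α hqs))).1 hq'a)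
      have h6 : q ∈ (aN hK dat i δ)ᶜ ⊓ x α δ := RO.mem_inf.2 ⟨h7, h5⟩
      exact (le_sup_right (b := (aN hK dat i δ)ᶜ ⊓ x α δ)) h6
  exact (le_iSup₂_of_le (f := fun δ (_ : δ < α) =>
    (aN hK dat i δ ⊓ (x α δ)ᶜ) ⊔ ((aN hK dat i δ)ᶜ ⊓ x α δ)) δ hδ le_rfl) key

end Pool.Agent.LibDm83
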