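import Pool.Agent.LibDm83.Enl

/-! Task Lim: limits of directed families. -/

namespace Pool.Agent.LibDm83

open Cardinal Set Pool.Agent.LibTk83

variable {W K ι : Type} [LinearOrder K]

/-- The family is directed. -/
def Dir (p : ι → Raw W K) : Prop := ∀ k l, ∃ j, p j ≤ p k ∧ p j ≤ p l

theorem lim_le {p : ι → Raw W K} {H : K} (hp : ∀ k, WF (p k)) (hd : Dir p)
    (hH : IsLUB (range fun k => (p k).h) H) (k : ι) : lim H p ≤ p k := by
  rw [Raw.le_def]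
  refine ⟨hH.1 ⟨k, rfl⟩, fun i hi => ⟨k, hi⟩, fun x hx => ⟨?_, fun h => ⟨k, h⟩⟩,
    fun i hi x hx => ⟨?_, fun h => ⟨k, h⟩⟩, fun i hi x hx => ⟨?_, fun h => Or.inl ⟨k, h⟩⟩⟩
  · rintro ⟨l, hl⟩
    obtain ⟨j, hjk, hjl⟩ := hd k l
    rw [Raw.le_def] at hjk hjl
    exact (hjk.s x hx).1 ((hjl.s x ((hp l).s_lt x hl).le).2 hl)
  · rintro ⟨l, hl⟩
    obtain ⟨j, hjk, hjl⟩ := hd k l
    rw [Raw.le_def] at hjk hjl
    exact (hjk.a i hi x hx).1
      ((hjl.a i ((hp l).a_dom i x hl) x ((hp l).a_lt i x hl)).2 hl)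
  · rintro (⟨l, hl⟩ | ⟨rfl, -⟩)
    · obtain ⟨j, hjk, hjl⟩ := hd k l
      rw [Raw.le_def] at hjk hjl
      exact (hjk.c i hi x hx).1
        ((hjl.c i ((hp l).c_dom i x hl) x ((hp l).c_le i x hl)).2 hl)
    · have h1 : x = (p k).h := le_antisymm hx (hH.1 ⟨k, rfl⟩)
      rw [h1]
      exact (hp k).top_c i hi

theorem res_lim (X : Set W) (H : K) (p : ι → Raw W K) :
    res X (lim H p) = lim H fun k => res X (p k) := by
  apply Raw.ext'
  · rfl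
  · rfl
  · ext i
    simp only [res, lim, mem_inter_iff, mem_setOf_eq]
    exact ⟨fun ⟨⟨k, hk⟩, hX⟩ => ⟨k, hk, hX⟩, fun ⟨k, hk, hX⟩ => ⟨⟨k, hk⟩, hX⟩⟩
  · intro i
    ext x
    simp only [res, lim, mem_setOf_eq]
    exact ⟨fun ⟨⟨k, hk⟩, hX⟩ => ⟨k, hk, hX⟩, fun ⟨k, hk, hX⟩ => ⟨⟨k, hk⟩, hX⟩⟩
  · intro i
    ext x
    simp only [res, lim, mem_setOf_eq, mem_inter_iff]
    constructor
    · rintro ⟨⟨k, hk⟩ | ⟨hx, k, hk⟩, hX⟩
      · exact Or.inl ⟨k, hk, hX⟩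
      · exact Or.inr ⟨hx, k, hk, hX⟩
    · rintro (⟨k, hk, hX⟩ | ⟨hx, k, hk, hX⟩)
      · exact ⟨Or.inl ⟨k, hk⟩, hX⟩
      · exact ⟨Or.inr ⟨hx, k, hk⟩, hX⟩

/- `small`: `Inac.sum`; `Clo`: see the definition, if `g < H` then `g < (p k).h` for some `k`. -/
theorem WF_lim (hK : Inac K) [Nonempty ι] {p : ι → Raw W K} {H : K} (hι : #ι < #K)
    (hp : ∀ k, WF (p k)) (hd : Dir p) (hH : IsLUB (range fun k => (p k).h) H) :
    WF (lim H p) where
  small := by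
    have h1 := hK.sum ι (fun k => ((p k).dom : Set W)) hι (fun k => (hp k).small)
    refine lt_of_le_of_lt ?_ h1
    refine Cardinal.mk_le_of_surjective (f := fun x : (Σ k, ((p k).dom : Set W)) =>
      (⟨x.2.1, ⟨x.1, x.2.2⟩⟩ : (lim H p).dom)) ?_
    rintro ⟨i, k, hk⟩
    exact ⟨⟨k, ⟨i, hk⟩⟩, rfl⟩
  s_lt := by
    rintro x ⟨k, hk⟩
    exact ((hp k).s_lt x hk).trans_le (hH.1 ⟨k, rfl⟩)
  s_cof := by
    rintro x ⟨k, hk⟩
    exact (hp k).s_cof x hk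
  a_lt := by
    rintro i x ⟨k, hk⟩
    exact ((hp k).a_lt i x hk).trans_le (hH.1 ⟨k, rfl⟩)
  c_le := by
    rintro i x (⟨k, hk⟩ | ⟨rfl, -⟩)
    · exact ((hp k).c_le i x hk).trans (hH.1 ⟨k, rfl⟩)
    · exact le_rfl
  a_dom := by
    rintro i x ⟨k, hk⟩
    exact ⟨k, (hp k).a_dom i x hk⟩
  c_dom := by
    rintro i x (⟨k, hk⟩ | ⟨-, h⟩)
    · exact ⟨k, (hp k).c_dom i x hk⟩
    · exact h
  top_c := fun i hi => Or.inr ⟨rfl, hi⟩
  clo := by
    rintro i ⟨l, hl⟩ g hg hb hlim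
    rcases eq_or_lt_of_le hg with rfl | hlt
    · exact Or.inr ⟨rfl, l, hl⟩
    · obtain ⟨_, ⟨k, rfl⟩, hk⟩ := (lt_isLUB_iff hH).1 hlt
      obtain ⟨j, hjk, hjl⟩ := hd k l
      have hj := Raw.le_def.1 (lim_le hp hd hH j)
      rw [Raw.le_def] at hjk hjl
      have hij : i ∈ (p j).dom := hjl.dom hl
      have hgj : g ≤ (p j).h := hk.le.trans hjk.h
      refine Or.inl ⟨j, (hp j).clo i hij g hgj hb fun b hbg => ?_⟩
      obtain ⟨a, ha, hba, hag⟩ := hlim b hbg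
      exact ⟨a, (hj.c i hij a (hag.le.trans hgj)).1 ha, hba, hag⟩

variable [LinearOrder W] [WellFoundedLT W] {dat : W → K → K → Bool → Set (Raw W K)}

/- `WF_lim`; a point `α` of `c j` in `s` is in `(p l).c j` and in `(p k).s` for some `l`, `k`; take
a common lower bound `p m` and use `OkAt_mono` from `p m`... (or unfold `OkAt` and use `Fo_mono`). -/
theorem Val_lim (hK : Inac K) [Nonempty ι] {p : ι → Raw W K} {H : K} (hι : #ι < #K)
    (hp : ∀ k, Val dat (p k)) (hd : Dir p) (hH : IsLUB (range fun k => (p k).h) H) :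
    Val dat (lim H p) := by
  have hw : ∀ k, WF (p k) := fun k => (hp k).1
  refine ⟨WF_lim hK hι hw hd hH, fun j _ α hc hs => ?_⟩
  obtain ⟨k, hk⟩ := hs
  have hαH : α < H := ((hw k).s_lt α hk).trans_le (hH.1 ⟨k, rfl⟩)
  obtain ⟨l, hl⟩ : ∃ l, α ∈ (p l).c j := by
    rcases hc with h | ⟨h, -⟩
    · exact h
    · exact absurd h hαH.ne
  obtain ⟨m, hmk, hml⟩ := hd k l
  have hm := lim_le hw hd hH m
  rw [Raw.le_def] at hmk hml
  have hjl : j ∈ (p l).dom := (hw l).c_dom j α hl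
  have hjm : j ∈ (p m).dom := hml.dom hjl
  have hcm : α ∈ (p m).c j := (hml.c j hjl α ((hw l).c_le j α hl)).2 hl
  have hsm : α ∈ (p m).s := (hmk.s α ((hw k).s_lt α hk).le).2 hk
  obtain ⟨δ, hδ, b, hb, hF⟩ := (hp m).2 j hjm α hcm hsm
  refine ⟨δ, hδ, b, ?_, Fo_mono (res_mono _ hm) hF⟩
  rw [hb]
  exact not_congr ((Raw.le_def.1 hm).a j hjm δ (hδ.trans ((hw m).s_lt α hsm))).symm

/- Small families of elements of `K` have least upper bounds (`K` is well-ordered). -/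
theorem exists_lub [WellFoundedLT K] (hK : Inac K) (hι : #ι < #K) (f : ι → K) :
    ∃ H, IsLUB (range f) H := by
  obtain ⟨b, hb⟩ := hK.bdd (range f) (mk_range_le.trans_lt hι)
  obtain ⟨m, hm, hmin⟩ := (wellFounded_lt (α := K)).has_min (upperBounds (range f))
    ⟨b, fun a ha => (hb a ha).le⟩
  exact ⟨m, hm, fun x hx => not_lt.1 (hmin x hx)⟩

end Pool.Agent.LibDm83
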