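import Pool.Agent.LibDm83.Tasks
import Pool.Agent.LibDm83.Sent
import Pool.Agent.LibDm83.Defs

/-! Task RegB: closed forcing notions do not add unbounded functions. -/

namespace Pool.Agent.LibDm83

open Cardinal Set Pool.Agent.LibTk83

/- For `<κ`-closed `P`: functions with fewer than `κ` arguments and Boolean truth values are
bounded. Prove it for `p` in the left side: the sets `D δ = {q | ∃ β, q ∈ r δ β}`, `δ < α`, are open,
and dense below `p`; use `tasks'` for the preorder of the conditions below `p`; then take a bound of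
the `β` (`Inac.bdd`). -/
theorem reg_of_closed {K P : Type} [LinearOrder K] [WellFoundedLT K] [Preorder P] (hK : Inac K)
    (hc : ∀ C : Set P, IsChain (· ≤ ·) C → #C < #K → ∃ y, ∀ x ∈ C, y ≤ x)
    (α : K) (r : K → K → RO P) :
    ⨅ δ, ⨅ (_ : δ < α), ⨆ β, r δ β ≤ ⨆ b, ⨅ δ, ⨅ (_ : δ < α), ⨆ β, ⨆ (_ : β < b), r δ β := by
  intro p hp
  rw [RO.mem_iSup]
  intro q hq
  have hq' : ∀ δ, δ < α → q ∈ ⨆ β, r δ β := by
    intro δ hδ
    have h1 := RO.mem_of_le hq hp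
    rw [RO.mem_iInf] at h1
    have h2 := h1 δ
    rw [RO.mem_iInf] at h2
    exact h2 hδ
  -- the conditions below `q`
  obtain ⟨y, hy, hyD⟩ := tasks' (S := {x : P // x ≤ q}) (κ := #K) hK.unc.le (by
    intro C hC hCκ
    by_cases hne : C.Nonempty
    · obtain ⟨z, hz⟩ := hc (Subtype.val '' C) (by
        rintro _ ⟨a, ha, rfl⟩ _ ⟨b, hb, rfl⟩ hab
        exact hC ha hb (fun h => hab (congrArg Subtype.val h))) (mk_image_le.trans_lt hCκ)
      obtain ⟨c, hcC⟩ := hne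
      refine ⟨⟨z, (hz _ ⟨c, hcC, rfl⟩).trans c.2⟩, fun x hx => hz _ ⟨x, hx, rfl⟩⟩
    · exact ⟨⟨q, le_rfl⟩, fun x hx => absurd ⟨x, hx⟩ hne⟩)
    (T := Iio α) (hK.iio α) (fun δ => {x | ∃ β, x.1 ∈ r δ.1 β})
    (by
      rintro δ x ⟨β, hβ⟩ y hyx
      exact ⟨β, RO.mem_of_le hyx hβ⟩)
    (by
      rintro δ x
      have h1 := hq' δ.1 δ.2
      rw [RO.mem_iSup] at h1
      obtain ⟨y, hy, β, hβ⟩ := h1 x.1 x.2
      exact ⟨⟨y, hy.trans x.2⟩, hy, β, hβ⟩) ⟨q, le_rfl⟩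
  choose β hβ using hyD
  obtain ⟨b, hb⟩ := hK.bdd (range β) (mk_range_le.trans_lt (hK.iio α))
  refine ⟨y.1, y.2, b, ?_⟩
  rw [RO.mem_iInf]
  intro δ
  rw [RO.mem_iInf]
  intro hδ
  have h1 : r δ (β ⟨δ, hδ⟩) ≤ ⨆ β, ⨆ (_ : β < b), r δ β :=
    le_iSup₂ (f := fun β (_ : β < b) => r δ β) (β ⟨δ, hδ⟩) (hb _ ⟨_, rfl⟩)
  exact h1 (hβ ⟨δ, hδ⟩)

end Pool.Agent.LibDm83
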