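import Pool.Agent.LibDm83.PTow
import Pool.Agent.LibDm83.Lim

/-! Task PLim: chains of partial conditions. -/

namespace Pool.Agent.LibDm83

open Cardinal Set Pool.Agent.LibTk83

variable {W K : Type} [LinearOrder K] [LinearOrder W] [WellFoundedLT W] [WellFoundedLT K]
  {dat : W → K → K → Bool → Set (Raw W K)} {D : K → Set (Raw W K)} {p : Raw W K}

/- For empty `C` take `x₀`. Otherwise let `v = ⋃ x ∈ C, x.v`, `f i = x.f i` for any `x ∈ C` with
`i ∈ x.v`, `r = lim H (fun x : C => x.1.r)` (`exists_lub`, `Val_lim`, `lim_le`). `le`: for `x ∈ C`,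
`r ≤ x.r ≤ res (T.Y x.v) (P n x.f) = res (T.Y x.v) (P n f)` (`res_congr`, `Y_inter`); combine by
`le_res_of_forall`: the coordinates of `P n f` in `T.Y v` are in `U ∩ T.Y v = v = ⋃ x.v`, and
`x.v ⊆ T.Y x.v`. -/
theorem part_closed (hK : Inac K) (T : Tower dat D p) {γ : K} (hγ : IsLUB (range T.H) γ)
    (x₀ : Part T γ) (C : Set (Part T γ)) (hC : IsChain (· ≤ ·) C) (h : #C < #K) :
    ∃ y, ∀ x ∈ C, y ≤ x := by
  classical
  rcases C.eq_empty_or_nonempty with rfl | hne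
  · exact ⟨x₀, fun x hx => absurd hx (Set.notMem_empty x)⟩
  have : Nonempty C := hne.to_subtype
  obtain ⟨H, hH⟩ := exists_lub hK h (fun x : C => x.1.r.h)
  have htot : ∀ x ∈ C, ∀ y ∈ C, x ≤ y ∨ y ≤ x := fun x hx y hy => hC.total hx hy
  let f : W → Bool := fun i => if h : ∃ x ∈ C, i ∈ x.v then h.choose.f i else false
  have hf : ∀ x ∈ C, ∀ i ∈ x.v, f i = x.f i := by
    intro x hx i hi
    have hex : ∃ x ∈ C, i ∈ x.v := ⟨x, hx, hi⟩
    have h1 : f i = hex.choose.f i := dif_pos hex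
    rw [h1]
    obtain ⟨hc1, hc2⟩ := hex.choose_spec
    rcases htot _ hc1 x hx with hle | hle
    · exact hle.2.1 i hi
    · exact (hle.2.1 i hc2).symm
  have hd : Dir (fun x : C => x.1.r) := by
    intro k l
    rcases htot k.1 k.2 l.1 l.2 with hle | hle
    · exact ⟨k, le_rfl, hle.2.2⟩
    · exact ⟨l, hle.2.2, le_rfl⟩
  have hWF : ∀ k : C, WF k.1.r := fun k => k.1.val.1
  have hlim : ∀ x (hx : x ∈ C), lim H (fun x : C => x.1.r) ≤ x.r := fun x hx =>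
    lim_le hWF hd hH ⟨x, hx⟩
  have hinter : ∀ x : Part T γ, T.U ∩ T.Y x.v = x.v := fun x => T.Y_inter x.sub x.init
  have hsub : (⋃ x ∈ C, x.v) ⊆ T.U := Set.iUnion₂_subset fun x _ => x.sub
  have hinit : ∀ i ∈ (⋃ x ∈ C, x.v), ∀ j ∈ T.U, j ≤ i → j ∈ (⋃ x ∈ C, x.v) := by
    intro i hi j hj hji
    obtain ⟨x, hx, hix⟩ := Set.mem_iUnion₂.1 hi
    exact Set.mem_iUnion₂.2 ⟨x, hx, x.init i hix j hj hji⟩
  refine ⟨⟨⋃ x ∈ C, x.v, f, lim H (fun x : C => x.1.r), hsub, hinit, ?_, ?_, ?_, ?_⟩, ?_⟩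
  · exact Val_lim hK h (fun k => k.1.val) hd hH
  · obtain ⟨x, hx⟩ := hne
    exact ⟨⟨x, hx⟩, x.mem⟩
  · rintro i ⟨k, hk⟩
    exact T.Y_mono (Set.subset_iUnion₂ (s := fun (x : Part T γ) (_ : x ∈ C) => x.v) k.1 k.2)
      (k.1.dom hk)
  · intro n
    refine le_res_of_forall (Y := fun k : C => T.Y k.1.v) ?_ fun k => ?_
    · rintro i ⟨hi1, hi2⟩
      have h1 : i ∈ ⋃ x ∈ C, x.v := by
        rw [← T.Y_inter hsub hinit]
        exact ⟨T.dom_sub n f hi1, hi2⟩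
      obtain ⟨x, hx, hix⟩ := Set.mem_iUnion₂.1 h1
      refine Set.mem_iUnion.2 ⟨⟨x, hx⟩, ?_⟩
      rw [← hinter x] at hix
      exact hix.2
    · have h1 : res (T.Y k.1.v) (T.P n f) = res (T.Y k.1.v) (T.P n k.1.f) := by
        refine T.res_congr (T.isLowerSet_Y _) (fun i hiU hiY => ?_) n
        refine hf k.1 k.2 i ?_
        rw [← hinter k.1]
        exact ⟨hiU, hiY⟩
      change _ ≤ res (T.Y k.1.v) (T.P n f)
      rw [h1]
      exact (hlim k.1 k.2).trans (k.1.le n)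
  · intro x hx
    exact ⟨Set.subset_iUnion₂ (s := fun (x : Part T γ) (_ : x ∈ C) => x.v) x hx,
      fun i hi => hf x hx i hi, hlim x hx⟩

end Pool.Agent.LibDm83
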