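import Pool.Agent.LibDm83.PTow
import Pool.Agent.LibDm83.AddC

/-! Task PStep: the step of the final recursion. -/

namespace Pool.Agent.LibDm83

open Cardinal Set Pool.Agent.LibTk83

variable {W K : Type} [LinearOrder K] [LinearOrder W] [WellFoundedLT W]
  {dat : W → K → K → Bool → Set (Raw W K)} {D : K → Set (Raw W K)} {p : Raw W K}

private theorem PStep_Y {T : Tower dat D p} {γ : K} (x : Part T γ) {i : W} (hi : i ∈ T.U)
    (h : ∀ j ∈ T.U, j < i → j ∈ x.v) (hix : i ∉ x.v) : T.Y x.v = Iio i := by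
  ext j
  constructor
  · intro hj
    exact hj i hi hix
  · intro hj i' hi' hi'x
    rcases lt_or_ge i' i with h1 | h1
    · exact absurd (h i' hi' h1) hi'x
    · exact lt_of_lt_of_le hj h1

private theorem PStep_lt {T : Tower dat D p} {γ : K} (x : Part T γ) {i : W} (hi : i ∈ T.U)
    (hix : i ∉ x.v) : ∀ j ∈ x.v, j < i := by
  intro j hj
  by_contra h1
  exact hix (x.init j hj i hi (not_lt.1 h1))

private theorem PStep_h {T : Tower dat D p} (n : ℕ) (σ : W → Bool) : (T.P n σ).h = T.H n :=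
  (T.sys n).h_eq σ

/-- the new function -/
private noncomputable def PStep_f (f : W → Bool) (i : W) (b : Bool) : W → Bool :=
  Function.update f i (!b)

private theorem PStep_le1 {T : Tower dat D p} {γ : K} (x : Part T γ) {i : W} (hi : i ∈ T.U)
    (h : ∀ j ∈ T.U, j < i → j ∈ x.v) (hix : i ∉ x.v) {r₁ : Raw W K} (hr : r₁ ≤ x.r) (b : Bool)
    (n : ℕ) : r₁ ≤ res (Iio i) (T.P n (PStep_f x.f i b)) := by
  have h1 := x.le n
  rw [PStep_Y x hi h hix] at h1
  have h2 : res (Iio i) (T.P n x.f) = res (Iio i) (T.P n (PStep_f x.f i b)) := by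
    refine T.res_congr (isLowerSet_Iio i) (fun j _ hj => ?_) n
    rw [PStep_f, Function.update_of_ne (ne_of_lt hj)]
  rw [← h2]
  exact le_trans hr h1

private theorem PStep_val (hK : Inac K) (T : Tower dat D p) {γ : K} (hγ : IsLUB (range T.H) γ)
    {i : W} (hi : i ∈ T.U) {r₁ : Raw W K} (hr₁ : ValB dat i r₁) (hγs : γ ∈ r₁.s)
    {f : W → Bool} {b : Bool} (hfi : f i = !b) (hFo : Fo dat i γ (T.m i) b r₁)
    (hle : ∀ n, r₁ ≤ res (Iio i) (T.P n f)) :
    Val dat (addc i (T.A f i) (T.C f i ∪ {γ}) r₁) := by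
  have hγh : γ < r₁.h := hr₁.1.1.s_lt γ hγs
  refine Val_addc hK hr₁ (fun z hz => (T.A_lt hγ hz).trans hγh) ?_ ?_ ?_
  · rintro z (hz | hz)
    · exact (T.C_lt hγ hz).trans hγh
    · rw [mem_singleton_iff] at hz
      rw [hz]; exact hγh
  · intro g _ h0 h1
    rcases lt_trichotomy g γ with hg | hg | hg
    · left
      refine T.C_clo hγ hi hg h0 (fun b hb => ?_)
      obtain ⟨a, ha, hab, hag⟩ := h1 b hb
      rcases ha with ha | ha
      · exact ⟨a, ha, hab, hag⟩
      · rw [mem_singleton_iff] at ha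
        rw [ha] at hag
        exact absurd hg (not_lt.2 hag.le)
    · right
      exact hg
    · exfalso
      obtain ⟨a, ha, hab, _⟩ := h1 γ hg
      rcases ha with ha | ha
      · exact absurd (T.C_lt hγ ha) (not_lt.2 hab.le)
      · rw [mem_singleton_iff] at ha
        rw [ha] at hab
        exact lt_irrefl _ hab
  · rintro α (hα | hα) hαs
    · obtain ⟨n, hn⟩ := hα
      have hval := (T.sys n).val f
      have hdom : i ∈ (T.P n f).dom := hval.1.c_dom i α hn
      have hαH : α ≤ T.H n := by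
        have := hval.1.c_le i α hn
        rwa [PStep_h] at this
      have hs : α ∈ (T.P n f).s := by
        have h2 := (Raw.le_def.1 (hle n)).s α (by
          change α ≤ (T.P n f).h
          rw [PStep_h]; exact hαH)
        exact h2.1 hαs
      obtain ⟨δ, hδ, b', hb', hF⟩ := hval.2 i hdom α hn hs
      refine ⟨δ, hδ, b', ?_, Fo_mono (hle n) hF⟩
      rw [hb', T.mem_A hdom (hδ.trans_le hαH)]
    · rw [mem_singleton_iff] at hα
      subst hα
      obtain ⟨n, hn⟩ := mem_iUnion.1 hi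
      have hm : T.m i < T.H n := (T.sys n).lt i hn
      refine ⟨T.m i, hm.trans (T.H_lt hγ n), b, ?_, hFo⟩
      rw [T.mem_A ((T.sys n).sub f hn) hm, (T.sys n).mark f i hn, hfi]
      cases b <;> simp

private theorem PStep_le2 (T : Tower dat D p) {γ : K} (hγ : IsLUB (range T.H) γ)
    {i : W} (hi : i ∈ T.U) {v : Set W} (hv : v ⊆ T.U) (hvlt : ∀ j ∈ v, j < i)
    (hinit : ∀ i' ∈ insert i v, ∀ j ∈ T.U, j ≤ i' → j ∈ insert i v)
    {r₁ : Raw W K} (hr₁ : ValB dat i r₁) (hγs : γ ∈ r₁.s)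
    {f : W → Bool} (hle : ∀ n, r₁ ≤ res (Iio i) (T.P n f)) (n : ℕ) :
    addc i (T.A f i) (T.C f i ∪ {γ}) r₁ ≤ res (T.Y (insert i v)) (T.P n f) := by
  have hγh : γ < r₁.h := hr₁.1.1.s_lt γ hγs
  have hHγ : T.H n < γ := T.H_lt hγ n
  have hH : (T.P n f).h = T.H n := PStep_h n f
  have hL := Raw.le_def.1 (hle n)
  have hir : i ∉ r₁.dom := fun h => lt_irrefl _ (hr₁.2 i h)
  have hYv : T.U ∩ T.Y (insert i v) = insert i v :=
    T.Y_inter (insert_subset hi hv) hinit
  have hkey : ∀ j ∈ (T.P n f).dom, j ∈ T.Y (insert i v) → j = i ∨ j < i := by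
    intro j hj hjY
    have h1 : j ∈ insert i v := by
      rw [← hYv]
      exact ⟨T.dom_sub n f hj, hjY⟩
    rcases h1 with h1 | h1
    · exact Or.inl h1
    · exact Or.inr (hvlt j h1)
  rw [Raw.le_def]
  refine ⟨?_, ?_, ?_, ?_, ?_⟩
  · change (T.P n f).h ≤ r₁.h
    rw [hH]
    exact (hHγ.trans hγh).le
  · rintro j ⟨hj, hjY⟩
    change j ∈ insert i r₁.dom
    rcases hkey j hj hjY with h1 | h1
    · exact Or.inl h1
    · exact Or.inr (hL.dom ⟨hj, h1⟩)
  · intro z hz
    exact hL.s z hz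
  · rintro j ⟨hj, hjY⟩ z hz
    change z < (T.P n f).h at hz
    change (z ∈ r₁.a j ∨ (j = i ∧ z ∈ T.A f i)) ↔ (z ∈ (T.P n f).a j ∧ j ∈ T.Y (insert i v))
    rcases hkey j hj hjY with h1 | h1
    · subst h1
      rw [hH] at hz
      rw [T.mem_A hj hz]
      constructor
      · rintro (h2 | h2)
        · exact absurd (hr₁.1.1.a_dom _ _ h2) hir
        · exact ⟨h2.2, hjY⟩
      · intro h2
        exact Or.inr ⟨rfl, h2.1⟩
    · have h2 := hL.a j ⟨hj, h1⟩ z hz
      change z ∈ r₁.a j ↔ (z ∈ (T.P n f).a j ∧ j ∈ Iio i) at h2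
      constructor
      · rintro (h3 | h3)
        · exact ⟨(h2.1 h3).1, hjY⟩
        · exact absurd h3.1 (ne_of_lt h1)
      · intro h3
        exact Or.inl (h2.2 ⟨h3.1, h1⟩)
  · rintro j ⟨hj, hjY⟩ z hz
    change z ≤ (T.P n f).h at hz
    change (z ∈ r₁.c j ∨ (j = i ∧ ((z ∈ T.C f i ∪ {γ}) ∨ z = r₁.h))) ↔
      (z ∈ (T.P n f).c j ∧ j ∈ T.Y (insert i v))
    rcases hkey j hj hjY with h1 | h1
    · subst h1
      rw [hH] at hz
      constructor
      · rintro (h2 | ⟨_, (h2 | h2) | h2⟩)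
        · exact absurd (hr₁.1.1.c_dom _ _ h2) hir
        · exact ⟨(T.mem_C hj hz).1 h2, hjY⟩
        · rw [mem_singleton_iff] at h2
          rw [h2] at hz
          exact absurd hHγ (not_lt.2 hz)
        · rw [h2] at hz
          exact absurd (hHγ.trans hγh) (not_lt.2 hz)
      · intro h2
        exact Or.inr ⟨rfl, Or.inl (Or.inl ((T.mem_C hj hz).2 h2.1))⟩
    · have h2 := hL.c j ⟨hj, h1⟩ z hz
      change z ∈ r₁.c j ↔ (z ∈ (T.P n f).c j ∧ j ∈ Iio i) at h2
      constructor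
      · rintro (h3 | h3)
        · exact ⟨(h2.1 h3).1, hjY⟩
        · exact absurd h3.1 (ne_of_lt h1)
      · intro h3
        exact Or.inl (h2.2 ⟨h3.1, h1⟩)

/- If `i ∈ x.v` take `y = x`. Otherwise `x.v = {j ∈ U | j < i}`, `T.Y x.v = Iio i` (as `i` is the
least element of `U` outside of `x.v`), so `ValB dat i x.r`. By `Fo_total` there are `r₁ ≤ x.r` and
`b` with `ValB dat i r₁` and `Fo dat i γ (T.m i) b r₁`. Let `f'` be `x.f` with the value `!b` at `i`,
`v' = insert i x.v`, and `r' = addc i (T.A f' i) (T.C f' i ∪ {γ}) r₁`.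

Validity (`Val_addc`): `T.A_lt`, `T.C_lt`, `T.C_clo`, `γ < r₁.h` as `γ ∈ r₁.s`. `hok`: for `α = γ`
take `δ = T.m i`: `T.m i ∈ T.A f' i ↔ f' i = true` by `mark` (for `n` with `i ∈ T.u n`). For
`α ∈ T.C f' i`, `α ∈ r₁.s`: let `α ∈ (P n f').c i`, so `i ∈ (P n f').dom` and `α ≤ H n`. As
`r₁ ≤ x.r ≤ res (Iio i) (P n x.f) = res (Iio i) (P n f')` (`res_congr`) we have `α ∈ (P n f').s`; use
the validity of `P n f'` at `i` and `Fo_mono`, `mem_A`.

`dom`: `r'.dom ⊆ T.Y v'` as `j ≤ i` for `j ∈ r'.dom`. `le`: `r' ≤ res (T.Y v') (P n f')`: the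
coordinates of the right side are in `U ∩ T.Y v' = v'`; those in `x.v` are below `i`, use
`r' ≤ r₁ ≤ res (Iio i) (P n f')`; for the coordinate `i` use `mem_A`, `mem_C`. -/
theorem part_step (hK : Inac K) (T : Tower dat D p) {γ : K} (hγ : IsLUB (range T.H) γ)
    (x : Part T γ) {i : W} (hi : i ∈ T.U) (h : ∀ j ∈ T.U, j < i → j ∈ x.v) :
    ∃ y ≤ x, i ∈ y.v := by
  by_cases hix : i ∈ x.v
  · exact ⟨x, le_rfl, hix⟩
  have hY : T.Y x.v = Iio i := PStep_Y x hi h hix
  have hlt : ∀ j ∈ x.v, j < i := PStep_lt x hi hix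
  have hxB : ValB dat i x.r := ⟨x.val, fun j hj => by
    have h1 := x.dom hj
    rw [hY] at h1
    exact h1⟩
  obtain ⟨r₁, hr₁x, hr₁, b, hFo⟩ := Fo_total γ (T.m i) hxB
  have hγs : γ ∈ r₁.s := by
    have hγx : γ < x.r.h := x.val.1.s_lt γ x.mem
    exact ((Raw.le_def.1 hr₁x).s γ hγx.le).2 x.mem
  have hle : ∀ n, r₁ ≤ res (Iio i) (T.P n (PStep_f x.f i b)) :=
    fun n => PStep_le1 x hi h hix hr₁x b n
  have hfi : PStep_f x.f i b i = !b := by
    rw [PStep_f, Function.update_self]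
  have hinit : ∀ i' ∈ insert i x.v, ∀ j ∈ T.U, j ≤ i' → j ∈ insert i x.v := by
    rintro i' (hi' | hi') j hj hji
    · rw [hi'] at hji
      rcases hji.eq_or_lt with h1 | h1
      · exact Or.inl h1
      · exact Or.inr (h j hj h1)
    · exact Or.inr (x.init i' hi' j hj hji)
  refine ⟨{ v := insert i x.v
            f := PStep_f x.f i b
            r := addc i (T.A (PStep_f x.f i b) i) (T.C (PStep_f x.f i b) i ∪ {γ}) r₁
            sub := insert_subset hi x.sub
            init := hinit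
            val := PStep_val hK T hγ hi hr₁ hγs hfi hFo hle
            mem := hγs
            dom := ?_
            le := fun n => PStep_le2 T hγ hi x.sub hlt hinit hr₁ hγs hle n }, ?_, ?_⟩
  · intro j hj i' hi' hi'v
    have h1 : i < i' := by
      rcases lt_trichotomy i i' with h2 | h2 | h2
      · exact h2
      · exact absurd (Or.inl h2.symm) hi'v
      · exact absurd (Or.inr (h i' hi' h2)) hi'v
    rcases hj with hj | hj
    · rw [hj]; exact h1
    · exact (hr₁.2 j hj).trans h1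
  · refine ⟨subset_insert _ _, fun j hj => ?_, ?_⟩
    · change PStep_f x.f i b j = x.f j
      rw [PStep_f, Function.update_of_ne (ne_of_lt (hlt j hj))]
    · exact le_trans (addc_le _ _ hr₁.2) hr₁x
  · exact mem_insert _ _

end Pool.Agent.LibDm83
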