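import Mathlib

/-! Task Tasks: meeting few dense sets, one after the other (only Mathlib). -/

namespace Pool.Agent.LibDm83

open Cardinal Set

/-- `S` is closed under short chains; the sets `D t` are closed downwards; if `x` is in `D s` for
all `s < t` then it has an extension in `D t`. Then each `x` has an extension in all `D t`.

Proof: by well-founded recursion choose `f t`, a lower bound in `D t` of `x` and all `f s`, `s < t`
(if it exists). By induction on `t`: `f t ∈ D t`, `f t ≤ x` and `f t ≤ f s` for `s < t`, as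
`{x} ∪ {f s | s < t}` is a chain with fewer than `κ` elements, and a lower bound of it is in all
`D s`, `s < t`. Finally take a lower bound of `x` and all `f t`. -/
theorem tasks {S : Type} [Preorder S] {κ : Cardinal.{0}} (hκ : ℵ₀ ≤ κ)
    (hc : ∀ C : Set S, IsChain (· ≤ ·) C → #C < κ → ∃ y, ∀ x ∈ C, y ≤ x)
    {T : Type} [LinearOrder T] [WellFoundedLT T] (hT : #T < κ) (D : T → Set S)
    (hD : ∀ t, ∀ x ∈ D t, ∀ y ≤ x, y ∈ D t)
    (hden : ∀ t x, (∀ s < t, x ∈ D s) → ∃ y ≤ x, y ∈ D t) (x : S) :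
    ∃ y ≤ x, ∀ t, y ∈ D t := by
  classical
  obtain ⟨f, hf⟩ : ∃ f : T → S, ∀ t, (∃ y, y ∈ D t ∧ y ≤ x ∧ ∀ s, s < t → y ≤ f s) →
      f t ∈ D t ∧ f t ≤ x ∧ ∀ s, s < t → f t ≤ f s := by
    obtain ⟨F, hF⟩ : ∃ F : (t : T) → ((s : T) → s < t → S) → S, ∀ t ih,
        (∃ y, y ∈ D t ∧ y ≤ x ∧ ∀ s (hs : s < t), y ≤ ih s hs) →
          F t ih ∈ D t ∧ F t ih ≤ x ∧ ∀ s (hs : s < t), F t ih ≤ ih s hs := by
      refine ⟨fun t ih => if h : ∃ y, y ∈ D t ∧ y ≤ x ∧ ∀ s (hs : s < t), y ≤ ih s hs then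
        h.choose else x, fun t ih h => ?_⟩
      have h1 := h.choose_spec
      simp only [dif_pos h]
      exact h1
    refine ⟨(wellFounded_lt (α := T)).fix F, fun t h => ?_⟩
    have h1 : (wellFounded_lt (α := T)).fix F t = F t fun s _ => (wellFounded_lt (α := T)).fix F s :=
      WellFounded.fix_eq _ _ _
    rw [h1]
    exact hF t _ h
  have hcard : ∀ C : Set S, #C ≤ #T → #(insert x C : Set S) < κ := by
    intro C hC
    refine (mk_insert_le).trans_lt ?_
    exact add_lt_of_lt hκ (hC.trans_lt hT) (one_lt_aleph0.trans_le hκ)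
  have key : ∀ t, f t ∈ D t ∧ f t ≤ x ∧ ∀ s, s < t → f t ≤ f s := by
    intro t
    induction t using WellFoundedLT.induction with
    | ind t ih =>
      apply hf
      obtain ⟨y, hy⟩ := hc (insert x (f '' Iio t)) (by
        rintro a (rfl | ⟨s, hs, rfl⟩) b (rfl | ⟨s', hs', rfl⟩) hab
        · exact absurd rfl hab
        · exact Or.inr (ih s' hs').2.1
        · exact Or.inl (ih s hs).2.1
        · rcases lt_trichotomy s s' with h | h | h
          · exact Or.inr ((ih s' hs').2.2 s h)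
          · subst h; exact absurd rfl hab
          · exact Or.inl ((ih s hs).2.2 s' h)) (hcard _ (mk_image_le.trans (mk_set_le _)))
      obtain ⟨z, hz, hzD⟩ := hden t y (fun s hs => hD s (f s) (ih s hs).1 y
        (hy _ (mem_insert_of_mem _ ⟨s, hs, rfl⟩)))
      exact ⟨z, hzD, hz.trans (hy x (mem_insert _ _)), fun s hs =>
        hz.trans (hy _ (mem_insert_of_mem _ ⟨s, hs, rfl⟩))⟩
  obtain ⟨y, hy⟩ := hc (insert x (range f)) (by
    rintro a (rfl | ⟨s, rfl⟩) b (rfl | ⟨s', rfl⟩) hab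
    · exact absurd rfl hab
    · exact Or.inr (key s').2.1
    · exact Or.inl (key s).2.1
    · rcases lt_trichotomy s s' with h | h | h
      · exact Or.inr ((key s').2.2 s h)
      · subst h; exact absurd rfl hab
      · exact Or.inl ((key s).2.2 s' h)) (hcard _ mk_range_le)
  exact ⟨y, hy x (mem_insert _ _), fun t => hD t (f t) (key t).1 y
    (hy _ (mem_insert_of_mem _ ⟨t, rfl⟩))⟩

/-- The same for an index type without order: each `D t` is dense. -/
theorem tasks' {S : Type} [Preorder S] {κ : Cardinal.{0}} (hκ : ℵ₀ ≤ κ)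
    (hc : ∀ C : Set S, IsChain (· ≤ ·) C → #C < κ → ∃ y, ∀ x ∈ C, y ≤ x)
    {T : Type} (hT : #T < κ) (D : T → Set S)
    (hD : ∀ t, ∀ x ∈ D t, ∀ y ≤ x, y ∈ D t)
    (hden : ∀ t x, ∃ y ≤ x, y ∈ D t) (x : S) :
    ∃ y ≤ x, ∀ t, y ∈ D t := by
  obtain ⟨_, _⟩ := exists_wellFoundedLT T
  exact tasks hκ hc hT D hD (fun t x _ => hden t x) x

end Pool.Agent.LibDm83
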