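import Pool.Agent.LibDm83.Round
import Pool.Agent.LibDm83.Enlarge

/-! Task TowerB: the `ω` rounds. -/

namespace Pool.Agent.LibDm83

open Cardinal Set Pool.Agent.LibTk83

variable {W K : Type} [LinearOrder K] [LinearOrder W] [WellFoundedLT W] [WellFoundedLT K]
  {dat : W → K → K → Bool → Set (Raw W K)}

omit [WellFoundedLT K] in
private theorem TowerB_congr {u : Set W} {m m' : W → K} {H : K} {P : (W → Bool) → Raw W K}
    (h : IsSys dat u m H P) (hm : ∀ i ∈ u, m' i = m i) : IsSys dat u m' H P where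
  val := h.val
  h_eq := h.h_eq
  sub := h.sub
  coh := h.coh
  lt := fun i hi => by rw [hm i hi]; exact h.lt i hi
  mark := fun σ i hi => by rw [hm i hi]; exact h.mark σ i hi

/-- The states of the recursion. -/
private structure TowerB_St (dat : W → K → K → Bool → Set (Raw W K)) (p : Raw W K) where
  u : Set W
  m : W → K
  H : K
  P : (W → Bool) → Raw W K
  sys : IsSys dat u m H P
  start : ∀ σ, P σ ≤ p
  small : #u < #K

omit [WellFoundedLT K] in
private theorem TowerB_gt (hK : Inac K) (a b : K) : ∃ c, a < c ∧ b < c := by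
  obtain ⟨c, hc⟩ := hK.bdd {a, b} (lt_of_lt_of_le (Cardinal.lt_aleph0_iff_set_finite.2
    (Set.toFinite _)) hK.unc.le)
  exact ⟨c, hc a (by simp), hc b (by simp)⟩

private theorem TowerB_step (hK : Inac K) {p : Raw W K} (D : K → Set (Raw W K))
    (hD : ∀ α, ∀ q ∈ D α, ∀ r ≤ q, Val dat r → r ∈ D α)
    (hden : ∀ q ≤ p, Val dat q → ∀ β, ∃ r ≤ q, Val dat r ∧ ∃ α, β < α ∧ r ∈ D α)
    (S : TowerB_St dat p) : ∃ S' : TowerB_St dat p, S.u ⊆ S'.u ∧ (∀ i ∈ S.u, S'.m i = S.m i) ∧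
      (∀ σ, (S.P σ).dom ⊆ S'.u) ∧ (∀ σ, S'.P σ ≤ S.P σ) ∧ S.H < S'.H ∧
      ∀ σ, ∃ α, S.H < α ∧ α < S'.H ∧ S'.P σ ∈ D α := by
  obtain ⟨H1, P1, hs1, hle1, hE1⟩ := round hK S.sys S.small
    {q | ∃ α, S.H < α ∧ α < q.h ∧ q ∈ D α} (by
      rintro q ⟨α, h1, h2, h3⟩ r hr hv
      exact ⟨α, h1, h2.trans_le hr.h, hD α q h3 r hr hv⟩) (by
      intro σ q hq hv
      obtain ⟨r, hr, hrv, α, hα, hrD⟩ := hden q (hq.trans (S.start σ)) hv S.H
      obtain ⟨b, hb1, hb2⟩ := TowerB_gt hK r.h α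
      obtain ⟨r', hv', hle', hh', _, _, _⟩ := exists_up hK hrv hb1.le
      exact ⟨r', hle'.trans hr, hv', α, hα, by rw [hh']; exact hb2, hD α r hrD r' hle' hv'⟩)
  obtain ⟨H2, hH2, _⟩ := TowerB_gt hK H1 H1
  have hsub : S.u ⊆ ⋃ σ, (P1 σ).dom := fun i hi =>
    mem_iUnion.2 ⟨fun _ => true, hs1.sub _ hi⟩
  have hsm := small_doms hK hs1 S.small
  obtain ⟨m2, P2, hs2, hm2, hle2⟩ := enlarge hK hs1 hsub hsm hH2
  refine ⟨⟨_, m2, H2, P2, hs2, fun σ => (hle2 σ).trans ((hle1 σ).trans (S.start σ)), hsm⟩,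
    hsub, ?_, ?_, ?_, ?_, ?_⟩
  · intro i hi
    exact hm2 i (fun hh => hh.2 hi)
  · intro σ i hi
    exact mem_iUnion.2 ⟨σ, (hle1 σ).dom hi⟩
  · intro σ
    exact (hle2 σ).trans (hle1 σ)
  · have h1 : S.H ≤ H1 := by
      have h2 := (hle1 (fun _ => true)).h
      rwa [S.sys.h_eq, hs1.h_eq] at h2
    exact h1.trans_lt hH2
  · intro σ
    obtain ⟨α, h1, h2, h3⟩ := hE1 σ
    refine ⟨α, h1, ?_, hD α _ h3 _ (hle2 σ) (hs2.val σ)⟩
    rw [hs1.h_eq] at h2
    exact h2.trans hH2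

/- One step: given a system `(u, m, H, P)` with all `P σ ≤ p`, `#u < #K`; the set
`E = {q | q ≤ p ∧ ∃ α, H < α ∧ α < q.h ∧ q ∈ D α}` is dense below `p` (`hden`, `exists_up`) and open;
`round` gives a system all of whose members are in `E`; then `enlarge` with `u'` the union of `u`
and all domains (`small_doms`).

Start: `u = ∅`, `P σ = p`. Iterate (recursion on `ℕ` on the type of such systems, or
`exists_seq_of_forall...`), the maps `m` agree on `u n` from `n` on; let `m i` be the value at the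
first `n` with `i ∈ u n` (or use that `m' i = m i` outside of `u' \ u`). -/
theorem exists_tower (hK : Inac K) {p : Raw W K} (hp : Val dat p) (D : K → Set (Raw W K))
    (hD : ∀ α, ∀ q ∈ D α, ∀ r ≤ q, Val dat r → r ∈ D α)
    (hden : ∀ q ≤ p, Val dat q → ∀ β, ∃ r ≤ q, Val dat r ∧ ∃ α, β < α ∧ r ∈ D α) :
    Nonempty (Tower dat D p) := by
  classical
  have s0 : IsSys dat (∅ : Set W) (fun _ => p.h) p.h (fun _ => p) := by
    refine ⟨fun _ => hp, fun _ => rfl, fun _ => empty_subset _, fun _ _ _ _ _ => rfl, ?_, ?_⟩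
    · intro i hi
      exact absurd hi (notMem_empty i)
    · intro _ i hi
      exact absurd hi (notMem_empty i)
  have h0 : #(∅ : Set W) < #K := by
    rw [Cardinal.mk_eq_zero]
    exact lt_of_lt_of_le Cardinal.aleph0_pos hK.unc.le
  let S0 : TowerB_St dat p := ⟨∅, _, _, _, s0, fun _ => le_rfl, h0⟩
  choose nx hnx using TowerB_step hK D hD hden
  let S : ℕ → TowerB_St dat p := fun n => Nat.rec S0 (fun _ s => nx s) n
  have hS : ∀ n, S (n + 1) = nx (S n) := fun n => rfl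
  have hmono : ∀ n, (S n).u ⊆ (S (n + 1)).u := fun n => (hnx (S n)).1
  have hm : ∀ n, ∀ i ∈ (S n).u, (S (n + 1)).m i = (S n).m i := fun n => (hnx (S n)).2.1
  have hmm : ∀ k n, ∀ i ∈ (S n).u, i ∈ (S (n + k)).u ∧ (S (n + k)).m i = (S n).m i := by
    intro k
    induction k with
    | zero => intro n i hi; exact ⟨hi, rfl⟩
    | succ k ih =>
      intro n i hi
      obtain ⟨h1, h2⟩ := ih n i hi
      exact ⟨hmono (n + k) h1, (hm (n + k) i h1).trans h2⟩
  let m : W → K := fun i => if h : ∃ n, i ∈ (S n).u then (S (Nat.find h)).m i else p.h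
  have hmS : ∀ n, ∀ i ∈ (S n).u, m i = (S n).m i := by
    intro n i hi
    have hex : ∃ n, i ∈ (S n).u := ⟨n, hi⟩
    have h1 : m i = (S (Nat.find hex)).m i := dif_pos hex
    have h2 := (hmm (n - Nat.find hex) (Nat.find hex) i (Nat.find_spec hex)).2
    rw [Nat.add_sub_cancel' (Nat.find_min' hex hi)] at h2
    rw [h1, h2]
  exact ⟨{
    u := fun n => (S n).u
    m := m
    H := fun n => (S n).H
    P := fun n => (S n).P
    sys := fun n => TowerB_congr (S n).sys (hmS n)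
    mono := hmono
    dom := fun n σ => (hnx (S n)).2.2.1 σ
    dec := fun n σ => (hnx (S n)).2.2.2.1 σ
    lt := fun n => (hnx (S n)).2.2.2.2.1
    meet := fun n σ => (hnx (S n)).2.2.2.2.2 σ
    start := fun σ => le_rfl
    small := fun n => (S n).small }⟩

end Pool.Agent.LibDm83
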