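import Pool.Agent.LibDm83.PInit
import Pool.Agent.LibDm83.PStep
import Pool.Agent.LibDm83.PLim
import Pool.Agent.LibDm83.Tasks
import Pool.Agent.LibDm83.TowerB

/-! Task PFin: the final condition; `S` is stationary. -/

namespace Pool.Agent.LibDm83

open Cardinal Set Pool.Agent.LibTk83

variable {W K : Type} [LinearOrder K] [LinearOrder W] [WellFoundedLT W] [WellFoundedLT K]
  {dat : W → K → K → Bool → Set (Raw W K)}

/- `tasks` for the partial conditions, the index type `T.U` (`small_U`) and the sets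
`{y | i ∈ y.v}`; for the result `y.v = U`, `T.Y U = univ`, `res univ` is the identity
(`res_eq_self`). -/
theorem tower_final (hK : Inac K) {D : K → Set (Raw W K)} {p : Raw W K} (T : Tower dat D p)
    {γ : K} (hγ : IsLUB (range T.H) γ) :
    ∃ q, Val dat q ∧ γ ∈ q.s ∧ ∃ σ, ∀ n, q ≤ T.P n σ := by
  obtain ⟨x₀⟩ := exists_part hK T hγ
  obtain ⟨y, -, hy⟩ := tasks (S := Part T γ) (κ := #K) hK.unc.le
    (fun C hC h => part_closed hK T hγ x₀ C hC h) (T := T.U) (T.small_U hK)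
    (fun t => {y | t.1 ∈ y.v}) (fun t x hx y hyx => hyx.1 hx)
    (fun t x h => part_step hK T hγ x t.2 (fun j hj hlt => h ⟨j, hj⟩ hlt)) x₀
  have hv : y.v = T.U := Set.Subset.antisymm y.sub (fun i hi => hy ⟨i, hi⟩)
  refine ⟨y.r, y.val, y.mem, y.f, fun n => ?_⟩
  have h1 := y.le n
  rw [hv, T.Y_U, res_eq_self ((T.sys n).val y.f).1 (Set.subset_univ _)] at h1
  exact h1

/- `exists_tower`, `exists_lub` for `T.H`, `tower_final`; for `β < γ` there is `n` with `β < H n`,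
and `P (n + 1) σ ∈ D α` for some `α` between `H n` and `H (n + 1)`. -/
theorem stationary_aux (hK : Inac K) {p : Raw W K} (hp : Val dat p) (D : K → Set (Raw W K))
    (hD : ∀ α, ∀ q ∈ D α, ∀ r ≤ q, Val dat r → r ∈ D α)
    (hden : ∀ q ≤ p, Val dat q → ∀ β, ∃ r ≤ q, Val dat r ∧ ∃ α, β < α ∧ r ∈ D α) :
    ∃ q ≤ p, Val dat q ∧ ∃ γ ∈ q.s, (∃ b, b < γ) ∧ ∀ β < γ, ∃ α, β < α ∧ α < γ ∧ q ∈ D α := by
  obtain ⟨T⟩ := exists_tower hK hp D hD hden
  obtain ⟨γ, hγ⟩ := exists_lub hK (by rw [Cardinal.mk_nat]; exact hK.unc) T.H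
  obtain ⟨q, hq, hγq, σ, hσ⟩ := tower_final hK T hγ
  refine ⟨q, (hσ 0).trans (T.start σ), hq, γ, hγq, ⟨T.H 0, T.H_lt hγ 0⟩, fun β hβ => ?_⟩
  obtain ⟨n, hn⟩ := T.exists_lt_H hγ hβ
  obtain ⟨α, h1, h2, h3⟩ := T.meet n σ
  exact ⟨α, hn.trans h1, h2.trans (T.H_lt hγ (n + 1)), hD α _ h3 q (hσ (n + 1)) hq⟩

end Pool.Agent.LibDm83
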