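import Pool.Agent.LibDm83.Names
import Pool.Agent.LibDm83.PFin

/-! Task StB: the generic set `S` is stationary. -/

namespace Pool.Agent.LibDm83

open Cardinal Set Pool.Agent.LibTk83

variable {W K : Type} [LinearOrder K] [LinearOrder W] [WellFoundedLT W] [WellFoundedLT K]
  {dat : W → K → K → Bool → Set (Raw W K)}

/- For `p` in the left side use `stationary_aux` with `D α = {q | ∃ h, ⟨q, h⟩ ∈ c α}`: there is
`q ≤ p` with `γ ∈ q.s` and `q ∈ c α` for `α` unbounded in `γ`; so `q ∈ c γ` as `q ∈ cloB c`. This is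
dense below `p`, use `RO.mem_iSup`. -/
theorem st_aux (hK : Inac K) (c : K → RO (Qf dat)) :
    unbB c ⊓ cloB c ≤ ⨆ α, c α ⊓ sN hK dat α := by
  intro p hp
  obtain ⟨hp1, hp2⟩ := RO.mem_inf.1 hp
  refine RO.mem_iSup.2 fun q hq => ?_
  obtain ⟨q', hq', hv, γ, hγ, hb, hlim⟩ := stationary_aux hK q.2
    (fun α => {x | ∃ h : Val dat x, (⟨x, h⟩ : Qf dat) ∈ c α})
    (by
      rintro α x ⟨hx, hxc⟩ r hr hrv
      exact ⟨hrv, RO.mem_of_le (show (⟨r, hrv⟩ : Qf dat) ≤ ⟨x, hx⟩ from hr) hxc⟩)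
    (by
      intro x hx hxv β
      have h1 := RO.mem_iInf.1 hp1 β
      have hle : (⟨x, hxv⟩ : Qf dat) ≤ p := le_trans (show (⟨x, hxv⟩ : Qf dat) ≤ q from hx) hq
      obtain ⟨r, hr, α, hrα⟩ := RO.mem_iSup.1 h1 _ hle
      obtain ⟨r', hr', hα, hrα'⟩ := RO.mem_iSup.1 hrα r le_rfl
      exact ⟨r'.1, Qf.le_iff.1 (hr'.trans hr), r'.2, α, hα, r'.2, hrα'⟩)
  have hle : (⟨q', hv⟩ : Qf dat) ≤ q := hq'
  refine ⟨⟨q', hv⟩, hle, γ, RO.mem_inf.2 ⟨?_, mem_sN.2 hγ⟩⟩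
  have h2 : (⟨q', hv⟩ : Qf dat) ∈ cloB c := RO.mem_of_le (hle.trans hq) hp2
  have h3 := RO.mem_himp.1 (RO.mem_iInf.1 (RO.mem_iInf.1 h2 γ) hb) _ le_rfl
  refine h3 (RO.mem_iInf.2 fun β => RO.mem_iInf.2 fun hβ => ?_)
  obtain ⟨α, h4, h5, h6, h7⟩ := hlim β hβ
  exact (le_iSup₂ (f := fun (α : K) (_ : β < α ∧ α < γ) => c α) α ⟨h4, h5⟩) h7

end Pool.Agent.LibDm83
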