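import Pool.Agent.LibDm83.VB1
import Pool.Agent.LibDm83.Defs
import Pool.Agent.LibTk83.V2

/-! Task VB3: points of cofinality `ω`. -/

namespace Pool.Agent.LibDm83

open Pool.Agent.LibPlas90 Pool.Agent.LibPlas90.BSet Pool.Agent.LibTk83

variable {B K : Type} [CompleteBooleanAlgebra B] [LinearOrder K] [WellFoundedLT K]

theorem rel_sq' (G : ℕ → BSet B) (n : ℕ) (S : BSet B) : rel (sq G) (chk n) S = eq S (G n) := by
  rw [rel_eq, LibTk83.sq, mem_mk]
  apply le_antisymm
  · refine iSup_le fun m => ?_
    rw [top_inf_eq, eq_opr]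
    by_cases h : n = m
    · subst h
      exact inf_le_right
    · rw [eq_chk h, bot_inf_eq]
      exact bot_le
  · refine le_iSup_of_le n ?_
    rw [top_inf_eq, eq_opr, BSet.eq_refl, top_inf_eq]

/- `isOmega_ck`; the function is `sq fun n => chk (f n)`; `all_ck`, `ex_ck`, `all_chk`, `ex_chk`,
`rel_sq'`, `eq_chk`. -/
theorem isCofOmega_chk {α : K} (h : CofW α) : isCofOmega (chk α : BSet B) = ⊤ := by
  obtain ⟨f, hf, hf'⟩ := h
  unfold isCofOmega
  refine top_le_iff.1 (le_iSup_of_le (ck B ℕ) ?_)
  rw [isOmega_ck, top_inf_eq]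
  refine le_iSup_of_le (sq fun n => chk (f n)) ?_
  refine le_inf ?_ ?_
  · unfold isMap
    refine le_inf ?_ ?_
    · have hE : Ext (fun x : BSet B => ex (chk α) fun y => rel (sq fun n => chk (f n)) x y) :=
        Ext.ex (R := chk α) (φ := fun x y => rel (sq fun n => chk (f n)) x y)
          fun y => Ext.rel1 _ _
      rw [all_ck hE]
      refine le_iInf fun n => ?_
      rw [ex_chk (Ext.rel2 _ _)]
      refine le_iSup₂_of_le (f n) (hf n) ?_
      rw [rel_sq', BSet.eq_refl]
    · have hE : Ext (fun x : BSet B => all (chk α) fun y => all (chk α) fun y' =>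
          rel (sq fun n => chk (f n)) x y ⊓ rel (sq fun n => chk (f n)) x y' ⇨ eq y y') :=
        Ext.all (R := chk α) (φ := fun x y => all (chk α) fun y' =>
          rel (sq fun n => chk (f n)) x y ⊓ rel (sq fun n => chk (f n)) x y' ⇨ eq y y')
          fun y => Ext.all (R := chk α) (φ := fun x y' =>
            rel (sq fun n => chk (f n)) x y ⊓ rel (sq fun n => chk (f n)) x y' ⇨ eq y y')
            fun y' => Ext.himp (Ext.inf (Ext.rel1 _ _) (Ext.rel1 _ _)) (Ext.const _)
      rw [all_ck hE]
      refine le_iInf fun n => ?_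
      unfold all
      refine le_iInf fun y => ?_
      rw [le_himp_iff, top_inf_eq]
      refine le_iInf fun y' => ?_
      rw [le_himp_iff, le_himp_iff, rel_sq', rel_sq']
      refine inf_le_right.trans ?_
      rw [eq_symm y' (chk (f n))]
      exact eq_trans _ _ _
  · have hE : Ext (fun b : BSet B => ex (ck B ℕ) fun n => ex (chk α) fun c =>
        rel (sq fun n => chk (f n)) n c ⊓ mem b c) :=
      Ext.ex (R := ck B ℕ) (φ := fun b n => ex (chk α) fun c =>
        rel (sq fun n => chk (f n)) n c ⊓ mem b c) fun n =>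
        Ext.ex (R := chk α) (φ := fun b c => rel (sq fun n => chk (f n)) n c ⊓ mem b c)
          fun c => Ext.inf (Ext.const _) (Ext.mem_left c)
    rw [all_chk hE]
    refine le_iInf fun β => le_iInf fun hβ => ?_
    obtain ⟨n, hn⟩ := hf' β hβ
    have hE2 : Ext (fun n : BSet B => ex (chk α) fun c =>
        rel (sq fun n => chk (f n)) n c ⊓ mem (chk β) c) :=
      Ext.ex (R := chk α) (φ := fun n c => rel (sq fun n => chk (f n)) n c ⊓ mem (chk β) c)
          fun c => Ext.inf (Ext.rel1 _ _) (Ext.const _)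
    rw [ex_ck hE2]
    refine le_iSup_of_le n ?_
    rw [ex_chk (Ext.inf (Ext.rel2 _ _) (Ext.mem_right _))]
    refine le_iSup₂_of_le (f n) (hf n) ?_
    rw [rel_sq', BSet.eq_refl, top_inf_eq, mem_chk_of_lt hn]

end Pool.Agent.LibDm83
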