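import Pool.Agent.LibDm83.VB2

/-! Task VB4: stationarity of `S`. -/

namespace Pool.Agent.LibDm83

open Pool.Agent.LibPlas90 Pool.Agent.LibPlas90.BSet Pool.Agent.LibTk83

variable {B K : Type} [CompleteBooleanAlgebra B] [LinearOrder K] [WellFoundedLT K]

/- `isClub_le`, `M.st`, `ex_ck`, `mem_sb`. -/
theorem stat_sb (M : DMod B K) : stat (ck B K) (fun a => mem a (sb M.s)) = ⊤ := by
  unfold stat
  refine top_le_iff.1 (le_iInf fun C => ?_)
  rw [le_himp_iff, top_inf_eq]
  have hE : Ext (fun x : BSet B => mem x C ⊓ mem x (sb M.s)) :=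
    Ext.inf (Ext.mem_left _) (Ext.mem_left _)
  rw [ex_ck hE]
  refine (isClub_le C).trans ((M.st _).trans ?_)
  exact iSup_mono fun α => by rw [mem_sb]

end Pool.Agent.LibDm83
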