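import Pool.Agent.LibDm83.VB2

/-! Task VB5: failure of diamond. -/

namespace Pool.Agent.LibDm83

open Pool.Agent.LibPlas90 Pool.Agent.LibPlas90.BSet Pool.Agent.LibTk83

variable {B K : Type} [CompleteBooleanAlgebra B] [LinearOrder K] [WellFoundedLT K]

private theorem VB5_mp {T p q : B} (h1 : T ≤ p ⇨ q) (h2 : T ≤ p) : T ≤ q :=
  (le_inf h1 h2).trans himp_inf_le

private theorem VB5_guess_le (F : BSet B) (a : K → B) (α δ : K) (h : δ < α) :
    guess F (sb a) (chk α) ⊓ a δ ≤ ⨆ A : BSet B, rel F (chk α) A ⊓ mem (chk δ) A := by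
  classical
  unfold guess
  rw [iSup_inf_eq]
  refine iSup_le fun A => le_iSup_of_le A (le_inf (inf_le_left.trans inf_le_left) ?_)
  have h1 : (rel F (chk α) A ⊓ ⨅ t : BSet B, equiv (mem t A) (mem t (sb a) ⊓ mem t (chk α))) ⊓ a δ
      ≤ (mem (chk δ) (sb a) ⊓ mem (chk δ) (chk α)) ⇨ mem (chk δ) A :=
    (inf_le_left.trans inf_le_right).trans ((iInf_le _ (chk δ)).trans inf_le_right)
  refine VB5_mp h1 ?_
  rw [mem_sb, mem_chk_chk, if_pos h, inf_top_eq]
  exact inf_le_right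

private theorem VB5_le_a (F : BSet B) (a : K → B) (α δ : K) :
    (⨆ A : BSet B, rel F (chk α) A ⊓ sub A (chk α) ⊓ ⨅ A' : BSet B, rel F (chk α) A' ⇨ eq A' A) ⊓
      guess F (sb a) (chk α) ⊓ (⨆ A : BSet B, rel F (chk α) A ⊓ mem (chk δ) A) ≤ a δ := by
  rw [← le_himp_iff, ← le_himp_iff]
  refine iSup_le fun A => ?_
  rw [le_himp_iff]
  unfold guess
  rw [inf_iSup_eq]
  refine iSup_le fun A0 => ?_
  rw [le_himp_iff, inf_iSup_eq]
  refine iSup_le fun A1 => ?_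
  set T := (rel F (chk α) A ⊓ sub A (chk α) ⊓ ⨅ A' : BSet B, rel F (chk α) A' ⇨ eq A' A) ⊓
    (rel F (chk α) A0 ⊓ ⨅ t : BSet B, equiv (mem t A0) (mem t (sb a) ⊓ mem t (chk α))) ⊓
    (rel F (chk α) A1 ⊓ mem (chk δ) A1) with hT
  have hun : ∀ A', T ≤ rel F (chk α) A' ⇨ eq A' A := fun A' =>
    (inf_le_left.trans (inf_le_left.trans inf_le_right)).trans (iInf_le _ A')
  have h0 : T ≤ eq A0 A :=
    VB5_mp (hun A0) (inf_le_left.trans (inf_le_right.trans inf_le_left))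
  have h1 : T ≤ eq A1 A := VB5_mp (hun A1) (inf_le_right.trans inf_le_left)
  have h2 : T ≤ mem (chk δ) A :=
    (le_inf h1 (inf_le_right.trans inf_le_right)).trans (mem_congr_right _ _ _)
  have h3 : T ≤ mem (chk δ) A0 := by
    refine (le_inf ?_ h2).trans (mem_congr_right _ _ _)
    rw [eq_symm]
    exact h0
  have h4 : T ≤ mem (chk δ) A0 ⇨ (mem (chk δ) (sb a) ⊓ mem (chk δ) (chk α)) :=
    (inf_le_left.trans (inf_le_right.trans inf_le_right)).trans
      ((iInf_le _ (chk δ)).trans inf_le_left)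
  have h5 : T ≤ mem (chk δ) (sb a) := (VB5_mp h4 h3).trans inf_le_left
  rwa [mem_sb] at h5

private theorem VB5_fam (F : BSet B) (s : K → B) (α : K) :
    isFam F (sb s) ⊓ s α ≤
      ⨆ A : BSet B, rel F (chk α) A ⊓ sub A (chk α) ⊓ ⨅ A' : BSet B, rel F (chk α) A' ⇨ eq A' A := by
  have h : isFam F (sb s) ⊓ s α ≤ mem (chk α) (sb s) ⇨
      ⨆ A : BSet B, rel F (chk α) A ⊓ sub A (chk α) ⊓ ⨅ A' : BSet B, rel F (chk α) A' ⇨ eq A' A :=
    inf_le_left.trans (iInf_le _ (chk α))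
  refine VB5_mp h ?_
  rw [mem_sb]
  exact inf_le_right

/- Fix `F`; let `x α δ = ⨆ A, rel F (chk α) A ⊓ mem (chk δ) A` and take `a`, `c` from `M.kill x`. By
`isClub_sb` the name `sb c` is a club, and `sub (sb a) (ck B K) = ⊤`. So the value of
`isFam F S ⊓ ⨅ X, ...` is at most `⨆ α, c α ⊓ s α ⊓ guess F (sb a) (chk α)` (`ex_ck`, `mem_sb`).
Now `isFam F S ⊓ c α ⊓ s α ⊓ guess F (sb a) (chk α) = ⊥`: by `M.kill` one has to consider, for
`δ < α`, the values `a δ ⊓ (x α δ)ᶜ` and `(a δ)ᶜ ⊓ x α δ`. The set `A` in `guess` satisfies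
`mem (chk δ) A = a δ` (`mem_sb`, `mem_chk_chk`), so `a δ ≤ x α δ`; and `x α δ ≤ mem (chk δ) A` by the
uniqueness in `isFam F S` at `chk α` (`mem (chk α) S = s α`). -/
theorem diamond_sb (M : DMod B K) : diamond (ck B K) (sb M.s) = ⊥ := by
  refine le_bot_iff.mp (iSup_le fun F => ?_)
  obtain ⟨a, c, hu, hc, hk⟩ := M.kill fun α δ => ⨆ A : BSet B, rel F (chk α) A ⊓ mem (chk δ) A
  have hclub : isClub (ck B K) (sb c) = ⊤ := by
    refine top_le_iff.mp ?_
    refine le_trans ?_ (isClub_sb c)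
    rw [hu, hc, top_inf_eq]
  have hext : Ext fun t : BSet B => mem t (sb c) ⊓ (mem t (sb M.s) ⊓ guess F (sb a) t) :=
    Ext.inf (Ext.mem_left _) (Ext.inf (Ext.mem_left _) (Ext_guess _ _))
  have h1 : (⨅ X : BSet B, sub X (ck B K) ⇨ stat (ck B K) fun a => mem a (sb M.s) ⊓ guess F X a) ≤
      ⨆ α : K, c α ⊓ (M.s α ⊓ guess F (sb a) (chk α)) := by
    refine (iInf_le _ (sb a)).trans ?_
    rw [sub_sb_ck, top_himp]
    refine (iInf_le _ (sb c)).trans ?_
    rw [hclub, top_himp, ex_ck hext]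
    refine iSup_mono fun α => ?_
    rw [mem_sb, mem_sb]
  refine (inf_le_inf_left _ h1).trans ?_
  rw [inf_iSup_eq]
  refine iSup_le fun α => ?_
  set T := isFam F (sb M.s) ⊓ (c α ⊓ (M.s α ⊓ guess F (sb a) (chk α))) with hT
  have t1 : T ≤ isFam F (sb M.s) := inf_le_left
  have t2 : T ≤ c α := inf_le_right.trans inf_le_left
  have t3 : T ≤ M.s α := inf_le_right.trans (inf_le_right.trans inf_le_left)
  have t4 : T ≤ guess F (sb a) (chk α) := inf_le_right.trans (inf_le_right.trans inf_le_right)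
  have t5 := (le_inf t1 t3).trans (VB5_fam F M.s α)
  have t6 := (le_inf t2 t3).trans (hk α)
  refine (le_inf le_rfl t6).trans ?_
  rw [inf_iSup_eq]
  refine iSup_le fun δ => ?_
  rw [inf_iSup_eq]
  refine iSup_le fun hδ => ?_
  rw [inf_sup_left]
  refine sup_le ?_ ?_
  · have e1 : T ⊓ (a δ ⊓ (⨆ A : BSet B, rel F (chk α) A ⊓ mem (chk δ) A)ᶜ) ≤
        ⨆ A : BSet B, rel F (chk α) A ⊓ mem (chk δ) A :=
      (le_inf (inf_le_left.trans t4) (inf_le_right.trans inf_le_left)).trans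
        (VB5_guess_le F a α δ hδ)
    exact (le_inf e1 (inf_le_right.trans inf_le_right)).trans (by rw [inf_compl_self])
  · have e1 : T ⊓ ((a δ)ᶜ ⊓ ⨆ A : BSet B, rel F (chk α) A ⊓ mem (chk δ) A) ≤ a δ :=
      (le_inf (le_inf (inf_le_left.trans t5) (inf_le_left.trans t4))
        (inf_le_right.trans inf_le_right)).trans (VB5_le_a F a α δ)
    exact (le_inf e1 (inf_le_right.trans inf_le_left)).trans (by rw [inf_compl_self])

end Pool.Agent.LibDm83
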