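import Pool.Agent.LibDm83.NamesA
import Pool.Agent.LibDm83.Sent

/-! The generic sets. -/

namespace Pool.Agent.LibDm83

open Cardinal Set Pool.Agent.LibTk83

section

variable {W K : Type} [LinearOrder K] [LinearOrder W] [WellFoundedLT W]

/-- `α ∈ S`. -/
def sN (hK : Inac K) (dat : W → K → K → Bool → Set (Raw W K)) (α : K) : RO (Qf dat) where
  carrier := {q | α ∈ q.1.s}
  lower := fun p _ h hp => s_lower p.2.1 h hp
  reg := fun p h => s_reg hK p.2 fun q hq hv => by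
    obtain ⟨r, hr, hr'⟩ := h ⟨q, hv⟩ hq
    exact ⟨r.1, hr, r.2, hr'⟩

/-- `α ∈ A i`. -/
def aN (hK : Inac K) (dat : W → K → K → Bool → Set (Raw W K)) (i : W) (α : K) : RO (Qf dat) where
  carrier := {q | α ∈ q.1.a i}
  lower := fun p _ h hp => a_lower p.2.1 h hp
  reg := fun p h => a_reg hK p.2 fun q hq hv => by
    obtain ⟨r, hr, hr'⟩ := h ⟨q, hv⟩ hq
    exact ⟨r.1, hr, r.2, hr'⟩

/-- `α ∈ C i`. -/
def cN (hK : Inac K) (dat : W → K → K → Bool → Set (Raw W K)) (i : W) (α : K) : RO (Qf dat) where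
  carrier := {q | α ∈ q.1.c i}
  lower := fun p _ h hp => c_lower p.2.1 h hp
  reg := fun p h => c_reg hK p.2 fun q hq hv => by
    obtain ⟨r, hr, hr'⟩ := h ⟨q, hv⟩ hq
    exact ⟨r.1, hr, r.2, hr'⟩

variable {hK : Inac K} {dat : W → K → K → Bool → Set (Raw W K)}

theorem mem_sN {α : K} {q : Qf dat} : q ∈ sN hK dat α ↔ α ∈ q.1.s := Iff.rfl

theorem mem_aN {i : W} {α : K} {q : Qf dat} : q ∈ aN hK dat i α ↔ α ∈ q.1.a i := Iff.rfl

theorem mem_cN {i : W} {α : K} {q : Qf dat} : q ∈ cN hK dat i α ↔ α ∈ q.1.c i := Iff.rfl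

end

section

variable {B K : Type} [CompleteBooleanAlgebra B] [LinearOrder K]

/-- The truth value: `c` is unbounded. -/
def unbB (c : K → B) : B := ⨅ β, ⨆ α, ⨆ (_ : β < α), c α

/-- The truth value: `c` is closed. -/
def cloB (c : K → B) : B :=
  ⨅ γ, ⨅ (_ : ∃ b, b < γ), (⨅ β, ⨅ (_ : β < γ), ⨆ α, ⨆ (_ : β < α ∧ α < γ), c α) ⇨ c γ

/-- The properties of the algebra which are used. -/
structure DMod (B K : Type) [CompleteBooleanAlgebra B] [LinearOrder K] where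
  s : K → B
  cof : ∀ α, s α ≠ ⊥ → CofW α
  st : ∀ c : K → B, unbB c ⊓ cloB c ≤ ⨆ α, c α ⊓ s α
  kill : ∀ x : K → K → B, ∃ a c : K → B, unbB c = ⊤ ∧ cloB c = ⊤ ∧ ∀ α, c α ⊓ s α ≤
    ⨆ δ, ⨆ (_ : δ < α), (a δ ⊓ (x α δ)ᶜ) ⊔ ((a δ)ᶜ ⊓ x α δ)
  reg : ∀ α, ∀ r : K → K → B, ⨅ δ, ⨅ (_ : δ < α), ⨆ β, r δ β ≤
    ⨆ b, ⨅ δ, ⨅ (_ : δ < α), ⨆ β, ⨆ (_ : β < b), r δ β

end

end Pool.Agent.LibDm83
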