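import Pool.Agent.LibDm83.VB1
import Pool.Agent.LibDm83.Names
import Pool.Agent.LibTk83.V2

/-! Task VB6: `κ` is regular in the Boolean-valued universe. -/

namespace Pool.Agent.LibDm83

open Cardinal Pool.Agent.LibPlas90 Pool.Agent.LibPlas90.BSet Pool.Agent.LibTk83

variable {B K : Type} [CompleteBooleanAlgebra B] [LinearOrder K] [WellFoundedLT K]

theorem isTrans_chk (i : K) : isTrans (chk i : BSet B) = ⊤ := by
  unfold isTrans
  rw [all_chk (Ext_sub_left (chk i))]
  refine top_le_iff.mp (le_iInf fun j => le_iInf fun hj => ?_)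
  unfold sub
  rw [all_chk (Ext.mem_left (chk i))]
  refine le_iInf fun l => le_iInf fun hl => ?_
  rw [mem_chk_of_lt (hl.trans hj)]

theorem isOrd_ck : isOrd (ck B K) = ⊤ := by
  unfold isOrd
  refine top_le_iff.mp (le_inf ?_ ?_)
  · unfold isTrans
    rw [all_ck (Ext_sub_left (ck B K))]
    refine le_iInf fun i => ?_
    unfold sub
    rw [all_chk (Ext.mem_left (ck B K))]
    refine le_iInf fun j => le_iInf fun _ => ?_
    rw [mem_chk_ck]
  · rw [all_ck Ext_isTrans]
    refine le_iInf fun i => ?_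
    rw [isTrans_chk]

/- Let `f : ℕ → K` be strictly monotone with a downwards closed range. -/
theorem eq_chk_nat {f : ℕ → K} (hf : StrictMono f) (h : ∀ n, ∀ x < f n, ∃ m, x = f m) (n : ℕ) :
    eq (chk n : BSet B) (chk (f n)) = ⊤ := by
  induction n using Nat.strong_induction_on with
  | _ n ih =>
    refine top_le_iff.mp (le_eq_of_forall _ _ _ (fun t => ?_) (fun t => ?_))
    · rw [top_inf_eq, mem_chk]
      refine iSup_le fun j => iSup_le fun hj => ?_
      rw [mem_chk]
      refine le_iSup_of_le (f j) (le_iSup_of_le (hf hj) ?_)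
      refine le_trans ?_ (BSet.eq_trans t (chk j) (chk (f j)))
      rw [ih j hj, inf_top_eq]
    · rw [top_inf_eq, mem_chk]
      refine iSup_le fun x => iSup_le fun hx => ?_
      obtain ⟨m, rfl⟩ := h n x hx
      have hm : m < n := hf.lt_iff_lt.1 hx
      rw [mem_chk]
      refine le_iSup_of_le m (le_iSup_of_le hm ?_)
      refine le_trans ?_ (BSet.eq_trans t (chk (f m)) (chk m))
      rw [eq_symm (chk (f m)) (chk m), ih m hm, inf_top_eq]

private theorem VB6_bdd_least (hK : Inac K) (x : Set K) (hx : #x < #K) :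
    ∃ b, (∀ a ∈ x, a < b) ∧ ∀ c, (∀ a ∈ x, a < c) → b ≤ c := by
  obtain ⟨b, hb⟩ := hK.bdd x hx
  let S : Set K := {b | ∀ a ∈ x, a < b}
  have hS : S.Nonempty := ⟨b, hb⟩
  refine ⟨(wellFounded_lt (α := K)).min S hS, (wellFounded_lt (α := K)).min_mem S hS, ?_⟩
  intro c hc
  exact not_lt.1 ((wellFounded_lt (α := K)).not_lt_min S hc)

private theorem VB6_seq (hK : Inac K) :
    ∃ f : ℕ → K, StrictMono f ∧ ∀ n, ∀ x < f n, ∃ m, x = f m := by
  obtain ⟨z, _, hz⟩ := VB6_bdd_least hK ∅ (by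
    rw [mk_eq_zero]
    exact lt_of_le_of_lt zero_le hK.unc)
  have hz' : ∀ c, z ≤ c := fun c => hz c (fun a ha => absurd ha (Set.notMem_empty a))
  have hs : ∀ a : K, ∃ b, a < b ∧ ∀ c, a < c → b ≤ c := by
    intro a
    obtain ⟨b, hb1, hb2⟩ := VB6_bdd_least hK {a} (by
      rw [mk_singleton]
      exact one_lt_aleph0.trans hK.unc)
    exact ⟨b, hb1 a rfl, fun c hc => hb2 c (fun a' ha' => by
      rw [Set.mem_singleton_iff] at ha'
      rw [ha']; exact hc)⟩
  choose s hs1 hs2 using hs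
  refine ⟨fun n => Nat.rec z (fun _ a => s a) n, strictMono_nat_of_lt_succ fun n => hs1 _, ?_⟩
  intro n
  induction n with
  | zero =>
    intro x hx
    exact absurd (hz' x) (not_le.2 hx)
  | succ n ih =>
    intro x hx
    change x < s (Nat.rec z (fun _ a => s a) n) at hx
    rcases lt_trichotomy x (Nat.rec z (fun _ a => s a) n : K) with h1 | h1 | h1
    · exact ih x h1
    · exact ⟨n, h1⟩
    · exact absurd (hs2 _ x h1) (not_le.2 hx)

/- Let `f n` be the least element of `K` above all `f m`, `m < n` (`K` is uncountable and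
its proper initial segments...: finite sets are bounded by `Inac.bdd`) and let `w` be the least
element above all `f n` (`Inac.bdd`, `ℵ₀ < #K`); then `eq (ck B ℕ) (chk w) = ⊤`. -/
theorem omega_mem_ck (hK : Inac K) : ex (ck B K) isOmega = ⊤ := by
  obtain ⟨f, hf, hcl⟩ := VB6_seq hK
  obtain ⟨w, hw1, hw2⟩ := VB6_bdd_least hK (Set.range f) (lt_of_le_of_lt mk_range_le (by
    rw [mk_nat]; exact hK.unc))
  have heq : eq (ck B ℕ) (chk w) = ⊤ := by
    refine top_le_iff.mp (le_eq_of_forall _ _ _ (fun t => ?_) (fun t => ?_))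
    · rw [top_inf_eq, mem_ck]
      refine iSup_le fun j => ?_
      rw [mem_chk]
      refine le_iSup_of_le (f j) (le_iSup_of_le (hw1 _ ⟨j, rfl⟩) ?_)
      refine le_trans ?_ (BSet.eq_trans t (chk j) (chk (f j)))
      rw [eq_chk_nat hf hcl j, inf_top_eq]
    · rw [top_inf_eq, mem_chk]
      refine iSup_le fun x => iSup_le fun hx => ?_
      have h1 : ∃ n, x ≤ f n := by
        by_contra hcon
        push Not at hcon
        refine absurd (hw2 x ?_) (not_le.2 hx)
        rintro _ ⟨n, rfl⟩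
        exact hcon n
      obtain ⟨n, hn⟩ := h1
      obtain ⟨m, rfl⟩ : ∃ m, x = f m := by
        rcases hn.eq_or_lt with h2 | h2
        · exact ⟨n, h2⟩
        · exact hcl n x h2
      rw [mem_ck]
      refine le_iSup_of_le m ?_
      refine le_trans ?_ (BSet.eq_trans t (chk (f m)) (chk m))
      rw [eq_symm (chk (f m)) (chk m), eq_chk_nat hf hcl m, inf_top_eq]
  rw [ex_ck Ext_isOmega]
  refine top_le_iff.mp (le_iSup_of_le w ?_)
  refine le_trans ?_ (Ext_isOmega (ck B ℕ) (chk w))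
  rw [heq, isOmega_ck, inf_top_eq]

private theorem VB6_uniq (f : BSet B) {α δ β β' : K} (hδ : δ < α) :
    isMap f (chk α) (ck B K) ⊓ (rel f (chk δ) (chk β) ⊓ rel f (chk δ) (chk β')) ≤
      eq (chk β) (chk β') := by
  rw [← le_himp_iff]
  unfold isMap
  refine inf_le_right.trans ?_
  have h1 : Ext (fun x : BSet B => all (ck B K) fun y => all (ck B K) fun y' =>
      rel f x y ⊓ rel f x y' ⇨ eq y y') :=
    Ext.all fun y => Ext.all fun y' =>
      Ext.himp (Ext.inf (Ext.rel1 f y) (Ext.rel1 f y')) (Ext.const _)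
  rw [all_chk h1]
  refine (iInf_le _ δ).trans ((iInf_le _ hδ).trans ?_)
  have h2 : Ext (fun y : BSet B => all (ck B K) fun y' =>
      rel f (chk δ) y ⊓ rel f (chk δ) y' ⇨ eq y y') :=
    Ext.all fun y' => Ext.himp (Ext.inf (Ext.rel2 f _) (Ext.const _)) (Ext.eq_left y')
  rw [all_ck h2]
  refine (iInf_le _ β).trans ?_
  have h3 : Ext (fun y' : BSet B =>
      rel f (chk δ) (chk β) ⊓ rel f (chk δ) y' ⇨ eq (chk β) y') :=
    Ext.himp (Ext.inf (Ext.const _) (Ext.rel2 f _)) (Ext.eq_right _)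
  rw [all_ck h3]
  exact iInf_le _ β'

private theorem VB6_total (f : BSet B) (α : K) :
    isMap f (chk α) (ck B K) ≤ ⨅ δ, ⨅ (_ : δ < α), ⨆ β : K, rel f (chk δ) (chk β) := by
  unfold isMap
  refine inf_le_left.trans ?_
  have h1 : Ext (fun x : BSet B => ex (ck B K) fun y => rel f x y) :=
    Ext.ex fun y => Ext.rel1 f y
  rw [all_chk h1]
  refine iInf_mono fun δ => iInf_mono fun _ => ?_
  rw [ex_ck (Ext.rel2 f (chk δ))]

/- For `a = chk α` and `f` apply `M.reg α` to `r δ β = rel f (chk δ) (chk β)`: `isMap f (chk α) (ck B K)`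
is at most the left side, and also gives the uniqueness of the values. -/
theorem isReg_ck (hK : Inac K) (M : DMod B K) : isReg (ck B K) = ⊤ := by
  unfold isReg
  rw [isOrd_ck, omega_mem_ck hK, top_inf_eq, top_inf_eq, all_ck (Ext_reg (ck B K))]
  refine top_le_iff.mp (le_iInf fun α => le_iInf fun f => ?_)
  rw [le_himp_iff, top_inf_eq]
  have h1 : isMap f (chk α) (ck B K) ≤
      ⨆ b : K, ⨅ δ, ⨅ (_ : δ < α), ⨆ β : K, ⨆ (_ : β < b), rel f (chk δ) (chk β) :=
    (VB6_total f α).trans (M.reg α fun δ β => rel f (chk δ) (chk β))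
  refine (le_inf le_rfl h1).trans ?_
  rw [inf_iSup_eq]
  refine iSup_le fun b => ?_
  unfold ex
  refine le_iSup_of_le (chk b) (le_inf ?_ ?_)
  · rw [mem_chk_ck]; exact le_top
  have h2 : Ext (fun x : BSet B => all (ck B K) fun y => rel f x y ⇨ mem y (chk b)) :=
    Ext.all fun y => Ext.himp (Ext.rel1 f y) (Ext.const _)
  change isMap f (chk α) (ck B K) ⊓ _ ≤
    all (chk α) fun x => all (ck B K) fun y => rel f x y ⇨ mem y (chk b)
  rw [all_chk h2]
  refine le_iInf fun δ => le_iInf fun hδ => ?_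
  have h3 : Ext (fun y : BSet B => rel f (chk δ) y ⇨ mem y (chk b)) :=
    Ext.himp (Ext.rel2 f _) (Ext.mem_left _)
  rw [all_ck h3]
  refine le_iInf fun β' => ?_
  rw [le_himp_iff]
  have h4 : (⨅ δ, ⨅ (_ : δ < α), ⨆ β : K, ⨆ (_ : β < b), rel f (chk δ) (chk β) : B) ≤
      ⨆ β : K, ⨆ (_ : β < b), rel f (chk δ) (chk β) := (iInf_le _ δ).trans (iInf_le _ hδ)
  refine (inf_le_inf_right _ (inf_le_inf_left _ h4)).trans ?_
  rw [inf_iSup_eq, iSup_inf_eq]
  refine iSup_le fun β => ?_
  rw [inf_iSup_eq, iSup_inf_eq]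
  refine iSup_le fun hβ => ?_
  rw [inf_assoc]
  refine (VB6_uniq f hδ).trans ?_
  rw [mem_chk, eq_symm]
  exact le_iSup_of_le β (le_iSup_of_le hβ le_rfl)

end Pool.Agent.LibDm83
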