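import Pool.Agent.LibDm83.KInac
import Pool.Agent.LibDm83.VB3
import Pool.Agent.LibDm83.VB4
import Pool.Agent.LibDm83.VB5
import Pool.Agent.LibDm83.VB6
import Pool.Agent.LibDm83.Club
import Pool.Agent.LibDm83.Kill
import Pool.Agent.LibDm83.StB
import Pool.Agent.LibDm83.Closed
import Pool.Agent.LibDm83.RegB

/-!
The main theorem.
-/

namespace Pool.Agent.LibDm83

open Cardinal Set Pool.Agent.LibPlas90 Pool.Agent.LibPlas90.BSet Pool.Agent.LibTk83

section

variable {B K : Type} [CompleteBooleanAlgebra B] [LinearOrder K] [WellFoundedLT K]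

theorem diamondFails_eq_top (M : DMod B K) : diamondFails (ck B K) = ⊤ := by
  unfold diamondFails
  rw [← top_le_iff]
  refine le_iSup_of_le (sb M.s) ?_
  rw [sub_sb_ck, stat_sb M, diamond_sb M, all_sb Ext_isCofOmega]
  simp only [compl_bot, top_inf_eq, inf_top_eq, top_le_iff]
  refine eq_top_iff.2 (le_iInf fun k => ?_)
  by_cases h : M.s k = ⊥
  · rw [h, bot_himp]
  · rw [isCofOmega_chk (M.cof k h), himp_top]

end

theorem exists_forcing {K : Type} [LinearOrder K] [WellFoundedLT K] (hK : Inac K) :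
    ∃ (P : Type) (_ : Preorder P), DirClosed #K P ∧ ChainCond #K P ∧
      Nonempty (DMod (RO P) K) := by
  have : Infinite K := Cardinal.infinite_iff.2 hK.unc.le
  obtain ⟨W, _, _, hW⟩ := exists_len K
  obtain ⟨dat, hdat⟩ := exists_dat (W := W) hK hW
  refine ⟨Qf dat, inferInstance, dirClosed hK, chainCond hK, ⟨?_⟩⟩
  refine
    { s := sN hK dat
      cof := fun α h => sN_cof hK h
      st := st_aux hK
      kill := fun x => ?_
      reg := reg_of_closed hK (chain_closed hK) }
  obtain ⟨i, hi⟩ := kill_aux hK hW hdat x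
  exact ⟨aN hK dat i, cN hK dat i, unb_cN hK i, clo_cN hK i, hi⟩

/-- For each inaccessible cardinal `κ` there is a `<κ`-directed closed forcing notion with the
`κ⁺`-chain condition which forces that `κ` is regular and that diamond fails on a stationary set of
points of cofinality `ω`. -/
theorem main (κ : Cardinal.{0}) (hκ : κ.IsInaccessible) :
    ∃ (P : Type) (_ : Preorder P), DirClosed κ P ∧ ChainCond κ P ∧
      isReg (ck (RO P) κ.ord.ToType) = ⊤ ∧ diamondFails (ck (RO P) κ.ord.ToType) = ⊤ := by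
  have h : #κ.ord.ToType = κ := by simp
  obtain ⟨P, _, h1, h2, ⟨M⟩⟩ := exists_forcing (inac_of hκ)
  rw [h] at h1 h2
  exact ⟨P, inferInstance, h1, h2, isReg_ck (inac_of hκ) M, diamondFails_eq_top M⟩

theorem main_ineffable (κ : Cardinal.{0}) (hκ : κ.IsInaccessible)
    (h : ∀ (P : Type) [Preorder P], DirClosed κ P → ChainCond κ P →
      isIneffable (ck (RO P) κ.ord.ToType) = ⊤) :
    ∃ (B : Type) (_ : CompleteBooleanAlgebra B) (_ : Nontrivial B), ineffableSentence B = ⊤ := by
  obtain ⟨P, _, h1, h2, -, h3⟩ := main κ hκ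
  have hP : Nonempty P := by
    obtain ⟨q, -⟩ := h1 ∅ (by
      rw [mk_eq_zero]
      exact hκ.pos) (by simp [DirectedOn])
    exact ⟨q⟩
  refine ⟨RO P, inferInstance, inferInstance, ?_⟩
  unfold ineffableSentence
  rw [← top_le_iff]
  refine le_iSup_of_le (ck (RO P) κ.ord.ToType) ?_
  rw [h P h1 h2, h3, inf_top_eq]

end Pool.Agent.LibDm83
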