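import Pool.Agent.LibDm83.Res

/-! Task Mix: order properties of `mix`. -/

namespace Pool.Agent.LibDm83

open Cardinal Set Pool.Agent.LibTk83

variable {W K : Type} [LinearOrder K]

/- Below, `X` is a set of coordinates, `t` has its coordinates in `X` and is stronger than the
restriction of `q` to `X`. -/
theorem mix_le_right {X : Set W} {t q : Raw W K} (hq : WF q) (h : t ≤ res X q) :
    mix X t q ≤ q := by
  have h' : RLe t (res X q) := h
  have hh : q.h ≤ t.h := h'.h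
  refine ⟨hh, ?_, ?_, ?_, ?_⟩
  · intro i hi
    by_cases hX : i ∈ X
    · exact Or.inl (h'.dom ⟨hi, hX⟩)
    · exact Or.inr ⟨hi, hX⟩
  · intro x hx
    exact h'.s x hx
  · intro i hi x hx
    by_cases hX : i ∈ X
    · have := h'.a i ⟨hi, hX⟩ x hx
      simp only [mix, res, mem_ofPred_eq] at this ⊢
      simp [hX] at this ⊢
      exact this
    · simp [mix, hX]
  · intro i hi x hx
    by_cases hX : i ∈ X
    · have := h'.c i ⟨hi, hX⟩ x hx
      simp only [mix, res, mem_ofPred_eq] at this ⊢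
      simp [hX] at this ⊢
      exact this
    · simp only [mix, mem_ofPred_eq, hX, false_and, not_false_eq_true, true_and, false_or]
      constructor
      · rintro (h1 | ⟨h1, -⟩)
        · exact h1
        · have h2 : x = q.h := le_antisymm hx (h1 ▸ hh)
          rw [h2]
          exact hq.top_c i hi
      · exact Or.inl

theorem mix_le_left {X : Set W} {t : Raw W K} (q : Raw W K) (hX : t.dom ⊆ X) : mix X t q ≤ t := by
  refine ⟨le_rfl, subset_union_left, fun _ _ => Iff.rfl, ?_, ?_⟩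
  · intro i hi x _
    have := hX hi
    simp [mix, this]
  · intro i hi x _
    have := hX hi
    simp [mix, this]

theorem res_mix {X : Set W} {t : Raw W K} (q : Raw W K) (ht : WF t) (hX : t.dom ⊆ X) :
    res X (mix X t q) = t := by
  refine Raw.ext' rfl rfl ?_ ?_ ?_
  · ext i
    constructor
    · rintro ⟨h1 | h1, h2⟩
      · exact h1
      · exact absurd h2 h1.2
    · intro h1
      exact ⟨Or.inl h1, hX h1⟩
  · intro i
    ext x
    constructor
    · rintro ⟨⟨_, h1⟩ | ⟨h1, _⟩, h2⟩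
      · exact h1
      · exact absurd h2 h1
    · intro h1
      have h2 := hX (ht.a_dom i x h1)
      exact ⟨Or.inl ⟨h2, h1⟩, h2⟩
  · intro i
    ext x
    constructor
    · rintro ⟨⟨_, h1⟩ | ⟨h1, _⟩, h2⟩
      · exact h1
      · exact absurd h2 h1
    · intro h1
      have h2 := hX (ht.c_dom i x h1)
      exact ⟨Or.inl ⟨h2, h1⟩, h2⟩

/- For `Y ⊆ X`. -/
theorem res_mix_of_subset {X Y : Set W} {t : Raw W K} (q : Raw W K) (hY : Y ⊆ X) :
    res Y (mix X t q) = res Y t := by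
  refine Raw.ext' rfl rfl ?_ ?_ ?_
  · ext i
    constructor
    · rintro ⟨h1 | h1, h2⟩
      · exact ⟨h1, h2⟩
      · exact absurd (hY h2) h1.2
    · rintro ⟨h1, h2⟩
      exact ⟨Or.inl h1, h2⟩
  · intro i
    ext x
    constructor
    · rintro ⟨⟨_, h1⟩ | ⟨h1, _⟩, h2⟩
      · exact ⟨h1, h2⟩
      · exact absurd (hY h2) h1
    · rintro ⟨h1, h2⟩
      exact ⟨Or.inl ⟨hY h2, h1⟩, h2⟩
  · intro i
    ext x
    constructor
    · rintro ⟨⟨_, h1⟩ | ⟨h1, _⟩, h2⟩
      · exact ⟨h1, h2⟩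
      · exact absurd (hY h2) h1
    · rintro ⟨h1, h2⟩
      exact ⟨Or.inl ⟨hY h2, h1⟩, h2⟩

/- `Clo`: if `g` is a limit of points of `q.c i ∪ {t.h}` then `g ≤ q.h` is a limit of points of
`q.c i`, or `g = t.h`... (points of `c i` below `g` are in `q.c i`, hence at most `q.h`, so
`g ≤ q.h`). -/
theorem WF_mix {X : Set W} {t q : Raw W K} (hK : Inac K) (ht : WF t) (hq : WF q)
    (h : t ≤ res X q) (hX : t.dom ⊆ X) : WF (mix X t q) := by
  have hh : q.h ≤ t.h := h.h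
  refine ⟨?_, ht.s_lt, ht.s_cof, ?_, ?_, ?_, ?_, ?_, ?_⟩
  · refine (mk_union_le _ _).trans_lt (add_lt_of_lt hK.unc.le ht.small ?_)
    exact (mk_le_mk_of_subset sdiff_subset).trans_lt hq.small
  · rintro i x (⟨_, h1⟩ | ⟨_, h1⟩)
    · exact ht.a_lt i x h1
    · exact (hq.a_lt i x h1).trans_le hh
  · rintro i x (⟨_, h1⟩ | ⟨_, h1 | ⟨h1, _⟩⟩)
    · exact ht.c_le i x h1
    · exact (hq.c_le i x h1).trans hh
    · exact h1.le
  · rintro i x (⟨_, h1⟩ | ⟨h2, h1⟩)
    · exact Or.inl (ht.a_dom i x h1)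
    · exact Or.inr ⟨hq.a_dom i x h1, h2⟩
  · rintro i x (⟨_, h1⟩ | ⟨h2, h1 | ⟨_, h1⟩⟩)
    · exact Or.inl (ht.c_dom i x h1)
    · exact Or.inr ⟨hq.c_dom i x h1, h2⟩
    · exact Or.inr ⟨h1, h2⟩
  · rintro i (h1 | h1)
    · exact Or.inl ⟨hX h1, ht.top_c i h1⟩
    · exact Or.inr ⟨h1.2, Or.inr ⟨rfl, h1.1⟩⟩
  · rintro i (h1 | h1)
    · intro g hg hb hlim
      refine Or.inl ⟨hX h1, ht.clo i h1 g hg hb fun b hb => ?_⟩
      obtain ⟨a, ⟨_, ha⟩ | ⟨ha, _⟩, hab, hag⟩ := hlim b hb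
      · exact ⟨a, ha, hab, hag⟩
      · exact absurd (hX h1) ha
    · intro g hg hb hlim
      have hlim' : ∀ b < g, ∃ a ∈ q.c i, b < a ∧ a < g := by
        intro b hb
        obtain ⟨a, ⟨ha, _⟩ | ⟨_, ha | ⟨ha, _⟩⟩, hab, hag⟩ := hlim b hb
        · exact absurd ha h1.2
        · exact ⟨a, ha, hab, hag⟩
        · exact absurd (ha ▸ hag) (not_lt.mpr hg)
      refine Or.inr ⟨h1.2, Or.inl ?_⟩
      by_cases hgq : g ≤ q.h
      · exact hq.clo i h1.1 g hgq hb hlim'
      · obtain ⟨a, ha, hab, _⟩ := hlim' q.h (not_le.mp hgq)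
        exact absurd hab (not_lt.mpr (hq.c_le i a ha))

end Pool.Agent.LibDm83
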