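import Pool.Agent.LibDm83.FoB
import Pool.Agent.LibDm83.Mix

/-! Task MixVal: `mix` preserves validity; raising the height. -/

namespace Pool.Agent.LibDm83

open Cardinal Set Pool.Agent.LibTk83

variable {W K : Type} [LinearOrder K] [LinearOrder W] [WellFoundedLT W]
  {dat : W → K → K → Bool → Set (Raw W K)}

/- `WF_mix`; for `j ∈ t.dom` the restrictions of `mix X t q` and `t` to `Iio j` are equal (`X` is a
lower set, `res_mix_of_subset`); for `j ∈ q.dom`, `j ∉ X` use `OkAt_mono` and `mix_le_right`: a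
point `α ∈ t.s` of `c j` is not `t.h`, hence in `q.c j`, at most `q.h`, hence in `q.s`. -/
theorem Val_mix {X : Set W} (hX : IsLowerSet X) {t q : Raw W K} (hK : Inac K) (ht : Val dat t)
    (hq : Val dat q) (h : t ≤ res X q) (hd : t.dom ⊆ X) : Val dat (mix X t q) := by
  refine ⟨WF_mix hK ht.1 hq.1 h hd, ?_⟩
  rintro j (hj | hj)
  · have hjX : j ∈ X := hd hj
    have hsub : Iio j ⊆ X := fun i hi => hX (le_of_lt hi) hjX
    rintro α (⟨_, hα⟩ | ⟨hα, _⟩) hs
    · obtain ⟨δ, hδ, b, hb, hF⟩ := ht.2 j hj α hα hs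
      refine ⟨δ, hδ, b, ?_, ?_⟩
      · rw [hb]
        simp [mix, hjX]
      · rw [res_mix_of_subset q hsub]
        exact hF
    · exact absurd hjX hα
  · refine OkAt_mono (hq.2 j hj.1) (res_mono _ (mix_le_right hq.1 h)) ?_
    rintro α (⟨hα, _⟩ | ⟨_, hα⟩) hs
    · exact absurd hα hj.2
    · have h1 : α ∈ q.c j := by
        rcases hα with hα | ⟨hα, _⟩
        · exact hα
        · exact absurd hα (ht.1.s_lt α hs).ne
      refine ⟨h1, (h.s α (hq.1.c_le j α h1)).mp hs, fun δ _ => ?_⟩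
      simp [mix, hj.2]

/-- Raise the height of a condition: this is `mix` for `X = ∅`. -/
theorem exists_up (hK : Inac K) {q : Raw W K} (hq : Val dat q) {H : K} (hH : q.h ≤ H) :
    ∃ r, Val dat r ∧ r ≤ q ∧ r.h = H ∧ r.s = q.s ∧ r.dom = q.dom ∧ (∀ i, r.a i = q.a i) := by
  obtain ⟨t, ht⟩ : ∃ t : Raw W K, t = ⟨H, q.s, ∅, fun _ => ∅, fun _ => ∅⟩ := ⟨_, rfl⟩
  have hWt : WF t := by
    rw [ht]
    refine ⟨?_, fun x hx => (hq.1.s_lt x hx).trans_le hH, hq.1.s_cof, ?_, ?_, ?_, ?_, ?_, ?_⟩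
    · rw [mk_emptyCollection]
      exact aleph0_pos.trans hK.unc
    all_goals intro i x
    · exact fun h => absurd h (notMem_empty _)
    · exact fun h => absurd h (notMem_empty _)
    · exact fun h => absurd h (notMem_empty _)
    · exact fun h => absurd h (notMem_empty _)
    · exact absurd x (notMem_empty _)
    · exact absurd x (notMem_empty _)
  have hVt : Val dat t := ⟨hWt, fun j hj => by rw [ht] at hj; exact absurd hj (notMem_empty _)⟩
  have hle : t ≤ res ∅ q := by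
    rw [ht]
    exact ⟨hH, fun i hi => absurd hi.2 (notMem_empty _), fun _ _ => Iff.rfl,
      fun i hi => absurd hi.2 (notMem_empty _), fun i hi => absurd hi.2 (notMem_empty _)⟩
  have hdt : t.dom ⊆ ∅ := by rw [ht]
  refine ⟨mix ∅ t q, Val_mix isLowerSet_empty hK hVt hq hle hdt, mix_le_right hq.1 hle, ?_, ?_, ?_,
    ?_⟩
  · rw [ht]; rfl
  · rw [ht]; rfl
  · rw [ht]; simp [mix]
  · intro i
    simp [mix]

end Pool.Agent.LibDm83
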