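import Pool.Agent.LibDm83.MixVal
import Pool.Agent.LibDm83.Enl

/-! Task NamesA: the generic sets have regular open truth values. -/

namespace Pool.Agent.LibDm83

open Cardinal Set Pool.Agent.LibTk83

variable {W K : Type} [LinearOrder K] [LinearOrder W] [WellFoundedLT W]
  {dat : W → K → K → Bool → Set (Raw W K)}

theorem s_lower {α : K} {p q : Raw W K} (hp : WF p) (h : q ≤ p) (hα : α ∈ p.s) : α ∈ q.s :=
  (h.s α (hp.s_lt α hα).le).2 hα

theorem a_lower {i : W} {α : K} {p q : Raw W K} (hp : WF p) (h : q ≤ p) (hα : α ∈ p.a i) :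
    α ∈ q.a i :=
  (h.a i (hp.a_dom i α hα) α (hp.a_lt i α hα)).2 hα

theorem c_lower {i : W} {α : K} {p q : Raw W K} (hp : WF p) (h : q ≤ p) (hα : α ∈ p.c i) :
    α ∈ q.c i :=
  (h.c i (hp.c_dom i α hα) α (hp.c_le i α hα)).2 hα

theorem NamesA_bd (hK : Inac K) (a b : K) : ∃ H, a < H ∧ b < H := by
  obtain ⟨H, hH⟩ := hK.bdd {a, b}
    ((Cardinal.mk_lt_aleph0_iff.2 (Set.toFinite _).to_subtype).trans hK.unc)
  exact ⟨H, hH a (by simp), hH b (by simp)⟩

/-- Each condition has an extension `q` of height larger than `α` with `i` among its coordinates,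
and nothing new is decided positively at `α`: `enl H {i} ∅ p` (`Inac.bdd` gives `H`). -/
theorem exists_ext (hK : Inac K) (i : W) (α : K) {p : Raw W K} (hp : Val dat p) :
    ∃ q ≤ p, Val dat q ∧ α < q.h ∧ i ∈ q.dom ∧ q.s = p.s ∧ q.a i = p.a i ∧
      (α ∈ q.c i → α ∈ p.c i) := by
  obtain ⟨H, hα, hpH⟩ := NamesA_bd hK α p.h
  have hsmall : #({i} : Set W) < #K :=
    (Cardinal.mk_lt_aleph0_iff.2 (Set.toFinite _).to_subtype).trans hK.unc
  refine ⟨enl H {i} ∅ p, enl_le hp.1 hpH, Val_enl hK hp hpH hsmall (Set.empty_subset _), hα,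
    Or.inr rfl, rfl, ?_, ?_⟩
  · ext x
    constructor
    · rintro (h | ⟨-, h⟩)
      · exact h
      · exact absurd h (Set.notMem_empty i)
    · exact fun h => Or.inl h
  · rintro (h | ⟨h, -⟩)
    · exact h
    · exact absurd h hα.ne

/- Take the extension `q` of `exists_ext`, and `r ≤ q` with `α ∈ r.s`; then `α ∈ q.s = p.s`. Similarly
below. (There may be no `i : W`; then use `exists_up` with a height larger than `α`.) -/
theorem s_reg (hK : Inac K) {α : K} {p : Raw W K} (hp : Val dat p)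
    (h : ∀ q ≤ p, Val dat q → ∃ r ≤ q, Val dat r ∧ α ∈ r.s) : α ∈ p.s := by
  obtain ⟨H, hα, hpH⟩ := NamesA_bd hK α p.h
  obtain ⟨q, hq, hqp, hqH, hqs, -, -⟩ := exists_up hK hp hpH.le
  obtain ⟨r, hr, -, hrs⟩ := h q hqp hq
  rw [← hqs]
  exact (hr.s α (by rw [hqH]; exact hα.le)).1 hrs

theorem a_reg (hK : Inac K) {i : W} {α : K} {p : Raw W K} (hp : Val dat p)
    (h : ∀ q ≤ p, Val dat q → ∃ r ≤ q, Val dat r ∧ α ∈ r.a i) : α ∈ p.a i := by
  obtain ⟨q, hqp, hq, hαq, hiq, -, hqa, -⟩ := exists_ext hK i α hp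
  obtain ⟨r, hr, -, hra⟩ := h q hqp hq
  rw [← hqa]
  exact (hr.a i hiq α hαq).1 hra

theorem c_reg (hK : Inac K) {i : W} {α : K} {p : Raw W K} (hp : Val dat p)
    (h : ∀ q ≤ p, Val dat q → ∃ r ≤ q, Val dat r ∧ α ∈ r.c i) : α ∈ p.c i := by
  obtain ⟨q, hqp, hq, hαq, hiq, -, -, hqc⟩ := exists_ext hK i α hp
  obtain ⟨r, hr, -, hrc⟩ := h q hqp hq
  exact hqc ((hr.c i hiq α hαq.le).1 hrc)

end Pool.Agent.LibDm83
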