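import Pool.Agent.LibDm83.PTow

/-! Task PInit: the first partial condition. -/

namespace Pool.Agent.LibDm83

open Cardinal Set Pool.Agent.LibTk83

variable {W K : Type} [LinearOrder K] [LinearOrder W] [WellFoundedLT W]
  {dat : W → K → K → Bool → Set (Raw W K)} {D : K → Set (Raw W K)} {p : Raw W K}

/- Take `v = ∅` and the condition of height `H > γ` (`Inac.bdd`) without coordinates, with
`s = T.S f ∪ {γ}`. The coordinates of `T.P n f` are in `U`, so none of them is in `T.Y ∅`. -/
theorem exists_part (hK : Inac K) (T : Tower dat D p) {γ : K} (hγ : IsLUB (range T.H) γ) :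
    Nonempty (Part T γ) := by
  obtain ⟨H, hH⟩ := hK.bdd {γ} (by
    rw [Cardinal.mk_singleton]
    exact Cardinal.one_lt_aleph0.trans hK.unc)
  have hH' : γ < H := hH γ rfl
  have hY : ∀ (n : ℕ) (i : W), i ∈ (T.P n fun _ => false).dom → i ∉ T.Y ∅ := by
    intro n i hi hY
    have h1 := T.dom_sub n (fun _ => false) hi
    exact lt_irrefl i (hY i h1 (by simp))
  refine ⟨{
    v := ∅
    f := fun _ => false
    r := ⟨H, T.S (fun _ => false) ∪ {γ}, ∅, fun _ => ∅, fun _ => ∅⟩
    sub := empty_subset _
    init := fun i hi => absurd hi (notMem_empty i)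
    val := ⟨{
      small := ?_
      s_lt := ?_
      s_cof := ?_
      a_lt := fun i x hx => absurd hx (notMem_empty x)
      c_le := fun i x hx => absurd hx (notMem_empty x)
      a_dom := fun i x hx => absurd hx (notMem_empty x)
      c_dom := fun i x hx => absurd hx (notMem_empty x)
      top_c := fun i hi => absurd hi (notMem_empty i)
      clo := fun i hi => absurd hi (notMem_empty i) }, fun j hj => absurd hj (notMem_empty j)⟩
    mem := Or.inr rfl
    dom := empty_subset _
    le := fun n => ?_ }⟩
  · change #(∅ : Set W) < #K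
    rw [Cardinal.mk_eq_zero]
    exact Cardinal.aleph0_pos.trans hK.unc
  · rintro x (hx | hx)
    · exact (T.S_lt hγ hx).trans hH'
    · rw [mem_singleton_iff] at hx
      exact hx ▸ hH'
  · rintro x (hx | hx)
    · exact T.S_cof hx
    · rw [mem_singleton_iff] at hx
      exact hx ▸ T.cofW hγ
  · have hh : (T.P n fun _ => false).h = T.H n := (T.sys n).h_eq _
    refine Raw.le_def.2 {
      h := ?_
      dom := fun i hi => absurd hi.2 (hY n i hi.1)
      s := fun x hx => ?_
      a := fun i hi => absurd hi.2 (hY n i hi.1)
      c := fun i hi => absurd hi.2 (hY n i hi.1) }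
    · change (T.P n fun _ => false).h ≤ H
      rw [hh]
      exact ((T.H_lt hγ n).trans hH').le
    · have hx' : x ≤ T.H n := by
        rw [← hh]; exact hx
      change x ∈ T.S (fun _ => false) ∪ {γ} ↔ x ∈ (T.P n fun _ => false).s
      rw [← T.mem_S hx']
      constructor
      · rintro (h | h)
        · exact h
        · rw [mem_singleton_iff] at h
          subst h
          exact absurd (T.H_lt hγ n) (not_lt.2 hx')
      · exact Or.inl

end Pool.Agent.LibDm83
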