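import Pool.Agent.LibDm83.Defs

/-! Task Small: cardinalities (only Mathlib and `Inac`). -/

namespace Pool.Agent.LibDm83

open Cardinal Set

variable {K : Type} [LinearOrder K]

/- A small union of small sets is small: `Inac.sum` and `Cardinal.mk_le_of_surjective` or
`mk_iUnion_le_sum_mk`. -/
theorem small_iUnion (hK : Inac K) {T ι : Type} {f : ι → Set T} (hι : #ι < #K)
    (hf : ∀ i, #(f i) < #K) : #(⋃ i, f i : Set T) < #K := by
  refine lt_of_le_of_lt Cardinal.mk_iUnion_le_sum_mk ?_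
  rw [← Cardinal.mk_sigma]
  exact hK.sum ι (fun i => f i) hι hf

private theorem mk_iUnion_le_K (hK : Inac K) {T ι : Type} (f : ι → Set T) (hι : #ι ≤ #K)
    (hf : ∀ i, #(f i) ≤ #K) : #(⋃ i, f i : Set T) ≤ #K := by
  refine Cardinal.mk_iUnion_le_sum_mk.trans ((Cardinal.sum_le_sum _ (fun _ => #K) hf).trans ?_)
  rw [Cardinal.sum_const']
  exact (mul_le_mul' hι le_rfl).trans (Cardinal.mul_eq_self hK.unc.le).le

/-- A set of cardinality at most `#K` has at most `#K` subsets of smaller cardinality.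

By an injection to `K` it is enough to consider `K`; a small subset of `K` is bounded (`bdd`), so
it is a subset of some `Iio b`, which has fewer than `#K` subsets (`pow`, `iio`). -/
theorem card_small_subsets (hK : Inac K) {T : Type} {D : Set T} (hD : #D ≤ #K) :
    #{Y : Set T // Y ⊆ D ∧ #Y < #K} ≤ #K := by
  obtain ⟨e⟩ := hD
  let G : (Σ b : K, Set (Iio b)) → Set T := fun x =>
    {y | ∃ h : y ∈ D, ∃ hb : e ⟨y, h⟩ < x.1, (⟨e ⟨y, h⟩, hb⟩ : Iio x.1) ∈ x.2}
  have h1 : {Y : Set T | Y ⊆ D ∧ #Y < #K} ⊆ range G := by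
    rintro Y ⟨hY, hYs⟩
    obtain ⟨b, hb⟩ := hK.bdd (range fun y : Y => e ⟨y.1, hY y.2⟩)
      (lt_of_le_of_lt Cardinal.mk_range_le hYs)
    refine ⟨⟨b, {z | ∃ y, ∃ hy : y ∈ Y, e ⟨y, hY hy⟩ = z.1}⟩, ?_⟩
    ext y
    constructor
    · rintro ⟨h, hb', y', hy', heq⟩
      have h2 := e.injective heq
      have h3 : y' = y := congrArg Subtype.val h2
      exact h3 ▸ hy'
    · intro hy
      exact ⟨hY hy, hb _ ⟨⟨y, hy⟩, rfl⟩, y, hy, rfl⟩
  have h2 : #(Σ b : K, Set (Iio b)) ≤ #K := by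
    rw [Cardinal.mk_sigma]
    refine (Cardinal.sum_le_sum _ (fun _ => #K) fun b => (hK.pow _ (hK.iio b)).le).trans ?_
    rw [Cardinal.sum_const']
    exact (Cardinal.mul_eq_self hK.unc.le).le
  exact (Cardinal.mk_le_mk_of_subset h1).trans (Cardinal.mk_range_le.trans h2)

/-- Closing off: if `g Y` has at most `#K` elements for each small `Y` then there is a set `Z` with
at most `#K` elements which contains `g Y` for each small subset `Y` of `Z`.

Let `Z b`, `b : K` be defined by well-founded recursion: the union of all `g Y`, `Y` a small subset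
of the union of the `Z a`, `a < b`. Then `Z b` has at most `#K` elements by `card_small_subsets`. A
small subset of the union of all `Z b` is contained in the union of `Z a`, `a < b` for some `b`,
by `bdd`. -/
theorem closing_off [WellFoundedLT K] (hK : Inac K) {T : Type} (g : Set T → Set T)
    (hg : ∀ Y : Set T, #Y < #K → #(g Y) ≤ #K) :
    ∃ Z : Set T, #Z ≤ #K ∧ ∀ Y ⊆ Z, #Y < #K → g Y ⊆ Z := by
  let F : (b : K) → ((a : K) → a < b → Set T) → Set T := fun b ih =>
    ⋃ Y : {Y : Set T // Y ⊆ (⋃ a : Iio b, ih a.1 a.2) ∧ #Y < #K}, g Y.1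
  let Z : K → Set T := (wellFounded_lt (α := K)).fix F
  have hZ : ∀ b, Z b = ⋃ Y : {Y : Set T // Y ⊆ (⋃ a : Iio b, Z a.1) ∧ #Y < #K}, g Y.1 :=
    fun b => (wellFounded_lt (α := K)).fix_eq F b
  have hc : ∀ b, #(Z b) ≤ #K := by
    intro b
    induction b using (wellFounded_lt (α := K)).induction with
    | _ b ih =>
      rw [hZ b]
      refine mk_iUnion_le_K hK _ (card_small_subsets hK ?_) fun Y => hg _ Y.2.2
      exact mk_iUnion_le_K hK _ (hK.iio b).le fun a => ih a.1 a.2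
  refine ⟨⋃ b, Z b, mk_iUnion_le_K hK _ le_rfl hc, ?_⟩
  intro Y hY hYs
  have hne : Nonempty K := Cardinal.mk_ne_zero_iff.1 (Cardinal.aleph0_pos.trans hK.unc).ne'
  choose! β hβ using fun y (hy : y ∈ Y) => mem_iUnion.1 (hY hy)
  obtain ⟨b, hb⟩ := hK.bdd (β '' Y) (lt_of_le_of_lt Cardinal.mk_image_le hYs)
  have h1 : Y ⊆ ⋃ a : Iio b, Z a.1 := by
    intro y hy
    exact mem_iUnion.2 ⟨⟨β y, hb _ ⟨y, hy, rfl⟩⟩, hβ y hy⟩
  have h2 : g Y ⊆ Z b := by
    rw [hZ b]
    exact subset_iUnion (fun Y : {Y : Set T // Y ⊆ (⋃ a : Iio b, Z a.1) ∧ #Y < #K} => g Y.1)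
      ⟨Y, h1, hYs⟩
  exact h2.trans (subset_iUnion Z b)

end Pool.Agent.LibDm83
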