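import Pool.Agent.LibDm83.Part
import Pool.Agent.LibDm83.Small

/-! Task PTow: easy properties of towers. -/

namespace Pool.Agent.LibDm83

open Cardinal Set Pool.Agent.LibTk83

variable {W K : Type} [LinearOrder K] [LinearOrder W] [WellFoundedLT W]
  {dat : W → K → K → Bool → Set (Raw W K)} {D : K → Set (Raw W K)} {p : Raw W K}

namespace Tower

variable (T : Tower dat D p)

theorem P_anti {n m : ℕ} (h : n ≤ m) (σ : W → Bool) : T.P m σ ≤ T.P n σ := by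
  induction m, h using Nat.le_induction with
  | base => exact le_rfl
  | succ m _ ih => exact (T.dec m σ).trans ih

theorem H_strictMono : StrictMono T.H := strictMono_nat_of_lt_succ T.lt

theorem H_lt {γ : K} (hγ : IsLUB (range T.H) γ) (n : ℕ) : T.H n < γ :=
  (T.lt n).trans_le (hγ.1 (mem_range_self (n + 1)))

theorem exists_lt_H {γ : K} (hγ : IsLUB (range T.H) γ) {β : K} (h : β < γ) : ∃ n, β < T.H n := by
  obtain ⟨_, ⟨n, rfl⟩, hn⟩ := (lt_isLUB_iff hγ).1 h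
  exact ⟨n, hn⟩

theorem cofW {γ : K} (hγ : IsLUB (range T.H) γ) : CofW γ :=
  ⟨T.H, fun n => T.H_lt hγ n, fun _ hb => T.exists_lt_H hγ hb⟩

theorem u_mono {n m : ℕ} (h : n ≤ m) : T.u n ⊆ T.u m :=
  monotone_nat_of_le_succ (f := T.u) T.mono h

theorem dom_sub (n : ℕ) (σ : W → Bool) : (T.P n σ).dom ⊆ T.U :=
  (T.dom n σ).trans (subset_iUnion T.u (n + 1))

theorem mem_dom {i : W} (hi : i ∈ T.U) (σ : W → Bool) : ∃ n, i ∈ (T.P n σ).dom := by
  obtain ⟨n, hn⟩ := mem_iUnion.1 hi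
  exact ⟨n, (T.sys n).sub σ hn⟩

theorem small_U (hK : Inac K) : #T.U < #K :=
  small_iUnion hK (by rw [Cardinal.mk_nat]; exact hK.unc) T.small

theorem isLowerSet_Y (v : Set W) : IsLowerSet (T.Y v) :=
  fun _ _ hba ha i hi hv => lt_of_le_of_lt hba (ha i hi hv)

/-- If `v` is an initial segment of `U`. -/
theorem Y_inter {v : Set W} (hv : v ⊆ T.U) (h : ∀ i ∈ v, ∀ j ∈ T.U, j ≤ i → j ∈ v) :
    T.U ∩ T.Y v = v := by
  ext j
  constructor
  · rintro ⟨h1, h2⟩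
    by_contra h3
    exact lt_irrefl j (h2 j h1 h3)
  · intro hj
    refine ⟨hv hj, fun i hi hiv => ?_⟩
    by_contra h3
    exact hiv (h j hj i hi (not_lt.1 h3))

theorem Y_mono {v w : Set W} (h : v ⊆ w) : T.Y v ⊆ T.Y w :=
  fun _ hj i hi hiw => hj i hi (fun hv => hiw (h hv))

theorem Y_U : T.Y T.U = Set.univ :=
  eq_univ_of_forall fun _ _ hi hi' => absurd hi hi'

theorem res_congr {X : Set W} (hX : IsLowerSet X) {σ τ : W → Bool}
    (h : ∀ i ∈ T.U, i ∈ X → σ i = τ i) (n : ℕ) : res X (T.P n σ) = res X (T.P n τ) :=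
  (T.sys n).coh X hX σ τ (fun i hi hiX => h i (mem_iUnion.2 ⟨n, hi⟩) hiX)

/-- The union of the `A i` of the members `P n σ`. -/
def A (σ : W → Bool) (i : W) : Set K := {x | ∃ n, x ∈ (T.P n σ).a i}

/-- The union of the `C i` of the members `P n σ`. -/
def C (σ : W → Bool) (i : W) : Set K := {x | ∃ n, x ∈ (T.P n σ).c i}

/-- The union of the `s` of the members `P n σ`. -/
def S (σ : W → Bool) : Set K := {x | ∃ n, x ∈ (T.P n σ).s}

theorem mem_A {σ : W → Bool} {i : W} {n : ℕ} (hi : i ∈ (T.P n σ).dom) {x : K} (hx : x < T.H n) :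
    x ∈ T.A σ i ↔ x ∈ (T.P n σ).a i := by
  refine ⟨?_, fun h => ⟨n, h⟩⟩
  rintro ⟨m, hm⟩
  rcases le_total m n with h | h
  · exact ((T.P_anti h σ).a i (((T.sys m).val σ).1.a_dom i x hm) x
      (((T.sys m).val σ).1.a_lt i x hm)).2 hm
  · exact ((T.P_anti h σ).a i hi x (by rw [(T.sys n).h_eq σ]; exact hx)).1 hm

theorem mem_C {σ : W → Bool} {i : W} {n : ℕ} (hi : i ∈ (T.P n σ).dom) {x : K} (hx : x ≤ T.H n) :
    x ∈ T.C σ i ↔ x ∈ (T.P n σ).c i := by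
  refine ⟨?_, fun h => ⟨n, h⟩⟩
  rintro ⟨m, hm⟩
  rcases le_total m n with h | h
  · exact ((T.P_anti h σ).c i (((T.sys m).val σ).1.c_dom i x hm) x
      (((T.sys m).val σ).1.c_le i x hm)).2 hm
  · exact ((T.P_anti h σ).c i hi x (by rw [(T.sys n).h_eq σ]; exact hx)).1 hm

theorem mem_S {σ : W → Bool} {n : ℕ} {x : K} (hx : x ≤ T.H n) :
    x ∈ T.S σ ↔ x ∈ (T.P n σ).s := by
  refine ⟨?_, fun h => ⟨n, h⟩⟩
  rintro ⟨m, hm⟩
  rcases le_total m n with h | h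
  · exact ((T.P_anti h σ).s x (((T.sys m).val σ).1.s_lt x hm).le).2 hm
  · exact ((T.P_anti h σ).s x (by rw [(T.sys n).h_eq σ]; exact hx)).1 hm

theorem A_lt {γ : K} (hγ : IsLUB (range T.H) γ) {σ : W → Bool} {i : W} {x : K}
    (hx : x ∈ T.A σ i) : x < γ := by
  obtain ⟨n, hn⟩ := hx
  have h1 := ((T.sys n).val σ).1.a_lt i x hn
  rw [(T.sys n).h_eq σ] at h1
  exact h1.trans (T.H_lt hγ n)

theorem C_lt {γ : K} (hγ : IsLUB (range T.H) γ) {σ : W → Bool} {i : W} {x : K}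
    (hx : x ∈ T.C σ i) : x < γ := by
  obtain ⟨n, hn⟩ := hx
  have h1 := ((T.sys n).val σ).1.c_le i x hn
  rw [(T.sys n).h_eq σ] at h1
  exact h1.trans_lt (T.H_lt hγ n)

theorem S_lt {γ : K} (hγ : IsLUB (range T.H) γ) {σ : W → Bool} {x : K}
    (hx : x ∈ T.S σ) : x < γ := by
  obtain ⟨n, hn⟩ := hx
  have h1 := ((T.sys n).val σ).1.s_lt x hn
  rw [(T.sys n).h_eq σ] at h1
  exact h1.trans (T.H_lt hγ n)

theorem S_cof {σ : W → Bool} {x : K} (hx : x ∈ T.S σ) : CofW x := by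
  obtain ⟨n, hn⟩ := hx
  exact ((T.sys n).val σ).1.s_cof x hn

/- For `g < γ` take `n` with `g < H n` and `i ∈ (P n σ).dom`. -/
theorem C_clo {γ : K} (hγ : IsLUB (range T.H) γ) {σ : W → Bool} {i : W} (hi : i ∈ T.U) {g : K}
    (hg : g < γ) (h0 : ∃ b, b < g) (h : ∀ b < g, ∃ a ∈ T.C σ i, b < a ∧ a < g) :
    g ∈ T.C σ i := by
  obtain ⟨n₁, h1⟩ := T.exists_lt_H hγ hg
  obtain ⟨n₂, h2⟩ := T.mem_dom hi σ
  have h3 : g < T.H (max n₁ n₂) := h1.trans_le (T.H_strictMono.monotone (le_max_left _ _))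
  have h4 : i ∈ (T.P (max n₁ n₂) σ).dom := (T.P_anti (le_max_right n₁ n₂) σ).dom h2
  refine ⟨max n₁ n₂, ((T.sys _).val σ).1.clo i h4 g ?_ h0 ?_⟩
  · rw [(T.sys _).h_eq σ]
    exact h3.le
  · intro b hb
    obtain ⟨a, ha, hba, hag⟩ := h b hb
    exact ⟨a, (T.mem_C h4 (hag.trans h3).le).1 ha, hba, hag⟩

end Tower

end Pool.Agent.LibDm83
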