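import Pool.Agent.LibDm83.FoB

/-! Definition of the partial final conditions. -/

namespace Pool.Agent.LibDm83

open Cardinal Set Pool.Agent.LibTk83

section

variable {W K : Type} [LinearOrder K] [LinearOrder W] [WellFoundedLT W]
  {dat : W → K → K → Bool → Set (Raw W K)} {D : K → Set (Raw W K)} {p : Raw W K}

/-- The coordinates of the tower. -/
def Tower.U (T : Tower dat D p) : Set W := ⋃ n, T.u n

/-- The lower set of the coordinates which are before all elements of `U` outside of `v`. -/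
def Tower.Y (T : Tower dat D p) (v : Set W) : Set W := {j | ∀ i ∈ T.U, i ∉ v → j < i}

/-- A condition with `γ ∈ S` on an initial segment `v` of the coordinates of the tower, stronger
than the members of the tower for a function `f` on `v`. -/
structure Part (T : Tower dat D p) (γ : K) where
  v : Set W
  f : W → Bool
  r : Raw W K
  sub : v ⊆ T.U
  init : ∀ i ∈ v, ∀ j ∈ T.U, j ≤ i → j ∈ v
  val : Val dat r
  mem : γ ∈ r.s
  dom : r.dom ⊆ T.Y v
  le : ∀ n, r ≤ res (T.Y v) (T.P n f)

instance (T : Tower dat D p) (γ : K) : Preorder (Part T γ) where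
  le x y := y.v ⊆ x.v ∧ (∀ i ∈ y.v, x.f i = y.f i) ∧ x.r ≤ y.r
  le_refl _ := ⟨subset_rfl, fun _ _ => rfl, le_rfl⟩
  le_trans _ _ _ h h' := ⟨h'.1.trans h.1, fun i hi => (h.2.1 i (h'.1 hi)).trans (h'.2.1 i hi),
    h.2.2.trans h'.2.2⟩

/-- Add the coordinate `i`, with `A i = A` and `C i = C ∪ {r.h}`. -/
def addc {W K : Type} (i : W) (A C : Set K) (r : Raw W K) : Raw W K where
  h := r.h
  s := r.s
  dom := insert i r.dom
  a := fun j => {x | x ∈ r.a j ∨ (j = i ∧ x ∈ A)}
  c := fun j => {x | x ∈ r.c j ∨ (j = i ∧ (x ∈ C ∨ x = r.h))}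

end

end Pool.Agent.LibDm83
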