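import Pool.Agent.LibDm83.WCard
import Pool.Agent.LibDm83.Small

/-! Task RawCard: the number of the names. -/

namespace Pool.Agent.LibDm83

open Cardinal Set

variable {W K : Type} [LinearOrder K] [LinearOrder W]

private theorem RawCard_inf (hK : Inac K) (hW : Len W K) : ℵ₀ ≤ #W := hK.unc.le.trans hW.le

private theorem RawCard_graph (hK : Inac K) {D : Set W} (hD : #D < #K) (a : W → Set K)
    (ha : ∀ i, ∀ x ∈ a i, i ∈ D) : #{z : W × K | z.2 ∈ a z.1} ≤ #K := by
  have h1 : {z : W × K | z.2 ∈ a z.1} ⊆ D ×ˢ (univ : Set K) := by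
    rintro ⟨i, x⟩ hx
    exact ⟨ha i x hx, mem_univ _⟩
  refine (Cardinal.mk_le_mk_of_subset h1).trans ?_
  rw [Cardinal.mk_setProd, Cardinal.mk_univ]
  exact (mul_le_mul_left hD.le _).trans (Cardinal.mul_eq_self hK.unc.le).le

private theorem RawCard_setK (hK : Inac K) (hW : Len W K) : #(Set K) ≤ #W := by
  rw [Cardinal.mk_set]
  refine (Cardinal.power_le_power_right ?_).trans hW.pow.le
  exact (Cardinal.nat_lt_aleph0 2).le.trans (RawCard_inf hK hW)

private theorem RawCard_bdd (hK : Inac K) (hW : Len W K) {T : Type} (hT : #T ≤ #W) :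
    #{D : Set T // #D ≤ #K} ≤ #W := by
  refine (Cardinal.mk_bounded_set_le T #K).trans ?_
  refine (Cardinal.power_le_power_right ?_).trans hW.pow.le
  exact max_le hT (RawCard_inf hK hW)

private theorem RawCard_mul (hK : Inac K) (hW : Len W K) {a b : Cardinal} (ha : a ≤ #W)
    (hb : b ≤ #W) : a * b ≤ #W :=
  (mul_le_mul' ha hb).trans (Cardinal.mul_eq_self (RawCard_inf hK hW)).le

/- A well-formed raw condition is determined by its height, by `s`, by `dom` and by the graphs of `a`
and `c`, which are subsets with at most `#K` elements of sets with `#W` elements; see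
`Cardinal.mk_bounded_set_le_of_infinite` (`#W ^ #K = #W`). -/
theorem card_WF_le (hK : Inac K) (hW : Len W K) : #{p : Raw W K // WF p} ≤ #W := by
  have hWK : #(W × K) ≤ #W := by
    rw [Cardinal.mk_prod, Cardinal.lift_id, Cardinal.lift_id]
    exact RawCard_mul hK hW le_rfl hW.le
  have hG := RawCard_bdd hK hW hWK
  have hD := RawCard_bdd hK hW (le_refl #W)
  let f : {p : Raw W K // WF p} → K × Set K × {D : Set W // #D ≤ #K} ×
      {G : Set (W × K) // #G ≤ #K} × {G : Set (W × K) // #G ≤ #K} := fun p =>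
    (p.1.h, p.1.s, ⟨p.1.dom, p.2.small.le⟩,
      ⟨{z : W × K | z.2 ∈ p.1.a z.1}, RawCard_graph hK p.2.small p.1.a p.2.a_dom⟩,
      ⟨{z : W × K | z.2 ∈ p.1.c z.1}, RawCard_graph hK p.2.small p.1.c p.2.c_dom⟩)
  have hf : Function.Injective f := by
    rintro ⟨⟨h, s, dom, a, c⟩, hp⟩ ⟨⟨h', s', dom', a', c'⟩, hq⟩ hpq
    simp only [f, Prod.mk.injEq, Subtype.mk.injEq] at hpq
    obtain ⟨e1, e2, e3, e4, e5⟩ := hpq
    have e6 : a = a' := by
      funext i
      ext x
      exact Set.ext_iff.mp e4 (i, x)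
    have e7 : c = c' := by
      funext i
      ext x
      exact Set.ext_iff.mp e5 (i, x)
    subst e1 e2 e3 e6 e7
    rfl
  refine (Cardinal.mk_le_of_injective hf).trans ?_
  simp only [Cardinal.mk_prod, Cardinal.lift_id]
  exact RawCard_mul hK hW hW.le (RawCard_mul hK hW (RawCard_setK hK hW)
    (RawCard_mul hK hW hD (RawCard_mul hK hW hG hG)))

/-- The number of names for sequences. -/
theorem card_names_le (hK : Inac K) (hW : Len W K) :
    #{ν : K → K → Bool → Set (Raw W K) //
      ∀ α δ b, #(ν α δ b) ≤ #K ∧ ∀ g ∈ ν α δ b, WF g} ≤ #W := by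
  have hT := RawCard_bdd hK hW (card_WF_le hK hW)
  let f : {ν : K → K → Bool → Set (Raw W K) //
      ∀ α δ b, #(ν α δ b) ≤ #K ∧ ∀ g ∈ ν α δ b, WF g} →
      (K → K → Bool → {D : Set {p : Raw W K // WF p} // #D ≤ #K}) := fun ν α δ b =>
    ⟨Subtype.val ⁻¹' ν.1 α δ b, by
      refine (Cardinal.mk_preimage_of_injective _ _ Subtype.val_injective).trans ?_
      exact (ν.2 α δ b).1⟩
  have hf : Function.Injective f := by
    rintro ⟨ν, hν⟩ ⟨ν', hν'⟩ h
    rw [Subtype.mk.injEq]
    funext α δ b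
    have h1 : (Subtype.val ⁻¹' ν α δ b : Set {p : Raw W K // WF p}) =
        Subtype.val ⁻¹' ν' α δ b :=
      congrArg Subtype.val (congrFun (congrFun (congrFun h α) δ) b)
    ext g
    constructor
    · intro hg
      exact (Set.ext_iff.mp h1 ⟨g, (hν α δ b).2 g hg⟩).mp hg
    · intro hg
      exact (Set.ext_iff.mp h1 ⟨g, (hν' α δ b).2 g hg⟩).mpr hg
  refine (Cardinal.mk_le_of_injective hf).trans ?_
  have hpow : ∀ T : Type, #T ≤ #W → #(K → T) ≤ #W := by
    intro T hT
    rw [← Cardinal.power_def T K]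
    exact (Cardinal.power_le_power_right hT).trans hW.pow.le
  refine hpow _ (hpow _ ?_)
  rw [← Cardinal.power_def _ Bool]
  refine (Cardinal.power_le_power_right hT).trans ?_
  rw [Cardinal.mk_bool]
  exact (Cardinal.power_nat_le (n := 2) (RawCard_inf hK hW))

end Pool.Agent.LibDm83
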