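import Pool.Agent.LibDm83.Lim
import Pool.Agent.LibDm83.Tasks

/-! Task SysLim: limits of systems, rounds. -/

namespace Pool.Agent.LibDm83

open Cardinal Set Pool.Agent.LibTk83

variable {W K : Type} [LinearOrder K] [LinearOrder W] [WellFoundedLT W] [WellFoundedLT K]
  {dat : W → K → K → Bool → Set (Raw W K)}

/-- The systems for given `u` and `m`. -/
def Sy (dat : W → K → K → Bool → Set (Raw W K)) (u : Set W) (m : W → K) : Type :=
  {x : K × ((W → Bool) → Raw W K) // IsSys dat u m x.1 x.2}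

instance (u : Set W) (m : W → K) : Preorder (Sy dat u m) where
  le x y := ∀ σ, x.1.2 σ ≤ y.1.2 σ
  le_refl _ _ := le_rfl
  le_trans _ _ _ h h' σ := (h σ).trans (h' σ)

/- Let `H` be the least upper bound of the heights of the members of `C` (`exists_lub`) and let
`P σ = lim H fun x : C => x.1.1.2 σ`; `Val_lim`, `lim_le`, `res_lim`. If `C` is empty take `x₀`. -/
theorem sys_closed (hK : Inac K) {u : Set W} {m : W → K} (x₀ : Sy dat u m)
    (C : Set (Sy dat u m)) (hC : IsChain (· ≤ ·) C) (h : #C < #K) : ∃ y, ∀ x ∈ C, y ≤ x := by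
  rcases C.eq_empty_or_nonempty with hE | hne
  · exact ⟨x₀, fun x hx => by rw [hE] at hx; exact absurd hx (notMem_empty _)⟩
  have hCn : Nonempty C := hne.to_subtype
  obtain ⟨H, hH⟩ := exists_lub hK h (fun x : C => x.1.1.1)
  have hP : ∀ σ, ∃ p : C → Raw W K, ∀ x, p x = x.1.1.2 σ := fun σ => ⟨_, fun _ => rfl⟩
  choose p hp using hP
  have hv : ∀ σ k, Val dat (p σ k) := fun σ k => by rw [hp]; exact k.1.2.val σ
  have hd : ∀ σ, Dir (p σ) := by
    intro σ k l
    by_cases hkl : k = l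
    · subst hkl
      exact ⟨k, le_rfl, le_rfl⟩
    · have hkl' : k.1 ≠ l.1 := fun hh => hkl (Subtype.ext hh)
      rcases hC k.2 l.2 hkl' with h1 | h1
      · exact ⟨k, le_rfl, by rw [hp, hp]; exact h1 σ⟩
      · exact ⟨l, by rw [hp, hp]; exact h1 σ, le_rfl⟩
  have hH' : ∀ σ, IsLUB (range fun k => (p σ k).h) H := by
    intro σ
    have : (fun k => (p σ k).h) = fun x : C => x.1.1.1 := by
      funext k
      rw [hp, k.1.2.h_eq]
    rw [this]
    exact hH
  have hsys : IsSys dat u m H (fun σ => lim H (p σ)) := by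
    refine ⟨fun σ => Val_lim hK h (hv σ) (hd σ) (hH' σ), fun _ => rfl, ?_, ?_, ?_, ?_⟩
    · intro σ i hi
      obtain ⟨k⟩ := hCn
      exact ⟨k, by rw [hp]; exact k.1.2.sub σ hi⟩
    · intro X hX σ τ hστ
      rw [res_lim, res_lim]
      congr 1
      funext k
      rw [hp, hp]
      exact k.1.2.coh X hX σ τ hστ
    · intro i hi
      obtain ⟨k⟩ := hCn
      exact (k.1.2.lt i hi).trans_le (hH.1 ⟨k, rfl⟩)
    · intro σ i hi
      constructor
      · rintro ⟨k, hk⟩
        rw [hp] at hk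
        exact (k.1.2.mark σ i hi).mp hk
      · intro hs
        obtain ⟨k⟩ := hCn
        exact ⟨k, by rw [hp]; exact (k.1.2.mark σ i hi).mpr hs⟩
  refine ⟨⟨(H, fun σ => lim H (p σ)), hsys⟩, fun x hx σ => ?_⟩
  have h1 := lim_le (fun k => (hv σ k).1) (hd σ) (hH' σ) ⟨x, hx⟩
  rw [hp] at h1
  exact h1

end Pool.Agent.LibDm83
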