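import Pool.Agent.LibDm83.Insert
import Pool.Agent.LibDm83.SysLim

/-! Task Round: a round, all members of a system enter a dense set. -/

namespace Pool.Agent.LibDm83

open Cardinal Set Pool.Agent.LibTk83

variable {W K : Type} [LinearOrder K] [LinearOrder W] [WellFoundedLT W] [WellFoundedLT K]
  {dat : W → K → K → Bool → Set (Raw W K)}

/- `P σ` only depends on the values of `σ` on `u` (`coh` for `X = univ`, `res_eq_self`); there are
fewer than `#K` functions on `u` (`Inac.pow`). Use `tasks'` for the systems below the given one,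
with a task for each function `t : u → Bool`: all `P σ` with `σ = t` on `u` are in `D`; it can be
done by `insert_sys`. -/
theorem round (hK : Inac K) {u : Set W} {m : W → K} {H : K} {P : (W → Bool) → Raw W K}
    (h : IsSys dat u m H P) (hu : #u < #K) (D : Set (Raw W K))
    (hD : ∀ q ∈ D, ∀ r ≤ q, Val dat r → r ∈ D)
    (hden : ∀ σ, ∀ q ≤ P σ, Val dat q → ∃ r ≤ q, Val dat r ∧ r ∈ D) :
    ∃ H' P', IsSys dat u m H' P' ∧ (∀ σ, P' σ ≤ P σ) ∧ ∀ σ, P' σ ∈ D := by
  classical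
  let x₀ : Sy dat u m := ⟨(H, P), h⟩
  let sg : Set u → W → Bool := fun Y i => decide (∃ hi : i ∈ u, (⟨i, hi⟩ : u) ∈ Y)
  -- the members only depend on the values on `u`
  have hsg : ∀ (y : Sy dat u m) (σ : W → Bool), ∃ Y, y.1.2 σ = y.1.2 (sg Y) := by
    intro y σ
    obtain ⟨Y, hY⟩ : ∃ Y : Set u, ∀ i : u, i ∈ Y ↔ σ i = true :=
      ⟨{i : u | σ i = true}, fun i => Iff.rfl⟩
    refine ⟨Y, ?_⟩
    have h2 : res Set.univ (y.1.2 σ) = res Set.univ (y.1.2 (sg Y)) := by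
      refine y.2.coh Set.univ isLowerSet_univ _ _ fun i hi _ => ?_
      by_cases hb : σ i = true
      · rw [hb]
        symm
        change decide _ = true
        rw [decide_eq_true_iff]
        exact ⟨hi, (hY _).2 hb⟩
      · have hb' : σ i = false := by simpa using hb
        rw [hb']
        symm
        change decide _ = false
        rw [decide_eq_false_iff_not]
        rintro ⟨_, h3⟩
        exact hb ((hY _).1 h3)
    rwa [res_eq_self (y.2.val _).1 (Set.subset_univ _),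
      res_eq_self (y.2.val _).1 (Set.subset_univ _)] at h2
  have hcl : ∀ C : Set {y : Sy dat u m // y ≤ x₀}, IsChain (· ≤ ·) C → #C < #K →
      ∃ y, ∀ x ∈ C, y ≤ x := by
    intro C hC hCc
    rcases C.eq_empty_or_nonempty with hne | ⟨z, hz⟩
    · refine ⟨⟨x₀, le_refl _⟩, fun x hx => ?_⟩
      rw [hne] at hx
      exact absurd hx (Set.notMem_empty x)
    · have h1 : IsChain (· ≤ ·) (Subtype.val '' C : Set (Sy dat u m)) := by
        rintro _ ⟨a, ha, rfl⟩ _ ⟨b, hb, rfl⟩ hab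
        have hab' : a ≠ b := fun h => hab (by rw [h])
        exact hC ha hb hab'
      obtain ⟨y, hy⟩ := sys_closed hK x₀ (Subtype.val '' C) h1 (mk_image_le.trans_lt hCc)
      exact ⟨⟨y, (hy _ ⟨z, hz, rfl⟩).trans z.2⟩, fun x hx => hy _ ⟨x, hx, rfl⟩⟩
  obtain ⟨y, -, hy⟩ := tasks' hK.unc.le hcl (hK.pow _ hu)
    (fun Y => {y : {y : Sy dat u m // y ≤ x₀} | y.1.1.2 (sg Y) ∈ D})
    (fun Y x hx y hyx => hD _ hx _ (hyx (sg Y)) (y.1.2.val _))
    (by
      intro Y x
      obtain ⟨r, hr1, hr2, hr3⟩ := hden (sg Y) (x.1.1.2 (sg Y)) (x.2 (sg Y)) (x.1.2.val _)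
      obtain ⟨P', hP1, hP2, hP3⟩ := insert_sys hK x.1.2 (sg Y) hr2 hr1
      refine ⟨⟨⟨(r.h, P'), hP1⟩, fun σ => (hP2 σ).trans (x.2 σ)⟩, fun σ => hP2 σ, ?_⟩
      exact hD r hr3 _ hP3 (hP1.val _))
    ⟨x₀, le_refl _⟩
  refine ⟨y.1.1.1, y.1.1.2, y.1.2, fun σ => y.2 σ, fun σ => ?_⟩
  obtain ⟨Y, hY⟩ := hsg y.1 σ
  rw [hY]
  exact hy Y

end Pool.Agent.LibDm83
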