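import Pool.Agent.LibDm83.Sent
import Pool.Agent.LibTk83.V3

/-! Task VB1: names of subsets; the formulas respect equality. -/

namespace Pool.Agent.LibDm83

open Pool.Agent.LibPlas90 Pool.Agent.LibPlas90.BSet Pool.Agent.LibTk83

/-- The name of a subset of a well-ordered type. -/
noncomputable def sb {B K : Type} [CompleteBooleanAlgebra B] [LinearOrder K] [WellFoundedLT K]
    (x : K → B) : BSet B := mk K chk x

variable {B K : Type} [CompleteBooleanAlgebra B] [LinearOrder K] [WellFoundedLT K]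

/- Like `mem_rl` in `LibTk83/V3.lean`. -/
theorem mem_sb (x : K → B) (k : K) : mem (chk k) (sb x) = x k := by
  unfold sb
  rw [mem_mk]
  apply le_antisymm
  · refine iSup_le fun j => ?_
    by_cases h : k = j
    · subst h
      exact inf_le_left
    · rw [eq_chk h, inf_bot_eq]
      exact bot_le
  · refine le_iSup_of_le k ?_
    rw [BSet.eq_refl, inf_top_eq]

theorem all_sb {φ : BSet B → B} (h : Ext φ) (x : K → B) :
    all (sb x) φ = ⨅ k, (x k ⇨ φ (chk k)) := by
  unfold sb
  exact all_mk h _ _ _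

theorem ex_sb {φ : BSet B → B} (h : Ext φ) (x : K → B) :
    ex (sb x) φ = ⨆ k, (x k ⊓ φ (chk k)) := by
  unfold sb
  exact ex_mk h _ _ _

theorem sub_sb_ck (x : K → B) : sub (sb x) (ck B K) = ⊤ := by
  unfold sub
  rw [all_sb (Ext.mem_left _)]
  refine top_le_iff.mp (le_iInf fun k => ?_)
  rw [mem_chk_ck, himp_top]

/- Like `mem_chk`: -/
theorem all_chk {φ : BSet B → B} (h : Ext φ) (i : K) :
    all (chk i) φ = ⨅ j, ⨅ (_ : j < i), φ (chk j) := by
  rw [chk_eq, all_mk h, iInf_subtype]
  simp only [top_himp]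

theorem ex_chk {φ : BSet B → B} (h : Ext φ) (i : K) :
    ex (chk i) φ = ⨆ j, ⨆ (_ : j < i), φ (chk j) := by
  rw [chk_eq, ex_mk h, iSup_subtype]
  simp only [top_inf_eq]

theorem mem_chk_chk (i j : K) [Decidable (j < i)] :
    mem (chk j : BSet B) (chk i) = if j < i then ⊤ else ⊥ := by
  split_ifs with h
  · exact mem_chk_of_lt h
  · rw [mem_chk]
    refine le_bot_iff.1 (iSup₂_le fun l hl => ?_)
    rw [eq_chk]
    rintro rfl
    exact h hl

private theorem VB1_equiv {φ ψ : BSet B → B} (h : Ext φ) (h' : Ext ψ) :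
    Ext (fun x => equiv (φ x) (ψ x)) :=
  Ext.inf (Ext.himp h h') (Ext.himp h' h)

/- The formulas respect equality; combinators of `LibPlas90/BBasic.lean`, `LibPlas90/Pairs.lean`,
`LibTk83/V0.lean`. -/
theorem Ext_isTrans : Ext (isTrans : BSet B → B) :=
  Ext_all (φ := fun x y => sub y x) fun y => Ext_sub_right y

theorem Ext_isOmega : Ext (isOmega : BSet B → B) :=
  Ext.inf (Ext.inf (Ext_ex_left isEmpty)
    (Ext_all (φ := fun v x => ex v fun y => isAdd y x x) fun x => Ext_ex_left _))
    (Ext.iInf fun v => Ext.himp (Ext.const _) (Ext_sub_left v))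

theorem Ext_isMap_2 (f Y : BSet B) : Ext (fun X => isMap f X Y) :=
  Ext.inf (Ext_all_left _) (Ext_all_left _)

theorem Ext_isMap_3 (f X : BSet B) : Ext (fun Y => isMap f X Y) :=
  Ext.inf (Ext.all (R := X) (φ := fun Y x => ex Y fun y => rel f x y) fun x => Ext_ex_left _)
    (Ext.all (R := X) (φ := fun Y x => all Y fun y => all Y fun y' =>
      rel f x y ⊓ rel f x y' ⇨ eq y y') fun x =>
      Ext_all (φ := fun Y y => all Y fun y' => rel f x y ⊓ rel f x y' ⇨ eq y y')
        fun y => Ext_all_left _)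

theorem Ext_isCofOmega : Ext (isCofOmega : BSet B → B) :=
  Ext.iSup fun w => Ext.inf (Ext.const _) (Ext.iSup fun f => Ext.inf (Ext_isMap_3 f w)
    (Ext_all (φ := fun a b => ex w fun n => ex a fun c => rel f n c ⊓ mem b c)
      fun b => Ext.ex (R := w) (φ := fun a n => ex a fun c => rel f n c ⊓ mem b c)
        fun n => Ext_ex_left _))

theorem Ext_guess (F X : BSet B) : Ext (guess F X) :=
  Ext.iSup fun A => Ext.inf (Ext.rel1 F A)
    (Ext.iInf fun t => VB1_equiv (Ext.const _) (Ext.inf (Ext.const _) (Ext.mem_right t)))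

theorem Ext_fam (F : BSet B) : Ext (fun a : BSet B =>
    ⨆ A : BSet B, rel F a A ⊓ sub A a ⊓ ⨅ A' : BSet B, rel F a A' ⇨ eq A' A) :=
  Ext.iSup fun A => Ext.inf (Ext.inf (Ext.rel1 F A) (Ext_sub_right A))
    (Ext.iInf fun A' => Ext.himp (Ext.rel1 F A') (Ext.const _))

/-- The first requirement on a closed unbounded set. -/
theorem Ext_club1 (C : BSet B) : Ext (fun a : BSet B => ex C fun b => mem a b) :=
  Ext.ex (R := C) (φ := fun a b => mem a b) fun b => Ext.mem_left b

theorem Ext_club2 (C : BSet B) : Ext (fun g : BSet B =>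
    (ex g fun _ => ⊤) ⊓ (all g fun a => ex g fun b => mem a b ⊓ mem b C) ⇨ mem g C) :=
  Ext.himp (Ext.inf (Ext_ex_left _)
    (Ext_all (φ := fun g a => ex g fun b => mem a b ⊓ mem b C) fun a => Ext_ex_left _))
    (Ext.mem_left C)

theorem Ext_reg (k : BSet B) : Ext (fun a : BSet B => ⨅ f : BSet B, isMap f a k ⇨
    ex k fun b => all a fun x => all k fun y => rel f x y ⇨ mem y b) :=
  Ext.iInf fun f => Ext.himp (Ext_isMap_2 f k)
    (Ext.ex (R := k) (φ := fun a b => all a fun x => all k fun y => rel f x y ⇨ mem y b)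
      fun b => Ext_all_left _)

end Pool.Agent.LibDm83
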