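import Pool.Agent.LibDm83.VB1
import Pool.Agent.LibDm83.Names

/-! Task VB2: closed unbounded sets in the Boolean-valued universe. -/

namespace Pool.Agent.LibDm83

open Pool.Agent.LibPlas90 Pool.Agent.LibPlas90.BSet Pool.Agent.LibTk83

variable {B K : Type} [CompleteBooleanAlgebra B] [LinearOrder K] [WellFoundedLT K]

private theorem VB2_Ext (C : BSet B) (γ : K) :
    Ext (fun a : BSet B => ex (chk γ) fun b => mem a b ⊓ mem b C) :=
  Ext.ex (R := chk γ) (φ := fun a b => mem a b ⊓ mem b C)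
    fun b => Ext.inf (Ext.mem_left b) (Ext.const _)

private theorem VB2_all (C : BSet B) (γ : K) :
    all (chk γ) (fun a => ex (chk γ) fun b => mem a b ⊓ mem b C) =
      ⨅ β, ⨅ (_ : β < γ), ⨆ α, ⨆ (_ : β < α ∧ α < γ), mem (chk α) C := by
  rw [all_chk (VB2_Ext C γ)]
  refine iInf_congr fun β => iInf_congr fun _ => ?_
  have hE : Ext (fun b : BSet B => mem (chk β) b ⊓ mem b C) :=
    Ext.inf (Ext.mem_right _) (Ext.mem_left _)
  rw [ex_chk hE]
  apply le_antisymm
  · refine iSup_le fun α => iSup_le fun hα => ?_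
    by_cases h : β < α
    · exact inf_le_right.trans (le_iSup₂_of_le α ⟨h, hα⟩ le_rfl)
    · have h2 : mem (chk β : BSet B) (chk α) = ⊥ := by
        classical
        rw [mem_chk_chk, if_neg h]
      rw [h2, bot_inf_eq]
      exact bot_le
  · refine iSup_le fun α => iSup_le fun hα => ?_
    refine le_iSup₂_of_le α hα.2 ?_
    rw [mem_chk_of_lt hα.1, top_inf_eq]

/- `sub_sb_ck`, `all_ck`, `ex_sb`, `all_chk`, `ex_chk`, `mem_chk_chk`, `mem_sb`; if there is no
`b < γ` then `ex (chk γ) fun _ => ⊤` is `⊥`. -/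
theorem isClub_sb (c : K → B) : unbB c ⊓ cloB c ≤ isClub (ck B K) (sb c) := by
  unfold isClub
  rw [sub_sb_ck, top_inf_eq]
  refine inf_le_inf ?_ ?_
  · rw [all_ck (Ext_club1 _)]
    unfold unbB
    refine iInf_mono fun β => ?_
    rw [ex_sb (Ext.mem_right _)]
    refine iSup_mono fun α => iSup_le fun h => ?_
    rw [mem_chk_of_lt h, inf_top_eq]
  · rw [all_ck (Ext_club2 _)]
    refine le_iInf fun γ => ?_
    rw [le_himp_iff]
    by_cases hγ : ∃ b, b < γ
    · have h1 : cloB c ≤ (⨅ β, ⨅ (_ : β < γ), ⨆ α, ⨆ (_ : β < α ∧ α < γ), c α) ⇨ c γ :=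
        (iInf_le _ γ).trans (iInf_le _ hγ)
      rw [mem_sb, VB2_all]
      have h2 : (⨅ β, ⨅ (_ : β < γ), ⨆ α, ⨆ (_ : β < α ∧ α < γ), mem (chk α) (sb c)) =
          ⨅ β, ⨅ (_ : β < γ), ⨆ α, ⨆ (_ : β < α ∧ α < γ), c α :=
        iInf_congr fun β => iInf_congr fun _ => iSup_congr fun α => iSup_congr fun _ =>
          mem_sb c α
      rw [h2]
      exact (inf_le_inf h1 inf_le_right).trans himp_inf_le
    · have h3 : ex (chk γ) (fun _ : BSet B => (⊤ : B)) = ⊥ := by
        rw [ex_chk (Ext.const _)]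
        refine le_bot_iff.1 (iSup₂_le fun j hj => ?_)
        exact absurd ⟨j, hj⟩ hγ
      rw [h3, bot_inf_eq, inf_bot_eq]
      exact bot_le

/- Unbounded: `mem b C ⊓ mem (chk β) b` with `C ⊆ ck B K`; `b` is `chk α` for some `α`
(`mem_ck`, `mem_congr_left`), and `mem (chk β) (chk α) = ⊥` unless `β < α`. -/
theorem isClub_le (C : BSet B) : isClub (ck B K) C ≤
    unbB (fun α : K => mem (chk α) C) ⊓ cloB (fun α : K => mem (chk α) C) := by
  unfold isClub
  refine inf_le_inf ?_ ?_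
  · rw [all_ck (Ext_club1 _)]
    unfold unbB
    refine le_iInf fun β => ?_
    refine (inf_le_inf_left _ (iInf_le _ β)).trans ?_
    unfold ex
    rw [inf_iSup_eq]
    refine iSup_le fun b => ?_
    have h1 : sub C (ck B K) ⊓ (mem b C ⊓ mem (chk β) b) ≤
        (⨆ α : K, eq b (chk α)) ⊓ (mem b C ⊓ mem (chk β) b) := by
      refine le_inf ?_ inf_le_right
      rw [← mem_ck]
      exact (inf_le_inf_left _ inf_le_left).trans (v3_sub_mem C _ b)
    refine h1.trans ?_
    rw [iSup_inf_eq]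
    refine iSup_le fun α => ?_
    have h2 : eq b (chk α) ⊓ (mem b C ⊓ mem (chk β) b) ≤
        mem (chk α) C ⊓ mem (chk β : BSet B) (chk α) := by
      refine le_inf ?_ ?_
      · exact (inf_le_inf_left _ inf_le_left).trans (mem_congr_left _ _ _)
      · exact (inf_le_inf_left _ inf_le_right).trans (mem_congr_right _ _ _)
    refine h2.trans ?_
    by_cases h : β < α
    · exact inf_le_left.trans (le_iSup₂_of_le α h le_rfl)
    · have h2 : mem (chk β : BSet B) (chk α) = ⊥ := by
        classical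
        rw [mem_chk_chk, if_neg h]
      rw [h2, inf_bot_eq]
      exact bot_le
  · rw [all_ck (Ext_club2 _)]
    unfold cloB
    refine le_iInf fun γ => le_iInf fun hγ => ?_
    refine (iInf_le _ γ).trans ?_
    rw [VB2_all]
    have h3 : ex (chk γ) (fun _ : BSet B => (⊤ : B)) = ⊤ := by
      obtain ⟨b, hb⟩ := hγ
      rw [ex_chk (Ext.const _)]
      exact top_le_iff.1 (le_iSup₂_of_le b hb le_rfl)
    rw [h3, top_inf_eq]

end Pool.Agent.LibDm83
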