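import Pool.Agent.LibDm83.Defs

/-! Task WCard: the length of the iteration (only Mathlib). -/

namespace Pool.Agent.LibDm83

open Cardinal Set

/-- The properties of the length `W` of the iteration. -/
structure Len (W K : Type) [LinearOrder W] : Prop where
  bdd : ∀ x : Set W, #x ≤ #K → ∃ b, ∀ a ∈ x, a < b
  iio : ∀ a : W, #(Iio a) < #W
  pow : #W ^ #K = #W
  le : #K ≤ #W

/- Take `W = (succ (2 ^ #K)).ord.ToType`. `bdd`: the cardinal is regular and larger than `#K`
(`Ordinal.lt_cof_type`, `unbounded` or `Cardinal.IsRegular.cof_eq`). `pow`: a function from `K` to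
`W` is bounded, so `#W ^ #K ≤ Σ w : W, #(Iio w) ^ #K ≤ #W * (2 ^ #K) ^ #K = #W`. -/
theorem exists_len (K : Type) [Infinite K] :
    ∃ (W : Type) (_ : LinearOrder W) (_ : WellFoundedLT W), Len W K := by
  have hK : ℵ₀ ≤ #K := Cardinal.aleph0_le_mk K
  have h2 : ℵ₀ ≤ (2 : Cardinal) ^ #K := hK.trans (Cardinal.cantor _).le
  set lam : Cardinal := Order.succ ((2 : Cardinal) ^ #K) with hlam
  have hreg : lam.IsRegular := Cardinal.isRegular_succ h2
  have hlt : #K < lam := (Cardinal.cantor _).trans (Order.lt_succ _)
  let W := lam.ord.ToType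
  have hW : #W = lam := Cardinal.mk_ord_toType lam
  have hbdd : ∀ x : Set W, #x ≤ #K → ∃ b, ∀ a ∈ x, a < b := by
    intro x hx
    by_contra hne
    push Not at hne
    have h1 : IsCofinal x := fun b => hne b
    have h3 := Order.cof_le h1
    have h4 : Order.cof W = lam := by
      rw [Ordinal.cof_toType]
      exact hreg.cof_ord
    rw [h4] at h3
    exact absurd (h3.trans hx) (not_le.mpr hlt)
  have hiio : ∀ a : W, #(Iio a) < #W := by
    intro a
    apply Cardinal.mk_Iio_lt
    rw [hW, Ordinal.type_toType]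
  refine ⟨W, inferInstance, inferInstance, hbdd, hiio, ?_, ?_⟩
  · apply le_antisymm
    · have h5 : #(K → W) ≤ #(Σ w : W, (K → Iio w)) := by
        have hb : ∀ f : K → W, ∃ b, ∀ a, f a < b := by
          intro f
          obtain ⟨b, hb⟩ := hbdd (range f) Cardinal.mk_range_le
          exact ⟨b, fun a => hb _ ⟨a, rfl⟩⟩
        choose B hB using hb
        refine Cardinal.mk_le_of_injective (f := fun f => ⟨B f, fun a => ⟨f a, hB f a⟩⟩) ?_
        intro f g hfg
        have h6 : ∀ (u v : Σ w : W, (K → Iio w)), u = v → ∀ a, (u.2 a : W) = v.2 a := by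
          rintro u v rfl a
          rfl
        funext a
        exact h6 _ _ hfg a
      rw [← Cardinal.power_def W K] at h5
      refine h5.trans ?_
      rw [Cardinal.mk_sigma]
      have h7 : ∀ w : W, #(K → Iio w) ≤ (2 : Cardinal) ^ #K := by
        intro w
        rw [← Cardinal.power_def (Iio w) K]
        have h8 : #(Iio w) ≤ (2 : Cardinal) ^ #K := by
          exact Order.lt_succ_iff.mp ((hiio w).trans_eq hW)
        refine (Cardinal.power_le_power_right h8).trans ?_
        rw [← Cardinal.power_mul, Cardinal.mul_eq_self hK]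
      refine (Cardinal.sum_le_sum _ _ h7).trans ?_
      rw [Cardinal.sum_const', hW]
      refine (mul_le_mul_right (Order.le_succ _) _).trans ?_
      rw [← hlam, Cardinal.mul_eq_self hreg.aleph0_le]
    · exact Cardinal.self_le_power _ (Cardinal.one_le_iff_ne_zero.mpr (Cardinal.mk_ne_zero K))
  · rw [hW]
    exact hlt.le

end Pool.Agent.LibDm83
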